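import Pool.Agent.Helper36.Aug.Neg

/-!
The augmentation ideal of the group ring of `PSL_n(K)` over `P`, `K` an infinite field.
-/

set_option autoImplicit false

namespace H36Aug

open Matrix

section Final

open TensorProduct in
theorem neg_aux {K P F : Type*} [Field K] [Infinite K] [Field P] [Field F] [Algebra F K] [Algebra F P]
    {n : ℕ} (hn : 2 ≤ n) : ¬ SimpleAug P (ProjectiveSpecialLinearGroup (Fin n) K) := by
  have : Nontrivial (P ⊗[F] K) :=
    Algebra.TensorProduct.nontrivial_of_algebraMap_injective_of_flat_right F P K
      (algebraMap F P).injective
  exact not_simple (R := P ⊗[F] K) hn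
    (Algebra.TensorProduct.includeRight (R := F) (A := P) (B := K)).toRingHom

theorem main {n : ℕ} (hn : 2 ≤ n) (K P : Type*) [Field K] [Infinite K] [Field P]
    (h : ringChar K ≠ 0 ∨ ringChar P = 0) :
    SimpleAug P (ProjectiveSpecialLinearGroup (Fin n) K) ↔ ringChar P ≠ ringChar K := by
  constructor
  · intro hs heq
    by_cases h0 : ringChar K = 0
    · have hK : CharP K 0 := by
        rw [← h0]
        exact ringChar.charP K
      have hP : CharP P 0 := by
        rw [← h0, ← heq]
        exact ringChar.charP P
      have : CharZero K := CharP.charP_to_charZero K
      have : CharZero P := CharP.charP_to_charZero P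
      exact neg_aux (F := ℚ) hn hs
    · have hK : CharP K (ringChar K) := ringChar.charP K
      have hP : CharP P (ringChar K) := by
        rw [← heq]
        exact ringChar.charP P
      have hprime : (ringChar K).Prime := CharP.char_prime_of_ne_zero K h0
      have : Fact (ringChar K).Prime := ⟨hprime⟩
      let _ : Algebra (ZMod (ringChar K)) K := ZMod.algebra K _
      let _ : Algebra (ZMod (ringChar K)) P := ZMod.algebra P _
      exact neg_aux (F := ZMod (ringChar K)) hn hs
  · intro hne
    have hK0 : ringChar K ≠ 0 := by
      intro h0
      rcases h with h | h
      · exact h h0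
      · exact hne (h.trans h0.symm)
    have hK : CharP K (ringChar K) := ringChar.charP K
    have hprime : (ringChar K).Prime := CharP.char_prime_of_ne_zero K hK0
    have : Fact (ringChar K).Prime := ⟨hprime⟩
    have hP : ((ringChar K : ℕ) : P) ≠ 0 := by
      intro h1
      rw [ringChar.spec] at h1
      rcases (Nat.dvd_prime hprime).1 h1 with h2 | h2
      · have : (ringChar P).Prime ∨ ringChar P = 0 := CharP.char_is_prime_or_zero P (ringChar P)
        rw [h2] at this
        rcases this with h3 | h3
        · exact Nat.not_prime_one h3
        · exact one_ne_zero h3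
      · exact hne h2
    have := infinite_psl (K := K) hn
    exact simple_of fun T hT hT0 g => by
      have := hT
      exact ideal_top hn hP T hT0 g

end Final

end H36Aug
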