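import Pool.Agent.Helper36.Aug.StartN

/-!
A normal subgroup of `SL_n(K)` that contains a unipotent radical is the whole group.
-/

set_option autoImplicit false

namespace H36Aug

namespace M

open Matrix

section Gen

variable {m K : Type*} [Fintype m] [DecidableEq m] [Field K]

omit [Fintype m] in
theorem sg (i j : m) (c : K) : single i j c = c • single i j (1 : K) := by
  rw [smul_single, smul_eq_mul, mul_one]

theorem comm_tv {i j k : m} (hij : i ≠ j) (hik : i ≠ k) (hkj : k ≠ j) (a : K) :
    SpecialLinearGroup.transvection hij a =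
      SpecialLinearGroup.transvection hik a * (SpecialLinearGroup.transvection hkj 1 *
        SpecialLinearGroup.transvection hik (-a) * SpecialLinearGroup.transvection hkj (-1)) := by
  refine SL_ext ?_
  simp only [mul_val, SpecialLinearGroup.transvection_coe]
  simp only [mul_add, add_mul, single_mul_single_same, hij.symm, hik.symm, hkj.symm, mul_one, one_mul,
    ne_eq, not_false_eq_true, single_mul_single_of_ne, zero_mul, add_zero, zero_add, mul_neg, neg_neg]
  rw [sg i j a, sg i k a, sg i k (-a), sg k j (-1), sg i j (-a)]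
  module

theorem diag_tv {i j : m} (hij : i ≠ j) (a : K) (ha : a ≠ 0) :
    SpecialLinearGroup.diag2n hij a ha =
      SpecialLinearGroup.transvection hij a * SpecialLinearGroup.transvection hij.symm (-a⁻¹) *
      SpecialLinearGroup.transvection hij a * SpecialLinearGroup.transvection hij (-1) *
      SpecialLinearGroup.transvection hij.symm 1 * SpecialLinearGroup.transvection hij (-1) := by
  have h1 : (SpecialLinearGroup.diag2n hij a ha).1 = 1 + single i i (a - 1) + single j j (a⁻¹ - 1) := by
    rw [SpecialLinearGroup.diag2n_coe]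
    ext k k'
    simp only [diagonal_apply, Matrix.add_apply, one_apply, single_apply]
    by_cases hkk : k = k'
    · subst hkk
      by_cases hki : k = i
      · subst hki
        simp [hij.symm]
      · by_cases hkj : k = j
        · subst hkj
          simp [hki, hij]
        · simp [hki, hkj, Ne.symm hki, Ne.symm hkj]
    · have h2 : ¬ (i = k ∧ i = k') := fun h => hkk (h.1.symm.trans h.2)
      have h3 : ¬ (j = k ∧ j = k') := fun h => hkk (h.1.symm.trans h.2)
      simp [hkk, h2, h3]
  refine SL_ext ?_
  rw [h1]
  simp only [mul_val, SpecialLinearGroup.transvection_coe]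
  simp only [mul_add, add_mul, single_mul_single_same, hij.symm, hij, mul_one, one_mul,
    ne_eq, not_false_eq_true, single_mul_single_of_ne, zero_mul, add_zero, zero_add, mul_neg, neg_neg,
    mul_inv_cancel₀ ha, inv_mul_cancel₀ ha, neg_mul]
  rw [sg i j a, sg i i (a - 1), sg j j (a⁻¹ - 1), sg i j (-a), sg j i (-a⁻¹), sg i i (-1), sg j j (-1),
    sg i j (-1), sg j j a⁻¹, sg i i a, sg j i (-1), sg i i (-a), sg j i a⁻¹, sg j j (-a⁻¹)]
  module

/-- a normal subgroup that contains all transvections with one fixed second index -/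
theorem normal_top (N : Subgroup (SpecialLinearGroup m K)) [N.Normal] (o : m)
    (ho : ∃ i j : m, i ≠ o ∧ j ≠ o ∧ i ≠ j)
    (h : ∀ (i : m) (hi : i ≠ o) (a : K), SpecialLinearGroup.transvection hi a ∈ N) :
    N = ⊤ := by
  have hneg : ∀ {i j : m} (hij : i ≠ j) (a : K), SpecialLinearGroup.transvection hij (-a) =
      (SpecialLinearGroup.transvection hij a)⁻¹ := fun hij a =>
    (SpecialLinearGroup.transvection_inv hij a).symm
  -- if one factor of the commutator is in `N` then so is the commutator
  have key1 : ∀ {i j k : m} (hij : i ≠ j) (hik : i ≠ k) (hkj : k ≠ j) (a : K),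
      SpecialLinearGroup.transvection hik a ∈ N → SpecialLinearGroup.transvection hij a ∈ N := by
    intro i j k hij hik hkj a hN
    rw [comm_tv hij hik hkj a]
    refine N.mul_mem hN ?_
    rw [hneg hkj 1]
    refine Subgroup.Normal.conj_mem inferInstance _ ?_ _
    rw [hneg hik a]
    exact N.inv_mem hN
  have key2 : ∀ {i j k : m} (hij : i ≠ j) (hik : i ≠ k) (hkj : k ≠ j) (a : K),
      SpecialLinearGroup.transvection hkj (1 : K) ∈ N → SpecialLinearGroup.transvection hij a ∈ N := by
    intro i j k hij hik hkj a hN
    rw [comm_tv hij hik hkj a, ← mul_assoc, ← mul_assoc]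
    refine N.mul_mem ?_ ?_
    · rw [hneg hik a]
      exact Subgroup.Normal.conj_mem inferInstance _ hN _
    · rw [hneg hkj 1]
      exact N.inv_mem hN
  have h1 : ∀ {i j : m} (hij : i ≠ j) (hi : i ≠ o) (hj : j ≠ o) (a : K),
      SpecialLinearGroup.transvection hij a ∈ N := fun hij hi hj a =>
    key1 hij hi hj.symm a (h _ hi a)
  have h2 : ∀ {j : m} (hj : o ≠ j) (a : K), SpecialLinearGroup.transvection hj a ∈ N := by
    intro j hj a
    obtain ⟨i, i', hi, hi', hii⟩ := ho
    by_cases hij : i = j
    · have hij' : i' ≠ j := by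
        rw [← hij]
        exact hii.symm
      exact key2 hj hi'.symm hij' a (h1 hij' hi' hj.symm 1)
    · exact key2 hj hi.symm hij a (h1 hij hi hj.symm 1)
  have h3 : ∀ {i j : m} (hij : i ≠ j) (a : K), SpecialLinearGroup.transvection hij a ∈ N := by
    intro i j hij a
    by_cases hi : i = o
    · subst hi
      exact h2 hij a
    · by_cases hj : j = o
      · subst hj
        exact h i hij a
      · exact h1 hij hi hj a
  have : Nontrivial m := by
    obtain ⟨i, -, hi, -⟩ := ho
    exact ⟨i, o, hi⟩
  rw [eq_top_iff]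
  intro M _
  refine SpecialLinearGroup.diagonal_transvection_induction' (fun M => M ∈ N) M ?_ ?_ ?_
  · intro i j hij c hc
    rw [diag_tv hij c hc]
    exact N.mul_mem (N.mul_mem (N.mul_mem (N.mul_mem (N.mul_mem (h3 _ _) (h3 _ _)) (h3 _ _)) (h3 _ _))
      (h3 _ _)) (h3 _ _)
  · intro i j hij a
    exact h3 hij a
  · intro A B hA hB
    exact N.mul_mem hA hB

end Gen

section All

variable {ι K P A : Type*} [Fintype ι] [DecidableEq ι] [Field K] [Field P] [Ring A] [Algebra P A]
  {l : ℕ} [Fact l.Prime] [Algebra (ZMod l) K] {ε : AddChar (ZMod l) P}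

theorem rep_trivial [Infinite K] [Nontrivial ι] (hP : (l : P) ≠ 0) (hε : ∀ a : ZMod l, ε a = 1 → a = 0)
    (π : SpecialLinearGroup (ι ⊕ Unit) K →* A)
    (hz : ∀ g g' : SpecialLinearGroup (ι ⊕ Unit) K, (∃ z : K, g'.1 = z • g.1) → π g = π g')
    {κ : Type*} (s : Finset κ) (g : κ → SpecialLinearGroup (ι ⊕ Unit) K) (c : κ → P)
    (hg : ∀ i ∈ s, ∀ j ∈ s, i ≠ j → ∀ z : K, (g j).1 ≠ z • (g i).1) (i0 : κ) (hi0 : i0 ∈ s)
    (hc : c i0 ≠ 0) (hrel : ∑ i ∈ s, c i • π (g i) = 0) (M : SpecialLinearGroup (ι ⊕ Unit) K) :
    π M = 1 := by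
  have h1 := uG_one (ε := ε) hP hε π hz s g c hg i0 hi0 hc hrel
  have h2 : π.ker = ⊤ := by
    refine normal_top π.ker (Sum.inr ()) ?_ ?_
    · obtain ⟨i, j, hij⟩ := exists_pair_ne ι
      exact ⟨Sum.inl i, Sum.inl j, by simp, by simp, by simpa using hij⟩
    · rintro (i | i) hi a
      · have : SpecialLinearGroup.transvection hi a = uG (Pi.single i a) := by
          refine SL_ext ?_
          rw [uG_val, SpecialLinearGroup.transvection_coe]
          ext p q
          rcases p with p | p <;> rcases q with q | q
          · simp [bl, one_apply, single_apply]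
          · simp [bl, one_apply, single_apply, Pi.single_apply, eq_comm]
          · simp [bl, one_apply, single_apply]
          · simp [bl, one_apply, single_apply]
        rw [MonoidHom.mem_ker, this]
        exact h1 _
      · exact absurd rfl hi
  have h3 : M ∈ π.ker := by
    rw [h2]
    exact Subgroup.mem_top _
  exact h3

end All

end M

end H36Aug
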