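import Mathlib

/-!
Group rings whose augmentation ideal is a simple ring.
-/

set_option autoImplicit false

namespace H36Aug

/-- the augmentation map `∑ a_h h ↦ ∑ a_h` of the group ring `PH` -/
noncomputable def aug (P H : Type*) [Field P] [Group H] : MonoidAlgebra P H →ₐ[P] P :=
  MonoidAlgebra.lift P P H 1

/-- the augmentation ideal `A = A(PH)` is a simple ring: `A ^ 2 ≠ 0`, and an additive subgroup `I` of
`A` with `A I ⊆ I` and `I A ⊆ I` is `0` or `A` -/
def SimpleAug (P H : Type*) [Field P] [Group H] : Prop :=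
  (∃ a b : MonoidAlgebra P H, aug P H a = 0 ∧ aug P H b = 0 ∧ a * b ≠ 0) ∧
    ∀ I : AddSubgroup (MonoidAlgebra P H), (∀ x ∈ I, aug P H x = 0) →
      (∀ a, aug P H a = 0 → ∀ x ∈ I, a * x ∈ I ∧ x * a ∈ I) →
      (∀ x ∈ I, x = 0) ∨ ∀ x, aug P H x = 0 → x ∈ I

end H36Aug
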