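import Pool.Agent.Helper36.Aug.Rel

/-!
Every functional on a finite set that vanishes on the square-invariant part of the kernel of `φ` is
given by `y ↦ φ (s ^ 2 * y)` for some `s`.
-/

set_option autoImplicit false

namespace H36Aug

variable {K : Type*} [Field K] {l : ℕ} [Fact l.Prime] [Algebra (ZMod l) K]

/-- the largest subgroup of the kernel of `φ` closed under multiplication by squares -/
def WW (φ : K →ₗ[ZMod l] ZMod l) : Submodule (ZMod l) K where
  carrier := {y | ∀ c : K, φ (c ^ 2 * y) = 0}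
  add_mem' := by
    intro a b ha hb c
    rw [mul_add, map_add, ha c, hb c, add_zero]
  zero_mem' := by
    intro c
    simp
  smul_mem' := by
    intro r y hy c
    rw [mul_smul_comm, map_smul, hy c, smul_zero]

theorem WW_sq (φ : K →ₗ[ZMod l] ZMod l) : ∀ c : K, ∀ y ∈ WW φ, c ^ 2 * y ∈ WW φ := by
  intro c y hy d
  have := hy (d * c)
  rwa [mul_pow, mul_assoc] at this

theorem WW_ne {φ : K →ₗ[ZMod l] ZMod l} {x : K} (hx : φ x ≠ 0) : WW φ ≠ ⊤ := by
  intro h
  have h1 : x ∈ WW φ := by rw [h]; trivial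
  have := h1 1
  rw [one_pow, one_mul] at this
  exact hx this

/-- a functional on `T → ZMod l` is given by a sum -/
theorem pi_fun' (T : Finset K) (f : (T → ZMod l) →ₗ[ZMod l] ZMod l) :
    ∃ y : K, y ∈ V l T ∧ ∀ χ : K →ₗ[ZMod l] ZMod l, f (fun t => χ t) = χ y := by
  classical
  refine ⟨∑ t : T, f (fun j => if t = j then 1 else 0) • (t : K), ?_, fun χ => ?_⟩
  · rw [mem_V]
    exact Submodule.sum_mem _ fun t _ => Submodule.smul_mem _ _ (Submodule.subset_span t.2)
  · rw [LinearMap.pi_apply_eq_sum_univ, map_sum]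
    refine Finset.sum_congr rfl fun t _ => ?_
    rw [map_smul, smul_eq_mul, smul_eq_mul, mul_comm]

theorem pi_fun (T : Finset K) (f : (T → ZMod l) →ₗ[ZMod l] ZMod l) :
    ∃ y : K, ∀ χ : K →ₗ[ZMod l] ZMod l, f (fun t => χ t) = χ y := by
  obtain ⟨y, -, hy⟩ := pi_fun' T f
  exact ⟨y, hy⟩

/-- an additive submonoid of a `ZMod l` vector space as a subspace -/
def subsp {M : Type*} [AddCommGroup M] [Module (ZMod l) M] (Q : Set M) (h0 : (0 : M) ∈ Q)
    (ha : ∀ x ∈ Q, ∀ y ∈ Q, x + y ∈ Q) : Submodule (ZMod l) M where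
  carrier := Q
  add_mem' := fun {x y} hx hy => ha x hx y hy
  zero_mem' := h0
  smul_mem' := by
    intro c x hx
    have h1 : ∀ n : ℕ, n • x ∈ Q := by
      intro n
      induction n with
      | zero => simpa using h0
      | succ n ih => rw [succ_nsmul]; exact ha _ ih _ hx
    have h2 : c • x = c.val • x := by
      rw [← Nat.cast_smul_eq_nsmul (ZMod l), ZMod.natCast_zmod_val]
    rw [h2]
    exact h1 _

theorem sq_odd [Infinite K] (hl : (2 : ZMod l) ≠ 0) {φ : K →ₗ[ZMod l] ZMod l} {z0 : K}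
    (hφ : φ z0 ≠ 0) (T : Finset K) (x : K) : ∃ s : K, ∀ y ∈ T, φ (s ^ 2 * y) = φ (x * y) := by
  classical
  have h2 : ∀ y : K, φ (2 * y) = 2 * φ y := by
    intro y
    rw [two_mul, map_add, two_mul]
  -- values that occur for squares of elements orthogonal to any given finite set
  let Q : Submodule (ZMod l) (T → ZMod l) := subsp
    {v | ∀ Z : Finset K, ∃ s : K, (∀ z ∈ Z, φ (z * s) = 0) ∧ ∀ y : T, φ (s ^ 2 * y) = v y}
    (fun Z => ⟨0, by simp, by simp⟩) (by
      intro v hv v' hv' Z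
      obtain ⟨s, hs, hsv⟩ := hv Z
      obtain ⟨s', hs', hsv'⟩ := hv' (Z ∪ T.image (fun y => s * y))
      refine ⟨s + s', fun z hz => ?_, fun y => ?_⟩
      · rw [mul_add, map_add, hs z hz, hs' z (Finset.mem_union_left _ hz), add_zero]
      · have e : (s + s') ^ 2 * (y : K) = s ^ 2 * y + 2 * (s * y * s') + s' ^ 2 * y := by ring
        rw [e, map_add, map_add, h2, hs' (s * y) (Finset.mem_union_right _
          (Finset.mem_image.2 ⟨y, y.2, rfl⟩)), hsv, hsv' y]
        simp)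
  have hQ : ∀ v, v ∈ Q ↔ ∀ Z : Finset K, ∃ s : K, (∀ z ∈ Z, φ (z * s) = 0) ∧
      ∀ y : T, φ (s ^ 2 * y) = v y := fun v => Iff.rfl
  -- one finite set suffices
  have hZ0 : ∃ Z0 : Finset K, ∀ s : K, (∀ z ∈ Z0, φ (z * s) = 0) →
      (fun y : T => φ (s ^ 2 * y)) ∈ Q := by
    have hc : ∀ v : T → ZMod l, ∃ Z : Finset K, v ∉ Q → ∀ s : K, (∀ z ∈ Z, φ (z * s) = 0) →
        ¬ ∀ y : T, φ (s ^ 2 * y) = v y := by
      intro v
      by_cases hv : v ∈ Q
      · exact ⟨∅, fun h => absurd hv h⟩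
      · rw [hQ] at hv
        push Not at hv
        obtain ⟨Z, hZ⟩ := hv
        refine ⟨Z, fun _ s hs h => ?_⟩
        obtain ⟨y, hy⟩ := hZ s hs
        exact hy (h y)
    choose Zf hZf using hc
    have : Fintype (T → ZMod l) := Fintype.ofFinite _
    refine ⟨Finset.univ.biUnion Zf, fun s hs => ?_⟩
    by_contra hn
    exact hZf _ hn s (fun z hz => hs z (Finset.mem_biUnion.2 ⟨_, Finset.mem_univ _, hz⟩))
      (fun y => rfl)
  obtain ⟨Z0, hZ0⟩ := hZ0
  by_contra hno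
  have hx : (fun y : T => φ (x * y)) ∉ Q := by
    intro h
    obtain ⟨s, -, hs⟩ := h ∅
    exact hno ⟨s, fun y hy => hs ⟨y, hy⟩⟩
  obtain ⟨f, hf, hfx⟩ := sep Q hx
  obtain ⟨y0, hy0⟩ := pi_fun T f
  have hmul : ∀ c y : K, (φ ∘ₗ LinearMap.mulLeft (ZMod l) c) y = φ (c * y) := fun c y => rfl
  have hxy : φ (x * y0) ≠ 0 := by
    have := hy0 (φ ∘ₗ LinearMap.mulLeft (ZMod l) x)
    simp only [hmul] at this
    rwa [this] at hfx
  have hy00 : y0 ≠ 0 := by
    intro h
    rw [h, mul_zero, map_zero] at hxy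
    exact hxy rfl
  have hs0 : ∀ s : K, (∀ z ∈ Z0, φ (z * s) = 0) → φ (s ^ 2 * y0) = 0 := by
    intro s hs
    have h1 := hf _ (hZ0 s hs)
    have := hy0 (φ ∘ₗ LinearMap.mulLeft (ZMod l) (s ^ 2))
    simp only [hmul] at this
    rwa [this] at h1
  have hpol : ∀ s s' : K, (∀ z ∈ Z0, φ (z * s) = 0) → (∀ z ∈ Z0, φ (z * s') = 0) →
      φ (s * y0 * s') = 0 := by
    intro s s' hs hs'
    have h1 := hs0 (s + s') (fun z hz => by rw [mul_add, map_add, hs z hz, hs' z hz, add_zero])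
    have e : (s + s') ^ 2 * y0 = s ^ 2 * y0 + 2 * (s * y0 * s') + s' ^ 2 * y0 := by ring
    rw [e, map_add, map_add, hs0 s hs, hs0 s' hs', h2, zero_add, add_zero] at h1
    exact (mul_eq_zero.1 h1).resolve_left hl
  -- the orthogonal of `Z0` would be finite
  have hfin : {s : K | ∀ z ∈ Z0, φ (z * s) = 0} ⊆
      (fun v => v * y0⁻¹) '' (V l Z0 : Set K) := by
    intro s hs
    refine ⟨s * y0, ?_, by field_simp⟩
    have h1 : φ ∘ₗ LinearMap.mulLeft (ZMod l) (s * y0) ∈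
        Submodule.span (ZMod l) (Set.range (fun z : Z0 => φ ∘ₗ LinearMap.mulLeft (ZMod l) (z : K))) := by
      refine mem_span_of_iInf_ker_le_ker ?_
      intro s' hs'
      rw [LinearMap.mem_ker, hmul]
      refine hpol s s' hs (fun z hz => ?_)
      have := (Submodule.mem_iInf _).1 hs' ⟨z, hz⟩
      exact this
    rw [Submodule.mem_span_range_iff_exists_fun] at h1
    obtain ⟨c, hc⟩ := h1
    have h3 : s * y0 = ∑ z : Z0, c z • (z : K) := by
      by_contra hne
      have hne' := sub_ne_zero.2 hne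
      have h4 := LinearMap.congr_fun hc ((s * y0 - ∑ z : Z0, c z • (z : K))⁻¹ * z0)
      have h5 : φ ((s * y0 - ∑ z : Z0, c z • (z : K)) *
          ((s * y0 - ∑ z : Z0, c z • (z : K))⁻¹ * z0)) = 0 := by
        rw [sub_mul, map_sub, ← hmul (s * y0), ← h4, Finset.sum_mul, map_sum, LinearMap.sum_apply,
          ← Finset.sum_sub_distrib]
        refine Finset.sum_eq_zero fun z _ => ?_
        rw [smul_mul_assoc, map_smul, LinearMap.smul_apply, hmul, sub_self]
      rw [← mul_assoc, mul_inv_cancel₀ hne', one_mul] at h5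
      exact hφ h5
    rw [Finset.mem_coe, mem_V, h3]
    exact Submodule.sum_mem _ fun z _ => Submodule.smul_mem _ _ (Submodule.subset_span z.2)
  have hfin2 : {s : K | ∀ z ∈ Z0, φ (z * s) = 0}.Finite :=
    ((Finset.finite_toSet _).image _).subset hfin
  -- but it is the kernel of a map to a finite group
  let Ψ : K →ₗ[ZMod l] (Z0 → ZMod l) :=
    LinearMap.pi (fun z : Z0 => φ ∘ₗ LinearMap.mulLeft (ZMod l) (z : K))
  obtain ⟨v, hv⟩ := Finite.exists_infinite_fiber Ψ
  obtain ⟨⟨s1, hs1⟩⟩ := hv.nonempty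
  apply hfin2.not_infinite
  have hinj : Function.Injective (fun s : Ψ ⁻¹' {v} => (s : K) - s1) := by
    intro a b h
    exact Subtype.ext (by simpa using h)
  refine Set.infinite_of_injective_forall_mem hinj ?_
  rintro ⟨s, hs⟩ z hz
  have e1 : Ψ s = v := hs
  have e2 : Ψ s1 = v := hs1
  have h3 := congrFun (e1.trans e2.symm) ⟨z, hz⟩
  simp only [Ψ, LinearMap.pi_apply, hmul] at h3
  rw [mul_sub, map_sub, h3, sub_self]

theorem square [Infinite K] {φ : K →ₗ[ZMod l] ZMod l} {z0 : K}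
    (hφ : φ z0 ≠ 0) (T : Finset K) (ψ : K →ₗ[ZMod l] ZMod l) (hψ : ∀ y ∈ WW φ, ψ y = 0) :
    ∃ s : K, ∀ y ∈ T, φ (s ^ 2 * y) = ψ y := by
  classical
  have hmul : ∀ c y : K, (φ ∘ₗ LinearMap.mulLeft (ZMod l) c) y = φ (c * y) := fun c y => rfl
  let Q : Submodule (ZMod l) (T → ZMod l) := subsp
    {v | ∃ s : K, ∀ y : T, φ (s ^ 2 * y) = v y} ⟨0, by simp⟩ (by
      rintro v ⟨s, hs⟩ v' ⟨s', hs'⟩
      by_cases h2 : (2 : ZMod l) = 0
      · refine ⟨s + s', fun y => ?_⟩
        have e : (s + s') ^ 2 * (y : K) = s ^ 2 * y + (2 : ZMod l) • (s * y * s') + s' ^ 2 * y := by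
          rw [Algebra.smul_def, map_ofNat]
          ring
        rw [e, h2, zero_smul, add_zero, map_add, hs, hs']
        rfl
      · obtain ⟨s'', hs''⟩ := sq_odd h2 hφ T (s ^ 2 + s' ^ 2)
        refine ⟨s'', fun y => ?_⟩
        rw [hs'' y y.2, add_mul, map_add, hs, hs']
        rfl)
  by_contra hno
  have hx : (fun y : T => ψ y) ∉ Q := by
    rintro ⟨s, hs⟩
    exact hno ⟨s, fun y hy => hs ⟨y, hy⟩⟩
  obtain ⟨f, hf, hfx⟩ := sep Q hx
  obtain ⟨y0, hy0⟩ := pi_fun T f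
  rw [hy0] at hfx
  apply hfx
  apply hψ
  intro s
  have h1 := hf (fun y : T => φ (s ^ 2 * y)) ⟨s, fun y => rfl⟩
  have := hy0 (φ ∘ₗ LinearMap.mulLeft (ZMod l) (s ^ 2))
  simp only [hmul] at this
  rwa [this] at h1

end H36Aug
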