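import Pool.Agent.Helper36.Aug.RelN
import Pool.Agent.Helper36.Aug.Square

/-!
Density of the orbits of the Levi subgroup on pairs of nonzero functionals.
-/

set_option autoImplicit false

namespace H36Aug

namespace M

open Filter Matrix

section One

variable {K : Type*} [Field K] {l : ℕ} [Fact l.Prime] [Algebra (ZMod l) K]

/-- multiplication of a functional by an element of `K` -/
def tw (κ : K →ₗ[ZMod l] ZMod l) (c : K) : K →ₗ[ZMod l] ZMod l := κ ∘ₗ LinearMap.mulLeft (ZMod l) c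

theorem tw_apply (κ : K →ₗ[ZMod l] ZMod l) (c x : K) : tw κ c x = κ (c * x) := rfl

theorem tw_tw (κ : K →ₗ[ZMod l] ZMod l) (c d : K) : tw (tw κ c) d = tw κ (c * d) := by
  ext x
  simp [tw_apply, mul_assoc]

theorem tw_zero (κ : K →ₗ[ZMod l] ZMod l) : tw κ 0 = 0 := by
  ext x
  simp [tw_apply]

theorem tw_one (κ : K →ₗ[ZMod l] ZMod l) : tw κ 1 = κ := by
  ext x
  simp [tw_apply]

theorem tw_add (κ : K →ₗ[ZMod l] ZMod l) (c d : K) : tw κ (c + d) = tw κ c + tw κ d := by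
  ext x
  simp [tw_apply, add_mul]

theorem tw_sub (κ : K →ₗ[ZMod l] ZMod l) (c d : K) : tw κ (c - d) = tw κ c - tw κ d := by
  ext x
  simp [tw_apply, sub_mul]

theorem tw_inj {κ : K →ₗ[ZMod l] ZMod l} (hκ : κ ≠ 0) {c d : K} (h : tw κ c = tw κ d) : c = d := by
  by_contra hne
  apply hκ
  have h1 : tw κ (c - d) = 0 := by rw [tw_sub, h, sub_self]
  have h2 : tw (tw κ (c - d)) (c - d)⁻¹ = κ := by
    rw [tw_tw, mul_inv_cancel₀ (sub_ne_zero.2 hne), tw_one]
  rw [← h2, h1]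
  ext x
  simp [tw_apply]

theorem tw_ne {κ : K →ₗ[ZMod l] ZMod l} (hκ : κ ≠ 0) {c : K} (hc : c ≠ 0) : tw κ c ≠ 0 := by
  intro h
  exact hc (tw_inj hκ (by rw [h, tw_zero]))

/-- an equation `a = c b` between functionals with `b ≠ 0` has at most one solution `c` -/
theorem one_bad (a : K →ₗ[ZMod l] ZMod l) {b : K →ₗ[ZMod l] ZMod l} (hb : b ≠ 0) :
    {c : K | tw b c = a}.Finite := by
  apply Set.Subsingleton.finite
  intro c hc d hd
  exact tw_inj hb (Eq.trans hc (Eq.symm hd))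

/-- the finite set of ratios -/
noncomputable def ratios [DecidableEq K] (S : Finset K) : Finset K :=
  ((H36Aug.V l S) ×ˢ (H36Aug.V l S)).image (fun p => -p.1 / p.2)

/-- two functionals with prescribed values -/
theorem two [Infinite K] [DecidableEq K] (S : Finset K) {κ κ' : K →ₗ[ZMod l] ZMod l} (hκ : κ ≠ 0)
    (hR : ∀ r ∈ ratios (l := l) S, κ' ≠ tw κ r) (τ τ' : K →ₗ[ZMod l] ZMod l) {bad : Set K}
    (hbad : bad.Finite) :
    ∃ c : K, c ∉ bad ∧ (∀ s ∈ S, κ (c * s) = τ s) ∧ ∀ s ∈ S, κ' (c * s) = τ' s := by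
  classical
  let Ψ : K →ₗ[ZMod l] (S → ZMod l) × (S → ZMod l) :=
    (LinearMap.pi (fun s : S => κ ∘ₗ LinearMap.mulRight (ZMod l) (s : K))).prod
      (LinearMap.pi (fun s : S => κ' ∘ₗ LinearMap.mulRight (ZMod l) (s : K)))
  have hΨ : ∀ c, Ψ c = ((fun s : S => κ (c * s)), (fun s : S => κ' (c * s))) := fun c => rfl
  have hex : ((fun s : S => τ s), (fun s : S => τ' s)) ∈ LinearMap.range Ψ := by
    by_contra hno
    obtain ⟨f, hf, hf'⟩ := sep _ hno
    obtain ⟨y, hy⟩ := pi_fun' S (f ∘ₗ LinearMap.inl (ZMod l) _ _)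
    obtain ⟨y', hy'⟩ := pi_fun' S (f ∘ₗ LinearMap.inr (ZMod l) _ _)
    have hsplit : ∀ χ χ' : K →ₗ[ZMod l] ZMod l,
        f ((fun s : S => χ s), (fun s : S => χ' s)) = χ y + χ' y' := by
      intro χ χ'
      rw [← hy.2 χ, ← hy'.2 χ', LinearMap.comp_apply, LinearMap.comp_apply, ← map_add]
      congr 1
      simp
    rw [hsplit] at hf'
    have hz : ∀ c, κ (c * y) + κ' (c * y') = 0 := by
      intro c
      have h1 := hf (Ψ c) ⟨c, rfl⟩
      rw [hΨ] at h1
      have h2 := hsplit (tw κ c) (tw κ' c)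
      simp only [tw_apply] at h2
      rw [← h2]
      exact h1
    by_cases h0 : y' = 0
    · have hy0 : y = 0 := by
        by_contra hne
        apply hκ
        ext c
        have := hz (c * y⁻¹)
        rw [h0, mul_zero, map_zero, add_zero, mul_assoc, inv_mul_cancel₀ hne, mul_one] at this
        simpa using this
      rw [hy0, h0] at hf'
      simp at hf'
    · apply hR (-y / y') (Finset.mem_image.2 ⟨(y, y'), Finset.mem_product.2 ⟨hy.1, hy'.1⟩, rfl⟩)
      ext c
      have := hz (c * y'⁻¹)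
      rw [mul_assoc _ y'⁻¹ y', inv_mul_cancel₀ h0, mul_one] at this
      rw [tw_apply, eq_neg_of_add_eq_zero_right this, ← map_neg]
      congr 1
      field_simp
  obtain ⟨c0, hc0⟩ := hex
  obtain ⟨v, hv⟩ := Finite.exists_infinite_fiber Ψ
  obtain ⟨⟨s1, hs1⟩⟩ := hv.nonempty
  have hinf : {c : K | Ψ c = Ψ c0}.Infinite := by
    have hinj : Function.Injective (fun s : Ψ ⁻¹' {v} => (s : K) - s1 + c0) := by
      intro a b h
      exact Subtype.ext (by simpa using h)
    refine Set.infinite_of_injective_forall_mem hinj ?_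
    rintro ⟨s, hs⟩
    have e1 : Ψ s = v := hs
    have e2 : Ψ s1 = v := hs1
    change Ψ (s - s1 + c0) = Ψ c0
    rw [map_add, map_sub, e1, e2, sub_self, zero_add]
  obtain ⟨c, hc, hcb⟩ := hinf.exists_notMem_finite hbad
  have h1 : Ψ c = ((fun s : S => τ s), (fun s : S => τ' s)) := Eq.trans hc hc0
  rw [hΨ, Prod.mk.injEq] at h1
  exact ⟨c, hcb, fun s hs => congrFun h1.1 ⟨s, hs⟩, fun s hs => congrFun h1.2 ⟨s, hs⟩⟩

end One

section Fam

variable {ι K : Type*} [Fintype ι] [DecidableEq ι] [Field K] {l : ℕ} [Fact l.Prime]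
  [Algebra (ZMod l) K]

/-- the functional with given components -/
def FF (κ : ι → (K →ₗ[ZMod l] ZMod l)) : (ι → K) →ₗ[ZMod l] ZMod l :=
  ∑ j, κ j ∘ₗ LinearMap.proj j

omit [DecidableEq ι] in
theorem FF_apply (κ : ι → (K →ₗ[ZMod l] ZMod l)) (x : ι → K) : FF κ x = ∑ j, κ j (x j) := by
  simp [FF]

omit [DecidableEq ι] in
theorem FF_add (κ κ' : ι → (K →ₗ[ZMod l] ZMod l)) (x : ι → K) :
    FF (κ + κ') x = FF κ x + FF κ' x := by
  simp [FF_apply, Finset.sum_add_distrib]

omit [DecidableEq ι] in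
theorem FF_sub (κ κ' : ι → (K →ₗ[ZMod l] ZMod l)) (x : ι → K) :
    FF (κ - κ') x = FF κ x - FF κ' x := by
  simp [FF_apply, Finset.sum_sub_distrib]

theorem FF_single (j : ι) (δ : K →ₗ[ZMod l] ZMod l) (x : ι → K) :
    FF (Pi.single j δ) x = δ (x j) := by
  rw [FF_apply, Finset.sum_eq_single j]
  · simp
  · intro k _ hk
    simp [Pi.single_eq_of_ne hk]
  · simp

theorem FF_e (κ : ι → (K →ₗ[ZMod l] ZMod l)) (i : ι) (z : K) : FF κ (Pi.single i z) = κ i z := by
  rw [FF_apply, Finset.sum_eq_single i]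
  · simp
  · intro k _ hk
    simp [Pi.single_eq_of_ne hk]
  · simp

/-- every functional has components -/
theorem exists_FF (χ : (ι → K) →ₗ[ZMod l] ZMod l) : ∃ κ : ι → (K →ₗ[ZMod l] ZMod l), FF κ = χ := by
  refine ⟨fun j => χ ∘ₗ LinearMap.single (ZMod l) (fun _ => K) j, ?_⟩
  refine LinearMap.pi_ext fun i z => ?_
  rw [FF_e]
  rfl

/-- one pair of functionals is obtained from another one by an element of the Levi subgroup -/
def Reach (p q : (ι → (K →ₗ[ZMod l] ZMod l)) × (ι → (K →ₗ[ZMod l] ZMod l))) : Prop :=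
  ∃ B : GL ι K, (∀ x, FF q.1 x = FF p.1 (au l B x)) ∧ ∀ y, FF q.2 y = FF p.2 (av l B⁻¹ y)

theorem Reach.refl (p : (ι → (K →ₗ[ZMod l] ZMod l)) × (ι → (K →ₗ[ZMod l] ZMod l))) :
    Reach p p := by
  refine ⟨1, fun x => ?_, fun y => ?_⟩
  · change _ = FF p.1 ((1 : Matrix ι ι K).det • ((1 : Matrix ι ι K) *ᵥ x))
    rw [det_one, one_smul, one_mulVec]
  · rw [inv_one]
    change _ = FF p.2 ((1 : Matrix ι ι K).det • (y ᵥ* (1 : Matrix ι ι K)))
    rw [det_one, one_smul, vecMul_one]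

theorem Reach.trans {p q r : (ι → (K →ₗ[ZMod l] ZMod l)) × (ι → (K →ₗ[ZMod l] ZMod l))}
    (h : Reach p q) (h' : Reach q r) : Reach p r := by
  obtain ⟨B, h1, h2⟩ := h
  obtain ⟨B', h3, h4⟩ := h'
  refine ⟨B * B', fun x => ?_, fun y => ?_⟩
  · rw [h3, h1]
    congr 1
    change B.1.det • (B.1 *ᵥ (B'.1.det • (B'.1 *ᵥ x))) = (B.1 * B'.1).det • ((B.1 * B'.1) *ᵥ x)
    rw [mulVec_smul, mulVec_mulVec, smul_smul, det_mul]
  · rw [h4, h2, _root_.mul_inv_rev]
    congr 1
    change (B⁻¹).1.det • (((B'⁻¹).1.det • (y ᵥ* (B'⁻¹).1)) ᵥ* (B⁻¹).1) =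
      ((B'⁻¹).1 * (B⁻¹).1).det • (y ᵥ* ((B'⁻¹).1 * (B⁻¹).1))
    rw [smul_vecMul, vecMul_vecMul, smul_smul, det_mul, mul_comm (B⁻¹).1.det]

/-- transvections as elements of the general linear group -/
def tv (i j : ι) (h : i ≠ j) (c : K) : GL ι K where
  val := transvection i j c
  inv := transvection i j (-c)
  val_inv := by rw [transvection_mul_transvection_same _ _ h, add_neg_cancel, transvection_zero]
  inv_val := by rw [transvection_mul_transvection_same _ _ h, neg_add_cancel, transvection_zero]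

theorem tv_mulVec (i j : ι) (c : K) (x : ι → K) :
    transvection i j c *ᵥ x = x + Pi.single i (c * x j) := by
  rw [transvection, add_mulVec, one_mulVec, single_mulVec]
  congr 1

theorem tv_vecMul (i j : ι) (c : K) (y : ι → K) :
    y ᵥ* transvection i j c = y + Pi.single j (c * y i) := by
  rw [← mulVec_transpose, transvection, transpose_add, transpose_one, transpose_single, add_mulVec,
    one_mulVec, single_mulVec]
  congr 1

theorem Reach.move {i j : ι} (h : i ≠ j) (c : K) (κ μ : ι → (K →ₗ[ZMod l] ZMod l)) :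
    Reach (κ, μ) (κ + Pi.single j (tw (κ i) c), μ - Pi.single i (tw (μ j) c)) := by
  refine ⟨tv i j h c, fun x => ?_, fun y => ?_⟩
  · change FF (κ + Pi.single j (tw (κ i) c)) x =
      FF κ ((transvection i j c).det • (transvection i j c *ᵥ x))
    rw [det_transvection_of_ne _ _ h, one_smul, tv_mulVec, map_add, FF_e, FF_add, FF_single,
      tw_apply]
  · change FF (μ - Pi.single i (tw (μ j) c)) y =
      FF μ ((transvection i j (-c)).det • (y ᵥ* transvection i j (-c)))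
    rw [det_transvection_of_ne _ _ h, one_smul, tv_vecMul, map_add, FF_e, FF_sub, FF_single,
      tw_apply, neg_mul, map_neg, sub_eq_add_neg]

theorem Reach.scale (a : Kˣ) (κ μ : ι → (K →ₗ[ZMod l] ZMod l)) :
    Reach (κ, μ) (fun j => tw (κ j) ((a : K) ^ (Fintype.card ι + 1)),
      fun j => tw (μ j) (((a : K) ^ (Fintype.card ι + 1))⁻¹)) := by
  have h1 : ∀ (b : Kˣ) (x : ι → K), au l (zz ι b) x = (b : K) ^ (Fintype.card ι + 1) • x := by
    intro b x
    change (zz ι b).1.det • ((zz ι b).1 *ᵥ x) = _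
    rw [zz_det, zz_val, smul_mulVec, one_mulVec, smul_smul, pow_succ]
  have h2 : ∀ (b : Kˣ) (x : ι → K), av l (zz ι b) x = (b : K) ^ (Fintype.card ι + 1) • x := by
    intro b x
    change (zz ι b).1.det • (x ᵥ* (zz ι b).1) = _
    rw [zz_det, zz_val, vecMul_smul, vecMul_one, smul_smul, pow_succ]
  have h3 : (zz ι a)⁻¹ = zz ι a⁻¹ := by
    rw [inv_eq_iff_mul_eq_one, ← zz_mul, mul_inv_cancel, zz_one]
  refine ⟨zz ι a, fun x => ?_, fun y => ?_⟩
  · rw [h1, FF_apply, FF_apply]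
    rfl
  · rw [h3, h2, FF_apply, FF_apply]
    refine Finset.sum_congr rfl fun j _ => ?_
    rw [tw_apply]
    congr 1
    simp

end Fam

end M

end H36Aug
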