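import Pool.Agent.Helper36.Aug.Density

/-!
Density of the orbits of the Levi subgroup on pairs of nonzero functionals: the theorem.
-/

set_option autoImplicit false

namespace H36Aug

namespace M

open Filter Matrix

variable {ι K : Type*} [Fintype ι] [DecidableEq ι] [Field K] {l : ℕ} [Fact l.Prime]
  [Algebra (ZMod l) K]

theorem neg_mem_ratios [DecidableEq K] {S : Finset K} {r : K} (h : r ∈ ratios (l := l) S) :
    -r ∈ ratios (l := l) S := by
  obtain ⟨⟨a, b⟩, hp, rfl⟩ := Finset.mem_image.1 h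
  rw [Finset.mem_product] at hp
  refine Finset.mem_image.2 ⟨(-a, b), Finset.mem_product.2 ⟨H36Aug.V_neg hp.1, hp.2⟩, ?_⟩
  simp [neg_div]

theorem zero_mem_ratios [DecidableEq K] (S : Finset K) : (0 : K) ∈ ratios (l := l) S :=
  Finset.mem_image.2 ⟨(0, 0), Finset.mem_product.2 ⟨H36Aug.V_zero S, H36Aug.V_zero S⟩, by simp⟩

theorem one [Infinite K] [DecidableEq K] (S : Finset K) {κ : K →ₗ[ZMod l] ZMod l} (hκ : κ ≠ 0)
    (τ : K →ₗ[ZMod l] ZMod l) : ∃ c : K, ∀ s ∈ S, κ (c * s) = τ s := by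
  obtain ⟨c0, hc0⟩ := Infinite.exists_notMem_finset (ratios (l := l) S)
  obtain ⟨c, -, hc, -⟩ := two S hκ (κ' := tw κ c0) (fun r hr h => hc0 (tw_inj hκ h ▸ hr)) τ 0
    (Set.finite_empty)
  exact ⟨c, hc⟩

theorem stage0a {κ μ : ι → (K →ₗ[ZMod l] ZMod l)} (hκ : κ ≠ 0) (hμ : μ ≠ 0) (i1 : ι) :
    ∃ κ' μ', Reach (κ, μ) (κ', μ') ∧ κ' i1 ≠ 0 ∧ μ' ≠ 0 := by
  by_cases h1 : κ i1 = 0
  · obtain ⟨k, hk⟩ : ∃ k, κ k ≠ 0 := by
      by_contra hno
      push Not at hno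
      exact hκ (funext hno)
    have hk1 : k ≠ i1 := fun h => hk (h ▸ h1)
    refine ⟨_, _, Reach.move hk1 1 κ μ, ?_, ?_⟩
    · rw [Pi.add_apply, Pi.single_eq_same, h1, zero_add, tw_one]
      exact hk
    · intro h
      have h2 : μ i1 = 0 := by
        have := congrFun h i1
        rw [Pi.sub_apply, Pi.single_eq_of_ne (Ne.symm hk1), sub_zero] at this
        exact this
      rw [h2, tw_one, Pi.single_zero, sub_zero] at h
      exact hμ h
  · exact ⟨κ, μ, Reach.refl _, h1, hμ⟩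

theorem stage0b [Infinite K] {κ μ : ι → (K →ₗ[ZMod l] ZMod l)} {i1 i2 : ι} (hκ : κ i1 ≠ 0)
    (hμ : μ ≠ 0) : ∃ κ' μ', Reach (κ, μ) (κ', μ') ∧ κ' i1 ≠ 0 ∧ μ' i2 ≠ 0 := by
  by_cases h1 : μ i2 = 0
  · obtain ⟨k, hk⟩ : ∃ k, μ k ≠ 0 := by
      by_contra hno
      push Not at hno
      exact hμ (funext hno)
    have hk2 : i2 ≠ k := fun h => hk (h ▸ h1)
    have hbad : ({0} ∪ {c : K | κ i1 + tw (κ i2) c = 0} : Set K).Finite := by
      refine (Set.finite_singleton 0).union ?_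
      by_cases h2 : κ i2 = 0
      · refine Set.finite_empty.subset ?_
        intro c hc
        apply hκ
        have hc' : κ i1 + tw (κ i2) c = 0 := hc
        rw [h2] at hc'
        rw [← hc']
        ext x
        simp [tw_apply]
      · refine (one_bad (-κ i1) h2).subset ?_
        intro c hc
        exact eq_neg_of_add_eq_zero_right hc
    obtain ⟨c, hc⟩ := hbad.exists_notMem
    simp only [Set.mem_union, Set.mem_singleton_iff, not_or] at hc
    refine ⟨_, _, Reach.move hk2 c κ μ, ?_, ?_⟩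
    · by_cases hk1 : k = i1
      · subst hk1
        rw [Pi.add_apply, Pi.single_eq_same]
        exact hc.2
      · rw [Pi.add_apply, Pi.single_eq_of_ne (Ne.symm hk1), add_zero]
        exact hκ
    · rw [Pi.sub_apply, Pi.single_eq_same, h1, zero_sub, neg_ne_zero]
      exact tw_ne hk hc.1
  · exact ⟨κ, μ, Reach.refl _, hκ, h1⟩

theorem stageZ [Infinite K] [DecidableEq K] (S : Finset K) {κ μ : ι → (K →ₗ[ZMod l] ZMod l)}
    {i1 i2 : ι} (hκ : κ i1 ≠ 0) (hμ : μ i2 ≠ 0) :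
    ∃ κ' μ', Reach (κ, μ) (κ', μ') ∧ κ' i1 ≠ 0 ∧ ∀ r ∈ ratios (l := l) S, μ' i2 ≠ tw (κ' i1) r := by
  set n := Fintype.card ι + 1 with hn
  have hn0 : n ≠ 0 := by omega
  have h0 : ∀ᶠ a : K in cofinite, a ≠ 0 := by
    rw [Filter.eventually_cofinite]
    refine (Set.finite_singleton (0 : K)).subset ?_
    intro s hs
    simpa using hs
  have h1 : ∀ᶠ a : K in cofinite, ∀ r ∈ ratios (l := l) S, tw (κ i1) (a ^ (2 * n) * r) ≠ μ i2 := by
    rw [Filter.eventually_all_finset]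
    intro r _
    rw [Filter.eventually_cofinite]
    by_cases hex : ∃ a0, tw (κ i1) (a0 ^ (2 * n) * r) = μ i2
    · obtain ⟨a0, ha0⟩ := hex
      have hr : r ≠ 0 := by
        intro h
        rw [h, mul_zero, tw_zero] at ha0
        exact hμ ha0.symm
      let p : Polynomial K := Polynomial.X ^ (2 * n) - Polynomial.C (a0 ^ (2 * n))
      have hp : p ≠ 0 := Polynomial.X_pow_sub_C_ne_zero (by omega) _
      refine (Polynomial.finite_setOfPred_isRoot hp).subset ?_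
      intro a ha
      simp only [Set.mem_ofPred_eq, ne_eq, not_not] at ha
      have h2 := tw_inj hκ (ha.trans ha0.symm)
      have h3 := mul_right_cancel₀ hr h2
      simp [p, h3]
    · push Not at hex
      refine Set.finite_empty.subset ?_
      intro a ha
      exact ha (hex a)
  obtain ⟨a0, ha0, ha⟩ := (h0.and h1).exists
  let a : Kˣ := Units.mk0 a0 ha0
  have hc : a0 ^ n ≠ 0 := pow_ne_zero _ ha0
  refine ⟨_, _, Reach.scale a κ μ, ?_, ?_⟩
  · exact tw_ne hκ hc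
  · intro r hr h
    apply ha r hr
    have h2 : tw (tw (μ i2) (a0 ^ n)⁻¹) (a0 ^ n) = tw (tw (tw (κ i1) (a0 ^ n)) r) (a0 ^ n) := by
      rw [← show tw (μ i2) (a0 ^ n)⁻¹ = tw (tw (κ i1) (a0 ^ n)) r from h]
    rw [tw_tw, tw_tw, tw_tw, inv_mul_cancel₀ hc, tw_one] at h2
    rw [h2]
    congr 1
    ring

theorem stage1 [Infinite K] [DecidableEq K] (S : Finset K) (κ0 μ0 : ι → (K →ₗ[ZMod l] ZMod l))
    {κ μ : ι → (K →ₗ[ZMod l] ZMod l)} {i1 i2 : ι} (h12 : i1 ≠ i2) (hκ : κ i1 ≠ 0) (hμ : μ i2 ≠ 0)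
    (J : Finset ι) (h1 : i1 ∉ J) (h2 : i2 ∉ J) :
    ∃ κ' μ', Reach (κ, μ) (κ', μ') ∧ κ' i1 = κ i1 ∧ μ' i2 = μ i2 ∧
      (∀ j ∈ J, ∀ s ∈ S, κ' j s = κ0 j s) ∧ ∀ j ∈ J, ∀ s ∈ S, μ' j s = μ0 j s := by
  induction J using Finset.induction_on with
  | empty => exact ⟨κ, μ, Reach.refl _, rfl, rfl, by simp, by simp⟩
  | insert j J hj ih =>
    rw [Finset.mem_insert, not_or] at h1 h2
    obtain ⟨κ', μ', hr, e1, e2, k1, k2⟩ := ih h1.2 h2.2
    obtain ⟨c, hc⟩ := one S (κ := κ' i1) (by rw [e1]; exact hκ) (κ0 j - κ' j)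
    let κ2 := κ' + Pi.single j (tw (κ' i1) c)
    let μ2 := μ' - Pi.single i1 (tw (μ' j) c)
    have hr2 : Reach (κ', μ') (κ2, μ2) := Reach.move h1.1 c κ' μ'
    have hμ2 : μ2 i2 = μ i2 := by
      simp only [μ2, Pi.sub_apply]
      rw [Pi.single_eq_of_ne (Ne.symm h12), sub_zero, e2]
    obtain ⟨d, hd⟩ := one S (κ := μ2 i2) (by rw [hμ2]; exact hμ) (μ2 j - μ0 j)
    let κ3 := κ2 + Pi.single i2 (tw (κ2 j) d)
    let μ3 := μ2 - Pi.single j (tw (μ2 i2) d)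
    have hr3 : Reach (κ2, μ2) (κ3, μ3) := Reach.move (Ne.symm h2.1) d κ2 μ2
    refine ⟨κ3, μ3, hr.trans (hr2.trans hr3), ?_, ?_, ?_, ?_⟩
    · simp only [κ3, κ2, Pi.add_apply]
      rw [Pi.single_eq_of_ne h1.1, Pi.single_eq_of_ne h12, add_zero, add_zero, e1]
    · simp only [μ3, Pi.sub_apply]
      rw [Pi.single_eq_of_ne h2.1, sub_zero]
      exact hμ2
    · intro j' hj' s hs
      have hj2 : j' ≠ i2 := by
        rintro rfl
        rcases Finset.mem_insert.1 hj' with h | h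
        · exact h2.1 h
        · exact h2.2 h
      simp only [κ3, κ2, Pi.add_apply]
      rw [Pi.single_eq_of_ne hj2, add_zero]
      by_cases hjj : j' = j
      · subst hjj
        rw [Pi.single_eq_same, LinearMap.add_apply, tw_apply, hc s hs, LinearMap.sub_apply]
        ring
      · rw [Pi.single_eq_of_ne hjj, add_zero]
        exact k1 j' (Finset.mem_of_mem_insert_of_ne hj' hjj) s hs
    · intro j' hj' s hs
      have hj1 : j' ≠ i1 := by
        rintro rfl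
        rcases Finset.mem_insert.1 hj' with h | h
        · exact h1.1 h
        · exact h1.2 h
      by_cases hjj : j' = j
      · subst hjj
        simp only [μ3, Pi.sub_apply]
        rw [Pi.single_eq_same, LinearMap.sub_apply, tw_apply, hd s hs, LinearMap.sub_apply]
        ring
      · simp only [μ3, μ2, Pi.sub_apply]
        rw [Pi.single_eq_of_ne hjj, Pi.single_eq_of_ne hj1, sub_zero, sub_zero]
        exact k2 j' (Finset.mem_of_mem_insert_of_ne hj' hjj) s hs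

theorem stage2 [Infinite K] [DecidableEq K] (S : Finset K) (κ0 μ0 : ι → (K →ₗ[ZMod l] ZMod l))
    {κ μ : ι → (K →ₗ[ZMod l] ZMod l)} {i1 i2 : ι} (h12 : i1 ≠ i2) (hκ : κ i1 ≠ 0)
    (hR : ∀ r ∈ ratios (l := l) S, μ i2 ≠ tw (κ i1) r)
    (k1 : ∀ j, j ≠ i1 → j ≠ i2 → ∀ s ∈ S, κ j s = κ0 j s)
    (k2 : ∀ j, j ≠ i1 → j ≠ i2 → ∀ s ∈ S, μ j s = μ0 j s) :
    ∃ κ' μ', Reach (κ, μ) (κ', μ') ∧ (∀ j, ∀ s ∈ S, κ' j s = κ0 j s) ∧
      ∀ j, ∀ s ∈ S, μ' j s = μ0 j s := by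
  have hbad : ({c : K | tw (κ i1) c = -κ i2} ∪ ⋃ r ∈ ratios (l := l) S,
      {c : K | tw (μ i2 + tw (κ i1) r) c = μ i1 - tw (κ i2) r}).Finite := by
    refine (one_bad _ hκ).union ?_
    refine Set.Finite.biUnion (Finset.finite_toSet _) fun r hr => one_bad _ ?_
    intro h
    apply hR (-r) (neg_mem_ratios hr)
    rw [eq_neg_of_add_eq_zero_left h]
    ext x
    simp [tw_apply]
  obtain ⟨c, hcb, hc1, hc2⟩ := two S hκ hR (κ0 i2 - κ i2) (μ i1 - μ0 i1) hbad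
  simp only [Set.mem_union, not_or, Set.mem_iUnion, not_exists] at hcb
  let κ2 := κ + Pi.single i2 (tw (κ i1) c)
  let μ2 := μ - Pi.single i1 (tw (μ i2) c)
  have hr2 : Reach (κ, μ) (κ2, μ2) := Reach.move h12 c κ μ
  have e1 : κ2 i2 = κ i2 + tw (κ i1) c := by
    simp only [κ2, Pi.add_apply]
    rw [Pi.single_eq_same]
  have e2 : μ2 i1 = μ i1 - tw (μ i2) c := by
    simp only [μ2, Pi.sub_apply]
    rw [Pi.single_eq_same]
  have e3 : κ2 i1 = κ i1 := by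
    simp only [κ2, Pi.add_apply]
    rw [Pi.single_eq_of_ne h12, add_zero]
  have e4 : μ2 i2 = μ i2 := by
    simp only [μ2, Pi.sub_apply]
    rw [Pi.single_eq_of_ne (Ne.symm h12), sub_zero]
  have hκ2 : κ2 i2 ≠ 0 := by
    rw [e1]
    intro h
    exact hcb.1 (eq_neg_of_add_eq_zero_right h)
  have hR2 : ∀ r ∈ ratios (l := l) S, μ2 i1 ≠ tw (κ2 i2) r := by
    intro r hr h
    apply hcb.2 r hr
    rw [e1, e2] at h
    change tw (μ i2 + tw (κ i1) r) c = μ i1 - tw (κ i2) r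
    ext x
    have h3 := LinearMap.congr_fun h x
    simp only [LinearMap.sub_apply, tw_apply, LinearMap.add_apply] at h3 ⊢
    have e : r * (c * x) = c * (r * x) := by ring
    rw [e]
    linear_combination -h3
  obtain ⟨d, -, hd1, hd2⟩ := two S hκ2 hR2 (κ0 i1 - κ2 i1) (μ2 i2 - μ0 i2) (Set.finite_empty)
  let κ3 := κ2 + Pi.single i1 (tw (κ2 i2) d)
  let μ3 := μ2 - Pi.single i2 (tw (μ2 i1) d)
  have hr3 : Reach (κ2, μ2) (κ3, μ3) := Reach.move (Ne.symm h12) d κ2 μ2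
  refine ⟨κ3, μ3, hr2.trans hr3, ?_, ?_⟩
  · intro j s hs
    by_cases hj1 : j = i1
    · subst hj1
      simp only [κ3, Pi.add_apply]
      rw [Pi.single_eq_same, LinearMap.add_apply, tw_apply, hd1 s hs, LinearMap.sub_apply]
      ring
    · simp only [κ3, Pi.add_apply]
      rw [Pi.single_eq_of_ne hj1, add_zero]
      by_cases hj2 : j = i2
      · subst hj2
        rw [e1, LinearMap.add_apply, tw_apply, hc1 s hs, LinearMap.sub_apply]
        ring
      · simp only [κ2, Pi.add_apply]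
        rw [Pi.single_eq_of_ne hj2, add_zero]
        exact k1 j hj1 hj2 s hs
  · intro j s hs
    by_cases hj2 : j = i2
    · subst hj2
      simp only [μ3, Pi.sub_apply]
      rw [Pi.single_eq_same, LinearMap.sub_apply, tw_apply, hd2 s hs, LinearMap.sub_apply]
      ring
    · simp only [μ3, Pi.sub_apply]
      rw [Pi.single_eq_of_ne hj2, sub_zero]
      by_cases hj1 : j = i1
      · subst hj1
        rw [e2, LinearMap.sub_apply, tw_apply, hc2 s hs, LinearMap.sub_apply]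
        ring
      · simp only [μ2, Pi.sub_apply]
        rw [Pi.single_eq_of_ne hj1, sub_zero]
        exact k2 j hj1 hj2 s hs

theorem density_fam [Infinite K] [Nontrivial ι] (S : Finset K)
    (κ0 μ0 : ι → (K →ₗ[ZMod l] ZMod l)) {κ μ : ι → (K →ₗ[ZMod l] ZMod l)} (hκ : κ ≠ 0)
    (hμ : μ ≠ 0) :
    ∃ κ' μ', Reach (κ, μ) (κ', μ') ∧ (∀ j, ∀ s ∈ S, κ' j s = κ0 j s) ∧
      ∀ j, ∀ s ∈ S, μ' j s = μ0 j s := by
  classical
  obtain ⟨i1, i2, h12⟩ := exists_pair_ne ι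
  obtain ⟨κ1, μ1, r1, a1, b1⟩ := stage0a hκ hμ i1
  obtain ⟨κ2, μ2, r2, a2, b2⟩ := stage0b (i2 := i2) a1 b1
  obtain ⟨κ3, μ3, r3, a3, b3⟩ := stageZ S a2 b2
  have b3' : μ3 i2 ≠ 0 := by
    have := b3 0 (zero_mem_ratios S)
    rwa [tw_zero] at this
  obtain ⟨κ4, μ4, r4, a4, b4, c4, d4⟩ := stage1 S κ0 μ0 h12 a3 b3'
    (Finset.univ \ {i1, i2}) (by simp) (by simp)
  obtain ⟨κ5, μ5, r5, c5, d5⟩ := stage2 S κ0 μ0 h12 (κ := κ4) (μ := μ4) (by rw [a4]; exact a3)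
    (by rw [a4, b4]; exact b3) (fun j hj1 hj2 => c4 j (by simp [hj1, hj2]))
    (fun j hj1 hj2 => d4 j (by simp [hj1, hj2]))
  exact ⟨κ5, μ5, r1.trans (r2.trans (r3.trans (r4.trans r5))), c5, d5⟩

/-- **Density of orbits.** -/
theorem density [Infinite K] [Nontrivial ι] (S S' : Finset (ι → K))
    (χ0 χ0' : (ι → K) →ₗ[ZMod l] ZMod l) {χ χ' : (ι → K) →ₗ[ZMod l] ZMod l} (hχ : χ ≠ 0)
    (hχ' : χ' ≠ 0) :
    ∃ B : GL ι K, (∀ x ∈ S, χ (au l B x) = χ0 x) ∧ ∀ y ∈ S', χ' (av l B⁻¹ y) = χ0' y := by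
  classical
  obtain ⟨κ, rfl⟩ := exists_FF χ
  obtain ⟨μ, rfl⟩ := exists_FF χ'
  obtain ⟨κ0, rfl⟩ := exists_FF χ0
  obtain ⟨μ0, rfl⟩ := exists_FF χ0'
  have hκ : κ ≠ 0 := by
    rintro rfl
    apply hχ
    ext x
    simp [FF_apply]
  have hμ : μ ≠ 0 := by
    rintro rfl
    apply hχ'
    ext x
    simp [FF_apply]
  obtain ⟨κ', μ', ⟨B, hB1, hB2⟩, h1, h2⟩ := density_fam
    ((S ∪ S').biUnion (fun x => Finset.univ.image x)) κ0 μ0 hκ hμ
  have hmem : ∀ x ∈ S ∪ S', ∀ j, x j ∈ (S ∪ S').biUnion (fun x => Finset.univ.image x) :=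
    fun x hx j => Finset.mem_biUnion.2 ⟨x, hx, Finset.mem_image.2 ⟨j, Finset.mem_univ _, rfl⟩⟩
  refine ⟨B, fun x hx => ?_, fun y hy => ?_⟩
  · rw [← hB1]
    rw [FF_apply, FF_apply]
    exact Finset.sum_congr rfl fun j _ => h1 j _ (hmem x (Finset.mem_union_left _ hx) j)
  · rw [← hB2]
    rw [FF_apply, FF_apply]
    exact Finset.sum_congr rfl fun j _ => h2 j _ (hmem y (Finset.mem_union_right _ hy) j)

end M

end H36Aug
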