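import Pool.Agent.Helper36.Aug.Sharp

/-!
The dichotomy: the ideal of the group algebra of the torus is everything, or all its elements have
coefficient sum zero on every class modulo sign.
-/

set_option autoImplicit false

namespace H36Aug

open Filter

section B

variable {K : Type*} [Field K] {l : ℕ} [Fact l.Prime] [Algebra (ZMod l) K]
  {W : Submodule (ZMod l) K}

/-- a nonzero difference of squares can be cancelled modulo `W` -/
theorem cancel (hW : ∀ c : K, ∀ y ∈ W, c ^ 2 * y ∈ W) {p q y : K} (hpq : p ^ 2 - q ^ 2 ≠ 0)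
    (h : (p ^ 2 - q ^ 2) * y ∈ W) : y ∈ W := by
  let Q := multField W.toAddSubgroup hW
  have h1 : p ^ 2 - q ^ 2 ∈ Q := Q.sub_mem (fun y hy => hW p y hy) (fun y hy => hW q y hy)
  have h2 : (p ^ 2 - q ^ 2)⁻¹ ∈ Q := Q.inv_mem h1
  have h3 := h2 _ h
  have e : (p ^ 2 - q ^ 2)⁻¹ * ((p ^ 2 - q ^ 2) * y) = y := by
    rw [← mul_assoc, inv_mul_cancel₀ hpq, one_mul]
  rw [e] at h3
  exact h3

theorem cancel_sq (hW : ∀ c : K, ∀ y ∈ W, c ^ 2 * y ∈ W) {p y : K} (hp : p ≠ 0)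
    (h : p ^ 2 * y ∈ W) : y ∈ W := by
  refine cancel hW (p := p) (q := 0) ?_ ?_
  · simpa using hp
  · simpa using h

theorem exists_b [Infinite K] (hW : ∀ c : K, ∀ y ∈ W, c ^ 2 * y ∈ W) (hWt : W ≠ ⊤)
    [DecidableEq K] (S : Finset K) (Z : Finset Kˣ) (t0 : Kˣ) :
    ∃ b : K, b ∉ V l S ∧ (∀ a ∈ V l (insert b S) \ V l S, a ≠ b → a⁻¹ - b⁻¹ ∉ W) ∧
      ∀ t ∈ Z, t ^ 2 ≠ t0 ^ 2 → ∀ d ∈ V l S,
        ((t : K) ^ 2 * b)⁻¹ - ((t0 : K) ^ 2 * b)⁻¹ - d ∉ W := by
  obtain ⟨b0, hb0⟩ : ∃ b0, b0 ∉ W := by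
    by_contra h
    push Not at h
    exact hWt (Submodule.eq_top_iff'.2 h)
  have hb00 : b0 ≠ 0 := fun h => hb0 (h ▸ W.zero_mem)
  have g0 : ∀ᶠ s : K in cofinite, s ≠ 0 := by
    rw [Filter.eventually_cofinite]
    refine (Set.finite_singleton (0 : K)).subset ?_
    intro s hs
    simpa using hs
  have g1 : ∀ᶠ s : K in cofinite, ∀ f ∈ V l S, s ^ 2 * b0 ≠ f := by
    rw [Filter.eventually_all_finset]
    intro f _
    have := gen (W := W.toAddSubgroup) (v0 := -f) (v1 := b0) (v2 := 0) (v3 := 0) hW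
      (fun h => hb0 h.2.1)
    refine this.mono fun s hs he => hs ?_
    rw [he]
    simp
  have g2 : ∀ᶠ s : K in cofinite, ∀ f ∈ V l S, ∀ c ∈ (Finset.univ : Finset (ZMod l)),
      ¬ (c = 0 ∨ (c = 1 ∧ f = 0)) →
      (c • (s ^ 2 * b0) + f) * (s ^ 2 * b0) * (s ^ 2 * b0 - (c • (s ^ 2 * b0) + f)) ∉ W := by
    rw [Filter.eventually_all_finset]
    intro f _
    rw [Filter.eventually_all_finset]
    intro c _
    by_cases hn : c = 0 ∨ (c = 1 ∧ f = 0)
    · exact Filter.Eventually.of_forall fun s hs => absurd hn hs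
    · have := gen (W := W.toAddSubgroup) (v0 := 0) (v1 := -(f ^ 2 * b0))
        (v2 := (1 - 2 * c) • (f * b0 ^ 2)) (v3 := (c * (1 - c)) • (b0 ^ 2 * b0)) hW (by
          rintro ⟨-, h1, -, h3⟩
          have hf : f = 0 := by
            by_contra hf
            have h1' : f ^ 2 * b0 ∈ W := by
              have := W.neg_mem h1
              simpa using this
            exact hb0 (cancel_sq hW hf h1')
          have hc : c * (1 - c) ≠ 0 := by
            intro h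
            rcases mul_eq_zero.1 h with h | h
            · exact hn (Or.inl h)
            · exact hn (Or.inr ⟨(sub_eq_zero.1 h).symm, hf⟩)
          have h3' : b0 ^ 2 * b0 ∈ W := (W.smul_mem_iff hc).1 h3
          exact hb0 (cancel_sq hW hb00 h3'))
      refine this.mono fun s hs _ => ?_
      have e : (c • (s ^ 2 * b0) + f) * (s ^ 2 * b0) * (s ^ 2 * b0 - (c • (s ^ 2 * b0) + f)) =
          0 + s ^ 2 * -(f ^ 2 * b0) + s ^ 4 * ((1 - 2 * c) • (f * b0 ^ 2)) +
            s ^ 6 * ((c * (1 - c)) • (b0 ^ 2 * b0)) := by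
        simp only [Algebra.smul_def, map_mul, map_sub, map_one, map_ofNat]
        ring
      rw [e]
      exact hs
  have g3 : ∀ᶠ s : K in cofinite, ∀ t ∈ Z, ∀ d ∈ V l S, t ^ 2 ≠ t0 ^ 2 →
      (((t : K) ^ 2)⁻¹ - ((t0 : K) ^ 2)⁻¹) * b0⁻¹ + s ^ 2 * (-d) ∉ W := by
    rw [Filter.eventually_all_finset]
    intro t _
    rw [Filter.eventually_all_finset]
    intro d _
    by_cases hn : t ^ 2 = t0 ^ 2
    · exact Filter.Eventually.of_forall fun s hs => absurd hn hs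
    · have := gen (W := W.toAddSubgroup) (v0 := (((t : K) ^ 2)⁻¹ - ((t0 : K) ^ 2)⁻¹) * b0⁻¹)
        (v1 := -d) (v2 := 0) (v3 := 0) hW (by
          rintro ⟨h0, -⟩
          have h0' : (((t : K)⁻¹) ^ 2 - ((t0 : K)⁻¹) ^ 2) * b0⁻¹ ∈ W := by
            simpa [inv_pow] using h0
          have hne : ((t : K)⁻¹) ^ 2 - ((t0 : K)⁻¹) ^ 2 ≠ 0 := by
            intro h
            apply hn
            have h4 : ((t : K) ^ 2)⁻¹ = ((t0 : K) ^ 2)⁻¹ := by
              simpa [inv_pow] using sub_eq_zero.1 h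
            have h5 := inv_injective h4
            exact Units.ext (by push_cast; exact h5)
          have h6 := cancel hW hne h0'
          have h7 : b0 ^ 2 * b0⁻¹ = b0 := by field_simp
          exact hb0 (h7 ▸ hW b0 _ h6))
      refine this.mono fun s hs _ => ?_
      simpa using hs
  obtain ⟨s, ⟨⟨h0, h1⟩, h2⟩, h3⟩ := (((g0.and g1).and g2).and g3).exists
  have hb : s ^ 2 * b0 ≠ 0 := mul_ne_zero (pow_ne_zero _ h0) hb00
  have hbS : s ^ 2 * b0 ∉ V l S := fun h => h1 _ h rfl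
  refine ⟨s ^ 2 * b0, hbS, ?_, ?_⟩
  · intro a ha hab hmem
    rw [Finset.mem_sdiff] at ha
    have ha1 := mem_V.1 ha.1
    rw [Finset.coe_insert, Submodule.mem_span_insert] at ha1
    obtain ⟨c, f, hf, rfl⟩ := ha1
    have hfV : f ∈ V l S := mem_V.2 hf
    have ha0 : c • (s ^ 2 * b0) + f ≠ 0 := fun h => ha.2 (h ▸ V_zero S)
    refine h2 f hfV c (Finset.mem_univ _) ?_ ?_
    · rintro (hc | ⟨hc, hf0⟩)
      · apply ha.2
        rw [hc, zero_smul, zero_add]
        exact hfV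
      · apply hab
        rw [hc, hf0, one_smul, add_zero]
    · have := hW ((c • (s ^ 2 * b0) + f) * (s ^ 2 * b0)) _ hmem
      have e : ((c • (s ^ 2 * b0) + f) * (s ^ 2 * b0)) ^ 2 *
          ((c • (s ^ 2 * b0) + f)⁻¹ - (s ^ 2 * b0)⁻¹) =
          (c • (s ^ 2 * b0) + f) * (s ^ 2 * b0) * (s ^ 2 * b0 - (c • (s ^ 2 * b0) + f)) := by
        generalize c • (s ^ 2 * b0) + f = a at *
        generalize s ^ 2 * b0 = b at *
        field_simp
      rwa [e] at this
  · intro t ht htt d hd hmem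
    refine h3 t ht d hd htt ?_
    have := hW s _ hmem
    have e : s ^ 2 * (((t : K) ^ 2 * (s ^ 2 * b0))⁻¹ - ((t0 : K) ^ 2 * (s ^ 2 * b0))⁻¹ - d) =
        (((t : K) ^ 2)⁻¹ - ((t0 : K) ^ 2)⁻¹) * b0⁻¹ + s ^ 2 * (-d) := by
      have ht0 : (t : K) ≠ 0 := t.ne_zero
      have ht1 : (t0 : K) ≠ 0 := t0.ne_zero
      field_simp
      ring
    rwa [e] at this

end B

section Main

variable {K P A : Type*} [Field K] [Field P] [Ring A] [Algebra P A] {l : ℕ} [Fact l.Prime]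
  [Algebra (ZMod l) K] {R : Rel K A} {ε : AddChar (ZMod l) P} {W : Submodule (ZMod l) K}

open Classical in
/-- sum of the coefficients over a class modulo sign -/
noncomputable def cls (t0 : Kˣ) (C : MonoidAlgebra P Kˣ) : P :=
  ∑ t ∈ C.coeff.support with t ^ 2 = t0 ^ 2, C.coeff t

/-- pairs of functionals -/
def GG (W : Submodule (ZMod l) K) (S : Finset K) :
    AddSubgroup ((K →ₗ[ZMod l] ZMod l) × (K →ₗ[ZMod l] ZMod l)) where
  carrier := {p | (∀ x ∈ S, p.1 x = 0) ∧ (∀ y ∈ W, p.1 y = 0) ∧ ∀ y ∈ W, p.2 y = 0}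
  add_mem' := by
    rintro p q ⟨h1, h2, h3⟩ ⟨k1, k2, k3⟩
    refine ⟨fun x hx => ?_, fun y hy => ?_, fun y hy => ?_⟩
    · simp [h1 x hx, k1 x hx]
    · simp [h2 y hy, k2 y hy]
    · simp [h3 y hy, k3 y hy]
  zero_mem' := by
    refine ⟨fun x hx => ?_, fun y hy => ?_, fun y hy => ?_⟩ <;> simp
  neg_mem' := by
    rintro p ⟨h1, h2, h3⟩
    refine ⟨fun x hx => ?_, fun y hy => ?_, fun y hy => ?_⟩
    · simp [h1 x hx]
    · simp [h2 y hy]
    · simp [h3 y hy]

/-- the character of the group of pairs of functionals given by two elements of `K` -/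
def ch {L : Type*} [CommRing L] (al : P →+* L) (ε : AddChar (ZMod l) P) (W : Submodule (ZMod l) K)
    (S : Finset K) (x y : K) : Multiplicative (GG W S) →* L where
  toFun g := al (ε (-(g.toAdd.1.1 x)) * ε (-(g.toAdd.1.2 y)))
  map_one' := by
    simp
  map_mul' := by
    intro g g'
    rw [← map_mul al]
    congr 1
    simp only [toAdd_mul, AddSubgroup.coe_add, Prod.fst_add, Prod.snd_add, LinearMap.add_apply,
      neg_add, AddChar.map_add_eq_mul]
    ring

theorem dich_aux [Infinite K] (hP : (l : P) ≠ 0) (hW : ∀ c : K, ∀ y ∈ W, c ^ 2 * y ∈ W)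
    (hWt : W ≠ ⊤) (hε : ∀ a : ZMod l, ε a = 1 → a = 0) {L : Type*} [CommRing L] [IsDomain L]
    (mk : MonoidAlgebra P Kˣ →+* L) (hker : ∀ x ∈ CI hP hW R ε, mk x = 0)
    {C : MonoidAlgebra P Kˣ} (hC : C ∈ CI hP hW R ε) (t0 : Kˣ) : cls t0 C = 0 := by
  classical
  let th : Kˣ →* L := (mk : MonoidAlgebra P Kˣ →* L).comp (MonoidAlgebra.of P Kˣ)
  let al : P →+* L := mk.comp (algebraMap P (MonoidAlgebra P Kˣ))
  have hmk : ∀ (t : Kˣ) (r : P), mk (MonoidAlgebra.single t r) = al r * th t := by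
    intro t r
    have e : MonoidAlgebra.single t r =
        algebraMap P (MonoidAlgebra P Kˣ) r * MonoidAlgebra.of P Kˣ t := by
      simp [MonoidAlgebra.of_apply]
    rw [e, map_mul]
    rfl
  have hal : Function.Injective al := al.injective
  have hthu : ∀ t, th t ≠ 0 := by
    intro t h
    have h1 : th (t * t⁻¹) = 0 := by rw [map_mul, h, zero_mul]
    rw [mul_inv_cancel, map_one] at h1
    exact one_ne_zero h1
  have hεu : ∀ a, ε a ≠ 0 := by
    intro a h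
    have h1 : ε (a + -a) = 0 := by rw [AddChar.map_add_eq_mul, h, zero_mul]
    rw [add_neg_cancel, AddChar.map_zero_eq_one] at h1
    exact one_ne_zero h1
  have hthn : ∀ t, th (-t) = th t := by
    intro t
    have h1 : MonoidAlgebra.single t (1 : P) - MonoidAlgebra.single (-t) 1 ∈ CI hP hW R ε := by
      rw [mem_CI, map_sub, hA_single, hA_single, R.h_neg, sub_self, mul_zero]
      exact Good.zero
    have h2 := hker _ h1
    rw [map_sub, hmk, hmk, map_one, one_mul, one_mul] at h2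
    exact (sub_eq_zero.1 h2).symm
  have hth2 : ∀ t, t ^ 2 = t0 ^ 2 → th t = th t0 := by
    intro t ht
    have h1 : (t : K) ^ 2 = (t0 : K) ^ 2 := by
      have := congrArg (fun x : Kˣ => (x : K)) ht
      simpa using this
    rcases sq_eq_sq_iff_eq_or_eq_neg.1 h1 with h | h
    · rw [Units.ext h]
    · have h2 : t = -t0 := Units.ext (by simpa using h)
      rw [h2, hthn]
  obtain ⟨S, χ, χ', hχ, hχ', h0⟩ := mem_CI.1 hC
  obtain ⟨b, hbS, hb1, hb2⟩ := exists_b hW hWt S C.coeff.support t0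
  set D := V l (insert b S) \ V l S with hD
  have hbD : b ∈ D := Finset.mem_sdiff.2 ⟨subset_V _ (Finset.mem_insert_self _ _), hbS⟩
  have hD0 : ∀ a ∈ D, a ≠ 0 := by
    intro a ha h
    rw [h] at ha
    exact (Finset.mem_sdiff.1 ha).2 (V_zero S)
  -- the relation between characters
  have hrel : ∀ g : Multiplicative (GG W S), ∑ p ∈ D ×ˢ C.coeff.support,
      (al (C.coeff p.2 * (ε (-χ' p.1) * ε (-χ ((p.2 : K) ^ 2 * p.1)⁻¹))) * th (p.2 * toU p.1)) *
        ch al ε W S ((p.2 : K) ^ 2 * p.1)⁻¹ p.1⁻¹ g = 0 := by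
    intro g
    obtain ⟨g1, g2, g3⟩ := g.toAdd.2
    have h1 := sharp_good (W := W) hP h0 b (ψ := χ + g.toAdd.1.1) (ν := g.toAdd.1.2)
      (fun x hx => by simp [g1 x hx]) (fun y hy => by simp [g2 y hy, hχ y hy]) g3
    have h2 := hker _ (mem_CI.2 h1)
    rw [← hD, sharp, map_sum] at h2
    rw [Finset.sum_product, ← h2]
    refine Finset.sum_congr rfl fun a _ => ?_
    rw [map_sum]
    refine Finset.sum_congr rfl fun t _ => ?_
    rw [hmk]
    simp only [ch, MonoidHom.coe_mk, OneHom.coe_mk, LinearMap.add_apply, neg_add,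
      AddChar.map_add_eq_mul, map_mul]
    ring
  have hded := ded (D ×ˢ C.coeff.support)
    (fun p => al (C.coeff p.2 * (ε (-χ' p.1) * ε (-χ ((p.2 : K) ^ 2 * p.1)⁻¹))) *
      th (p.2 * toU p.1))
    (fun p => ch al ε W S ((p.2 : K) ^ 2 * p.1)⁻¹ p.1⁻¹) hrel (ch al ε W S ((t0 : K) ^ 2 * b)⁻¹ b⁻¹)
  -- the class
  have hsub : ∀ x y : K, (∀ ν : K →ₗ[ZMod l] ZMod l, (∀ w ∈ W, ν w = 0) → ν x = ν y) → x - y ∈ W := by
    intro x y h
    by_contra hn
    obtain ⟨ν, hν, hν'⟩ := sep W hn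
    exact hν' (by rw [map_sub, h ν hν, sub_self])
  have hεinj : ∀ a c : ZMod l, al (ε (-a)) = al (ε (-c)) → a = c := by
    intro a c h
    have h1 := hal h
    have h2 : ε (-a - -c) = 1 := by
      rw [AddChar.map_sub_eq_div, h1, div_self (hεu _)]
    have h3 := hε _ h2
    have h4 := sub_eq_zero.1 h3
    exact neg_injective h4
  have hcl : ∀ a ∈ D, ∀ t ∈ C.coeff.support,
      ch al ε W S ((t : K) ^ 2 * a)⁻¹ a⁻¹ = ch al ε W S ((t0 : K) ^ 2 * b)⁻¹ b⁻¹ →
        a = b ∧ t ^ 2 = t0 ^ 2 := by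
    intro a ha t ht hch
    have hab : a = b := by
      by_contra hab
      refine hb1 a ha hab (hsub _ _ ?_)
      intro ν hν
      have hg : ((0 : K →ₗ[ZMod l] ZMod l), ν) ∈ GG W S := ⟨by simp, by simp, hν⟩
      have := DFunLike.congr_fun hch (Multiplicative.ofAdd (⟨_, hg⟩ : GG W S))
      simp only [ch, MonoidHom.coe_mk, OneHom.coe_mk, toAdd_ofAdd, LinearMap.zero_apply, neg_zero,
        AddChar.map_zero_eq_one, one_mul] at this
      exact hεinj _ _ this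
    subst hab
    refine ⟨rfl, ?_⟩
    by_contra htt
    have hsp : ((t : K) ^ 2 * a)⁻¹ - ((t0 : K) ^ 2 * a)⁻¹ ∉
        Submodule.span (ZMod l) (S : Set K) ⊔ W := by
      intro hmem
      obtain ⟨d, hd, w, hw, hdw⟩ := Submodule.mem_sup.1 hmem
      refine hb2 t ht htt d (mem_V.2 hd) ?_
      rw [← hdw, add_sub_cancel_left]
      exact hw
    obtain ⟨ρ, hρ, hρ'⟩ := sep _ hsp
    apply hρ'
    have hg : (ρ, (0 : K →ₗ[ZMod l] ZMod l)) ∈ GG W S :=
      ⟨fun x hx => hρ x (Submodule.mem_sup_left (Submodule.subset_span (by exact_mod_cast hx))),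
        fun y hy => hρ y (Submodule.mem_sup_right hy), by simp⟩
    have := DFunLike.congr_fun hch (Multiplicative.ofAdd (⟨_, hg⟩ : GG W S))
    simp only [ch, MonoidHom.coe_mk, OneHom.coe_mk, toAdd_ofAdd, LinearMap.zero_apply, neg_zero,
      AddChar.map_zero_eq_one, mul_one] at this
    rw [map_sub, hεinj _ _ this, sub_self]
  have hcl' : ∀ t : Kˣ, t ^ 2 = t0 ^ 2 → ((t : K) ^ 2 * b)⁻¹ = ((t0 : K) ^ 2 * b)⁻¹ := by
    intro t ht
    have h1 : (t : K) ^ 2 = (t0 : K) ^ 2 := by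
      have := congrArg (fun x : Kˣ => (x : K)) ht
      simpa using this
    rw [h1]
  have hsum : ∑ p ∈ D ×ˢ C.coeff.support with
      ch al ε W S ((p.2 : K) ^ 2 * p.1)⁻¹ p.1⁻¹ = ch al ε W S ((t0 : K) ^ 2 * b)⁻¹ b⁻¹,
      al (C.coeff p.2 * (ε (-χ' p.1) * ε (-χ ((p.2 : K) ^ 2 * p.1)⁻¹))) * th (p.2 * toU p.1) =
      ∑ t ∈ C.coeff.support with t ^ 2 = t0 ^ 2,
        al (C.coeff t) * (al (ε (-χ' b) * ε (-χ ((t0 : K) ^ 2 * b)⁻¹)) * th (t0 * toU b)) := by
    refine Finset.sum_nbij' (fun p => p.2) (fun t => (b, t)) ?_ ?_ ?_ ?_ ?_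
    · rintro ⟨a, t⟩ hp
      rw [Finset.mem_filter, Finset.mem_product] at hp
      exact Finset.mem_filter.2 ⟨hp.1.2, (hcl a hp.1.1 t hp.1.2 hp.2).2⟩
    · intro t ht
      rw [Finset.mem_filter] at ht
      refine Finset.mem_filter.2 ⟨Finset.mem_product.2 ⟨hbD, ht.1⟩, ?_⟩
      simp only
      rw [hcl' t ht.2]
    · rintro ⟨a, t⟩ hp
      rw [Finset.mem_filter, Finset.mem_product] at hp
      simp only
      rw [(hcl a hp.1.1 t hp.1.2 hp.2).1]
    · intro t _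
      rfl
    · rintro ⟨a, t⟩ hp
      rw [Finset.mem_filter, Finset.mem_product] at hp
      obtain ⟨h1, h2⟩ := hcl a hp.1.1 t hp.1.2 hp.2
      simp only
      rw [h1, hcl' t h2, map_mul th, map_mul th, hth2 t h2, map_mul al (C.coeff t)]
      ring
  rw [hsum, ← Finset.sum_mul] at hded
  have hk : al (ε (-χ' b) * ε (-χ ((t0 : K) ^ 2 * b)⁻¹)) * th (t0 * toU b) ≠ 0 := by
    refine mul_ne_zero ?_ (hthu _)
    rw [Ne, map_eq_zero]
    exact mul_ne_zero (hεu _) (hεu _)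
  have h3 := (mul_eq_zero.1 hded).resolve_right hk
  rw [← map_sum, map_eq_zero] at h3
  exact h3

theorem dich [Infinite K] (hP : (l : P) ≠ 0) (hW : ∀ c : K, ∀ y ∈ W, c ^ 2 * y ∈ W)
    (hWt : W ≠ ⊤) (hε : ∀ a : ZMod l, ε a = 1 → a = 0) (hne : CI hP hW R ε ≠ ⊤)
    {C : MonoidAlgebra P Kˣ} (hC : C ∈ CI hP hW R ε) (t0 : Kˣ) : cls t0 C = 0 := by
  obtain ⟨m, hm, hle⟩ := Ideal.exists_le_maximal _ hne
  have hmp : m.IsPrime := hm.isPrime
  have hk : ∀ x ∈ CI hP hW R ε, Ideal.Quotient.mk m x = 0 :=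
    fun x hx => Ideal.Quotient.eq_zero_iff_mem.2 (hle hx)
  have hd : IsDomain (MonoidAlgebra P Kˣ ⧸ m) := Ideal.Quotient.isDomain m
  exact dich_aux (L := MonoidAlgebra P Kˣ ⧸ m) (mk := Ideal.Quotient.mk m) hP hW hWt hε hk hC t0

end Main

end H36Aug
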