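import Mathlib

/-!
Generic elements: for an additive subgroup `W` of a field `K` that is closed under multiplication by
squares, a polynomial in `s ^ 2` with coefficients not all in `W` takes values in `W` for finitely many
`s` only.  Functionals with prescribed values.
-/

set_option autoImplicit false

namespace H36Aug

open Filter

section Gen

variable {K : Type*} [Field K]

/-- the multipliers of an additive subgroup closed under multiplication by squares form a field -/
def multField (W : AddSubgroup K) (hW : ∀ c : K, ∀ y ∈ W, c ^ 2 * y ∈ W) : Subfield K where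
  carrier := {q | ∀ y ∈ W, q * y ∈ W}
  mul_mem' := by
    intro a b ha hb y hy
    rw [mul_assoc]
    exact ha _ (hb _ hy)
  one_mem' := by
    intro y hy
    simpa using hy
  add_mem' := by
    intro a b ha hb y hy
    rw [add_mul]
    exact W.add_mem (ha _ hy) (hb _ hy)
  zero_mem' := by
    intro y _
    simp [W.zero_mem]
  neg_mem' := by
    intro a ha y hy
    rw [neg_mul]
    exact W.neg_mem (ha _ hy)
  inv_mem' := by
    intro a ha y hy
    by_cases h0 : a = 0
    · simp [h0, W.zero_mem]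
    · have h1 : a⁻¹ * y = (a⁻¹) ^ 2 * (a * y) := by
        field_simp
      rw [h1]
      exact hW _ _ (ha _ hy)

theorem gen (W : AddSubgroup K) (hW : ∀ c : K, ∀ y ∈ W, c ^ 2 * y ∈ W) {v0 v1 v2 v3 : K}
    (h : ¬ (v0 ∈ W ∧ v1 ∈ W ∧ v2 ∈ W ∧ v3 ∈ W)) :
    ∀ᶠ s : K in cofinite, v0 + s ^ 2 * v1 + s ^ 4 * v2 + s ^ 6 * v3 ∉ W := by
  classical
  let Q := multField W hW
  let W' : Submodule Q K :=
    { carrier := W
      add_mem' := fun ha hb => W.add_mem ha hb
      zero_mem' := W.zero_mem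
      smul_mem' := fun q y hy => q.2 y hy }
  have hmem : ∀ y, y ∈ W' ↔ y ∈ W := fun y => Iff.rfl
  have key : ∀ v : K, v ∉ W → ∃ f : K →ₗ[Q] Q, f v ≠ 0 ∧ ∀ y ∈ W, f y = 0 := by
    intro v hv
    obtain ⟨f, hf, hk⟩ := Submodule.exists_le_ker_of_notMem (p := W') (v := v) hv
    exact ⟨f, hf, fun y hy => by simpa using hk hy⟩
  have hsq : ∀ s : K, s ^ 2 ∈ Q := fun s y hy => hW s y hy
  have hlin : ∀ (f : K →ₗ[Q] Q) (s y : K), f (s ^ 2 * y) = (⟨s ^ 2, hsq s⟩ : Q) * f y := by
    intro f s y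
    have := f.map_smul (⟨s ^ 2, hsq s⟩ : Q) y
    simpa [Subfield.smul_def] using this
  -- it is enough to find a functional which is nonzero at one coefficient
  have main : ∀ f : K →ₗ[Q] Q, (∀ y ∈ W, f y = 0) →
      (f v0 ≠ 0 ∨ f v1 ≠ 0 ∨ f v2 ≠ 0 ∨ f v3 ≠ 0) →
      ∀ᶠ s : K in cofinite, v0 + s ^ 2 * v1 + s ^ 4 * v2 + s ^ 6 * v3 ∉ W := by
    intro f hf hne
    let p : Polynomial K := Polynomial.C (f v0 : K) + Polynomial.C (f v1 : K) * Polynomial.X ^ 2 +
      Polynomial.C (f v2 : K) * Polynomial.X ^ 4 + Polynomial.C (f v3 : K) * Polynomial.X ^ 6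
    have hp : p ≠ 0 := by
      intro h0
      have c0 : p.coeff 0 = (f v0 : K) := by simp [p, Polynomial.coeff_X_pow, Polynomial.coeff_C]
      have c2 : p.coeff 2 = (f v1 : K) := by simp [p, Polynomial.coeff_X_pow]
      have c4 : p.coeff 4 = (f v2 : K) := by simp [p, Polynomial.coeff_X_pow]
      have c6 : p.coeff 6 = (f v3 : K) := by simp [p, Polynomial.coeff_X_pow]
      rw [h0] at c0 c2 c4 c6
      simp only [Polynomial.coeff_zero] at c0 c2 c4 c6
      rcases hne with h | h | h | h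
      · exact h (by exact_mod_cast c0.symm)
      · exact h (by exact_mod_cast c2.symm)
      · exact h (by exact_mod_cast c4.symm)
      · exact h (by exact_mod_cast c6.symm)
    have hfin := Polynomial.finite_setOfPred_isRoot hp
    rw [Filter.eventually_cofinite]
    refine hfin.subset ?_
    intro s hs
    simp only [Set.mem_ofPred_eq, not_not] at hs
    have h1 := hf _ hs
    have e4 : s ^ 4 * v2 = s ^ 2 * (s ^ 2 * v2) := by ring
    have e6 : s ^ 6 * v3 = s ^ 2 * (s ^ 2 * (s ^ 2 * v3)) := by ring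
    rw [e4, e6] at h1
    simp only [map_add, hlin] at h1
    have h2 := congrArg (fun q : Q => (q : K)) h1
    simp only [Subfield.coe_add, Subfield.coe_mul, Subfield.coe_zero] at h2
    simp only [Set.mem_ofPred_eq, Polynomial.IsRoot.def, p, Polynomial.eval_add, Polynomial.eval_C,
      Polynomial.eval_mul, Polynomial.eval_pow, Polynomial.eval_X]
    rw [← h2]
    ring
  by_cases h0 : v0 ∈ W
  · by_cases h1 : v1 ∈ W
    · by_cases h2 : v2 ∈ W
      · by_cases h3 : v3 ∈ W
        · exact absurd ⟨h0, h1, h2, h3⟩ h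
        · obtain ⟨f, hf, hk⟩ := key v3 h3
          exact main f hk (Or.inr (Or.inr (Or.inr hf)))
      · obtain ⟨f, hf, hk⟩ := key v2 h2
        exact main f hk (Or.inr (Or.inr (Or.inl hf)))
    · obtain ⟨f, hf, hk⟩ := key v1 h1
      exact main f hk (Or.inr (Or.inl hf))
  · obtain ⟨f, hf, hk⟩ := key v0 h0
    exact main f hk (Or.inl hf)

end Gen

section Ext

variable {F V : Type*} [Field F] [AddCommGroup V] [Module F V]

/-- a functional with prescribed values on three subspaces and zero on a fourth one -/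
theorem ext3 (A B C W : Submodule F V) (α β γ : V →ₗ[F] F)
    (h : ∀ a ∈ A, ∀ b ∈ B, ∀ c ∈ C, a + b + c ∈ W → α a + β b + γ c = 0) :
    ∃ ψ : V →ₗ[F] F, (∀ a ∈ A, ψ a = α a) ∧ (∀ b ∈ B, ψ b = β b) ∧ (∀ c ∈ C, ψ c = γ c) ∧
      ∀ w ∈ W, ψ w = 0 := by
  let f : ((A × B) × (C × W)) →ₗ[F] V :=
    ((A.subtype.coprod B.subtype).coprod (C.subtype.coprod W.subtype))
  let g : ((A × B) × (C × W)) →ₗ[F] F :=
    (((α ∘ₗ A.subtype).coprod (β ∘ₗ B.subtype)).coprod
      ((γ ∘ₗ C.subtype).coprod (0 : W →ₗ[F] F)))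
  have hg : g ∈ LinearMap.range f.dualMap := by
    rw [LinearMap.range_dualMap_eq_dualAnnihilator_ker, Submodule.mem_dualAnnihilator]
    rintro ⟨⟨a, b⟩, ⟨c, w⟩⟩ hx
    simp only [LinearMap.mem_ker, f, LinearMap.coprod_apply, Submodule.subtype_apply] at hx
    simp only [g, LinearMap.coprod_apply, LinearMap.comp_apply, Submodule.subtype_apply,
      LinearMap.zero_apply, add_zero]
    refine h a a.2 b b.2 c c.2 ?_
    have : (a : V) + b + c = -(w : V) := by
      rw [← add_assoc] at hx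
      exact eq_neg_of_add_eq_zero_left hx
    rw [this]
    exact W.neg_mem w.2
  obtain ⟨ψ, hψ⟩ := hg
  have hψ' : ∀ x, ψ (f x) = g x := fun x => by rw [← hψ]; rfl
  refine ⟨ψ, fun a ha => ?_, fun b hb => ?_, fun c hc => ?_, fun w hw => ?_⟩
  · have := hψ' ((⟨a, ha⟩, 0), (0, 0))
    simpa [f, g] using this
  · have := hψ' ((0, ⟨b, hb⟩), (0, 0))
    simpa [f, g] using this
  · have := hψ' ((0, 0), (⟨c, hc⟩, 0))
    simpa [f, g] using this
  · have := hψ' ((0, 0), (0, ⟨w, hw⟩))
    simpa [f, g] using this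

/-- a functional that separates a vector from a subspace -/
theorem sep (W : Submodule F V) {v : V} (hv : v ∉ W) :
    ∃ ψ : V →ₗ[F] F, (∀ w ∈ W, ψ w = 0) ∧ ψ v ≠ 0 := by
  obtain ⟨f, hf, hk⟩ := Submodule.exists_le_ker_of_notMem hv
  exact ⟨f, fun y hy => by simpa using hk hy, hf⟩

end Ext

end H36Aug
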