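import Pool.Agent.Helper36.Aug.Gen

/-!
Character sums over finite subgroups of an elementary abelian group that acts in an algebra.
-/

set_option autoImplicit false

namespace H36Aug

namespace M

section Fin

variable {E E' : Type*} (l : ℕ) [Fact l.Prime] [AddCommGroup E] [Module (ZMod l) E]
  [AddCommGroup E'] [Module (ZMod l) E']

theorem span_finite (S : Finset E) :
    (Submodule.span (ZMod l) (S : Set E) : Set E).Finite := by
  have : Module.Finite (ZMod l) (Submodule.span (ZMod l) (S : Set E)) :=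
    FiniteDimensional.span_finset (ZMod l) S
  have : Finite (Submodule.span (ZMod l) (S : Set E)) := Module.finite_of_finite (ZMod l)
  exact Set.toFinite _

/-- the finite subgroup generated by a finite set -/
noncomputable def V (S : Finset E) : Finset E := (span_finite l S).toFinset

variable {l}

theorem mem_V {S : Finset E} {x : E} : x ∈ V l S ↔ x ∈ Submodule.span (ZMod l) (S : Set E) := by
  simp [V]

theorem subset_V (S : Finset E) : S ⊆ V l S := fun x hx =>
  mem_V.2 (Submodule.subset_span (by exact_mod_cast hx))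

theorem V_zero (S : Finset E) : (0 : E) ∈ V l S := mem_V.2 (Submodule.zero_mem _)

theorem V_add {S : Finset E} {x y : E} (hx : x ∈ V l S) (hy : y ∈ V l S) : x + y ∈ V l S :=
  mem_V.2 (Submodule.add_mem _ (mem_V.1 hx) (mem_V.1 hy))

theorem V_sub {S : Finset E} {x y : E} (hx : x ∈ V l S) (hy : y ∈ V l S) : x - y ∈ V l S :=
  mem_V.2 (Submodule.sub_mem _ (mem_V.1 hx) (mem_V.1 hy))

theorem V_neg {S : Finset E} {x : E} (hx : x ∈ V l S) : -x ∈ V l S :=
  mem_V.2 (Submodule.neg_mem _ (mem_V.1 hx))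

theorem V_map {S : Finset E} {T : Finset E'} {g : E →ₗ[ZMod l] E'} (h : ∀ x ∈ S, g x ∈ V l T)
    {x : E} (hx : x ∈ V l S) : g x ∈ V l T := by
  have h1 : Submodule.span (ZMod l) (S : Set E) ≤
      (Submodule.span (ZMod l) (T : Set E')).comap g := by
    rw [Submodule.span_le]
    intro y hy
    exact mem_V.1 (h y (by exact_mod_cast hy))
  exact mem_V.2 (h1 (mem_V.1 hx))

theorem V_mono {S T : Finset E} (h : S ⊆ T) {x : E} (hx : x ∈ V l S) : x ∈ V l T :=
  V_map (g := LinearMap.id) (fun _ hy => subset_V T (h hy)) hx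

theorem V_eq {S : Finset E} {g : E →ₗ[ZMod l] E'} {ψ : E' →ₗ[ZMod l] ZMod l}
    {χ : E →ₗ[ZMod l] ZMod l} (h : ∀ x ∈ S, ψ (g x) = χ x) {x : E} (hx : x ∈ V l S) :
    ψ (g x) = χ x := by
  have h1 : Submodule.span (ZMod l) (S : Set E) ≤ LinearMap.ker (ψ ∘ₗ g - χ) := by
    rw [Submodule.span_le]
    intro y hy
    simp [h y (by exact_mod_cast hy)]
  have := h1 (mem_V.1 hx)
  simpa [sub_eq_zero] using this

theorem card_V (S : Finset E) : ∃ n, (V l S).card = l ^ n := by
  have : Module.Finite (ZMod l) (Submodule.span (ZMod l) (S : Set E)) :=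
    FiniteDimensional.span_finset (ZMod l) S
  have : Finite (Submodule.span (ZMod l) (S : Set E)) := Module.finite_of_finite (ZMod l)
  have : Fintype (Submodule.span (ZMod l) (S : Set E)) := Fintype.ofFinite _
  have : Fintype (ZMod l) := Fintype.ofFinite _
  refine ⟨Module.finrank (ZMod l) (Submodule.span (ZMod l) (S : Set E)), ?_⟩
  have h1 := Module.card_eq_pow_finrank (K := ZMod l)
    (V := Submodule.span (ZMod l) (S : Set E))
  rw [ZMod.card] at h1
  rw [← h1, ← Fintype.card_coe]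
  refine Fintype.card_congr ⟨fun x => ⟨x, mem_V.1 x.2⟩, fun x => ⟨x, mem_V.2 x.2⟩, ?_, ?_⟩
  · intro x; rfl
  · intro x; rfl

theorem card_V_ne {P : Type*} [Field P] (hP : (l : P) ≠ 0) (S : Finset E) :
    ((V l S).card : P) ≠ 0 := by
  obtain ⟨n, hn⟩ := card_V (l := l) S
  rw [hn]
  push_cast
  exact pow_ne_zero _ hP

end Fin

section N

variable {E E' P A : Type*} [Field P] [Ring A] [Algebra P A] {l : ℕ} [Fact l.Prime]
  [AddCommGroup E] [Module (ZMod l) E] [AddCommGroup E'] [Module (ZMod l) E']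

/-- an action of an elementary abelian group -/
structure Act (E A : Type*) [AddCommGroup E] [Ring A] where
  f : E → A
  zero : f 0 = 1
  add : ∀ x y, f (x + y) = f x * f y

variable (u : Act E A) (v : Act E' A) (ε : AddChar (ZMod l) P)

/-- the sum over a finite subgroup with coefficients a character -/
noncomputable def N (S : Finset E) (χ : E →ₗ[ZMod l] ZMod l) : A :=
  ∑ x ∈ V l S, ε (-(χ x)) • u.f x

variable {u v ε}

theorem Act.comm (u : Act E A) (x y : E) : u.f x * u.f y = u.f y * u.f x := by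
  rw [← u.add, ← u.add, add_comm]

theorem N_mul {S : Finset E} (χ : E →ₗ[ZMod l] ZMod l) {y : E} (hy : y ∈ V l S) :
    N u ε S χ * u.f y = ε (χ y) • N u ε S χ := by
  unfold N
  rw [Finset.sum_mul, Finset.smul_sum]
  refine Finset.sum_bij' (fun x _ => x + y) (fun x _ => x - y) ?_ ?_ ?_ ?_ ?_
  · intro x hx; exact V_add hx hy
  · intro x hx; exact V_sub hx hy
  · intro x hx; simp
  · intro x hx; simp
  · intro x hx
    rw [smul_mul_assoc, ← u.add, smul_smul, ← AddChar.map_add_eq_mul]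
    congr 2
    rw [map_add]
    ring

theorem mul_N {S : Finset E} (χ : E →ₗ[ZMod l] ZMod l) {y : E} (hy : y ∈ V l S) :
    u.f y * N u ε S χ = ε (χ y) • N u ε S χ := by
  rw [← N_mul χ hy]
  unfold N
  rw [Finset.sum_mul, Finset.mul_sum]
  refine Finset.sum_congr rfl fun x _ => ?_
  rw [mul_smul_comm, smul_mul_assoc, u.comm]

theorem N_h_N {S T : Finset E} {χ ψ : E →ₗ[ZMod l] ZMod l} {a : A} {g : E →ₗ[ZMod l] E}
    (ha : ∀ x, a * u.f x = u.f (g x) * a)
    (m : ∀ x ∈ S, g x ∈ V l T) (e : ∀ x ∈ S, ψ (g x) = χ x) :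
    N u ε T ψ * a * N u ε S χ = ((V l S).card : P) • (N u ε T ψ * a) := by
  conv_lhs => rw [N.eq_def u ε S χ]
  rw [Finset.mul_sum, Nat.cast_smul_eq_nsmul, ← Finset.sum_const]
  refine Finset.sum_congr rfl fun x hx => ?_
  rw [mul_smul_comm, mul_assoc, ha, ← mul_assoc, N_mul ψ (V_map m hx), smul_mul_assoc, smul_smul,
    ← AddChar.map_add_eq_mul, V_eq e hx, neg_add_cancel, AddChar.map_zero_eq_one, one_smul]

theorem N_h_N' {S T : Finset E} {χ ψ : E →ₗ[ZMod l] ZMod l} {a : A} {g : E →ₗ[ZMod l] E}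
    (ha : ∀ x, u.f x * a = a * u.f (g x))
    (m : ∀ x ∈ S, g x ∈ V l T) (e : ∀ x ∈ S, ψ (g x) = χ x) :
    N u ε S χ * a * N u ε T ψ = ((V l S).card : P) • (a * N u ε T ψ) := by
  conv_lhs => rw [N.eq_def u ε S χ]
  rw [Finset.sum_mul, Finset.sum_mul, Nat.cast_smul_eq_nsmul, ← Finset.sum_const]
  refine Finset.sum_congr rfl fun x hx => ?_
  rw [smul_mul_assoc, smul_mul_assoc, ha, mul_assoc, mul_N ψ (V_map m hx), mul_smul_comm,
    smul_smul, ← AddChar.map_add_eq_mul, V_eq e hx, neg_add_cancel, AddChar.map_zero_eq_one, one_smul]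

theorem N_N {S : Finset E} {χ : E →ₗ[ZMod l] ZMod l} :
    N u ε S χ * N u ε S χ = ((V l S).card : P) • N u ε S χ := by
  have := N_h_N (u := u) (ε := ε) (S := S) (T := S) (χ := χ) (ψ := χ) (a := 1)
    (g := LinearMap.id) (by simp) (fun x hx => subset_V S hx) (by simp)
  simpa using this

/-- transport of a relation -/
theorem transfer (hP : (l : P) ≠ 0) {S T : Finset E} {S' T' : Finset E'}
    {χ ψ : E →ₗ[ZMod l] ZMod l} {χ' ψ' : E' →ₗ[ZMod l] ZMod l} {X a b : A}
    (h0 : N u ε S χ * X * N v ε S' χ' = 0) {g : E →ₗ[ZMod l] E} {g' : E' →ₗ[ZMod l] E'}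
    (ha : ∀ x, a * u.f x = u.f (g x) * a) (hb : ∀ x, v.f x * b = b * v.f (g' x))
    (m : ∀ x ∈ S, g x ∈ V l T) (e : ∀ x ∈ S, ψ (g x) = χ x)
    (m' : ∀ x ∈ S', g' x ∈ V l T') (e' : ∀ x ∈ S', ψ' (g' x) = χ' x) :
    N u ε T ψ * (a * X * b) * N v ε T' ψ' = 0 := by
  have h1 : N u ε T ψ * a * (N u ε S χ * X * N v ε S' χ') * (b * N v ε T' ψ') = 0 := by
    rw [h0]; simp
  have h2 : N u ε T ψ * a * (N u ε S χ * X * N v ε S' χ') * (b * N v ε T' ψ') =
      (N u ε T ψ * a * N u ε S χ) * X * (N v ε S' χ' * b * N v ε T' ψ') := by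
    simp only [mul_assoc]
  rw [h2, N_h_N ha m e, N_h_N' hb m' e', smul_mul_assoc, smul_mul_assoc, mul_smul_comm,
    smul_smul] at h1
  have hc : ((V l S).card : P) * ((V l S').card : P) ≠ 0 :=
    mul_ne_zero (card_V_ne hP S) (card_V_ne hP S')
  have h3 := (smul_eq_zero.1 h1).resolve_left hc
  rw [← h3]
  simp only [mul_assoc]

/-- extension of a relation to larger subgroups -/
theorem extend (hP : (l : P) ≠ 0) {S T : Finset E} {S' T' : Finset E'}
    {χ ψ : E →ₗ[ZMod l] ZMod l} {χ' ψ' : E' →ₗ[ZMod l] ZMod l} {X : A}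
    (h0 : N u ε S χ * X * N v ε S' χ' = 0)
    (m : ∀ x ∈ S, x ∈ V l T) (e : ∀ x ∈ S, ψ x = χ x)
    (m' : ∀ x ∈ S', x ∈ V l T') (e' : ∀ x ∈ S', ψ' x = χ' x) :
    N u ε T ψ * X * N v ε T' ψ' = 0 := by
  have := transfer hP h0 (a := 1) (b := 1) (g := LinearMap.id) (g' := LinearMap.id)
    (T := T) (T' := T') (ψ := ψ) (ψ' := ψ') (by simp) (by simp) (by simpa using m)
    (by simpa using e) (by simpa using m') (by simpa using e')
  simpa using this

/-- extension on one side -/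
theorem extend_one (hP : (l : P) ≠ 0) {S T : Finset E}
    {χ ψ : E →ₗ[ZMod l] ZMod l} {X : A} (h0 : N u ε S χ * X = 0)
    (m : ∀ x ∈ S, x ∈ V l T) (e : ∀ x ∈ S, ψ x = χ x) : N u ε T ψ * X = 0 := by
  have h1 := N_h_N (u := u) (ε := ε) (S := S) (T := T) (χ := χ) (ψ := ψ) (a := 1)
    (g := LinearMap.id) (by simp) (by simpa using m) (by simpa using e)
  rw [mul_one] at h1
  have h2 : N u ε T ψ * (N u ε S χ * X) = 0 := by rw [h0, mul_zero]
  rw [← mul_assoc, h1, smul_mul_assoc] at h2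
  exact (smul_eq_zero.1 h2).resolve_left (card_V_ne hP S)

end N

end M

end H36Aug
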