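import Pool.Agent.Helper36.Aug.Rel

/-!
The ideal of all elements of the group algebra of the torus that are killed between two character sums.
-/

set_option autoImplicit false

namespace H36Aug

open Filter

variable {K P A : Type*} [Field K] [Field P] [Ring A] [Algebra P A] {l : ℕ} [Fact l.Prime]
  [Algebra (ZMod l) K]

/-- the torus as a monoid homomorphism -/
def Rel.hHom (R : Rel K A) : Kˣ →* A where
  toFun := R.h
  map_one' := R.h_one
  map_mul' := R.h_mul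

/-- the group algebra of the torus acts -/
noncomputable def hA (P : Type*) [Field P] [Algebra P A] (R : Rel K A) : MonoidAlgebra P Kˣ →ₐ[P] A :=
  MonoidAlgebra.lift P A Kˣ R.hHom

theorem hA_single (R : Rel K A) (t : Kˣ) (r : P) :
    hA P R (MonoidAlgebra.single t r) = r • R.h t := by
  simp [hA, Rel.hHom]

theorem hA_comm (R : Rel K A) (C : MonoidAlgebra P Kˣ) (s : Kˣ) :
    hA P R C * R.h s = R.h s * hA P R C := by
  have h1 : R.h s = hA P R (MonoidAlgebra.single s 1) := by simp [hA_single]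
  rw [h1, ← map_mul, ← map_mul, mul_comm]

theorem w_hA (R : Rel K A) (C : MonoidAlgebra P Kˣ) (s : Kˣ) :
    R.h s * (R.w * hA P R C) * R.h s = R.w * hA P R C := by
  have h1 : R.h s * R.w = R.w * R.h s⁻¹ := by
    have := R.wh s⁻¹
    rw [inv_inv] at this
    exact this.symm
  rw [← mul_assoc, h1, mul_assoc, mul_assoc, hA_comm, ← mul_assoc (R.h s⁻¹), ← R.h_mul,
    inv_mul_cancel, R.h_one, one_mul]

/-- `X` is killed between two character sums, the characters being trivial on `W` -/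
def Good (R : Rel K A) (ε : AddChar (ZMod l) P) (W : Submodule (ZMod l) K) (X : A) : Prop :=
  ∃ (S : Finset K) (χ χ' : K →ₗ[ZMod l] ZMod l), (∀ y ∈ W, χ y = 0) ∧ (∀ y ∈ W, χ' y = 0) ∧
    N R ε S χ * X * N R ε S χ' = 0

variable {R : Rel K A} {ε : AddChar (ZMod l) P} {W : Submodule (ZMod l) K}

/-- the two characters can be made equal, and equal to a given one on a given finite set -/
theorem diag [Infinite K] (hP : (l : P) ≠ 0) (hW : ∀ c : K, ∀ y ∈ W, c ^ 2 * y ∈ W) {X : A}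
    (hX : ∀ s : Kˣ, R.h s * X * R.h s = X) (hg : Good R ε W X) (T : Finset K)
    (ψ : K →ₗ[ZMod l] ZMod l) (hψ : ∀ y ∈ W, ψ y = 0) :
    ∃ (T' : Finset K) (ψ' : K →ₗ[ZMod l] ZMod l), T ⊆ T' ∧ (∀ x ∈ T, ψ' x = ψ x) ∧
      (∀ y ∈ W, ψ' y = 0) ∧ N R ε T' ψ' * X * N R ε T' ψ' = 0 := by
  classical
  obtain ⟨S, χ, χ', hχ, hχ', h0⟩ := hg
  have hgen : ∀ᶠ s : K in cofinite, ∀ f ∈ V l T, ∀ d ∈ V l S, ∀ f' ∈ V l S,
      ¬ (f' ∈ W ∧ f ∈ W ∧ d ∈ W) → f' + s ^ 2 * f + s ^ 4 * d ∉ W := by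
    rw [Filter.eventually_all_finset]
    intro f _
    rw [Filter.eventually_all_finset]
    intro d _
    rw [Filter.eventually_all_finset]
    intro f' _
    by_cases hn : f' ∈ W ∧ f ∈ W ∧ d ∈ W
    · exact Filter.Eventually.of_forall fun s hs => absurd hn hs
    · have := gen (W := W.toAddSubgroup) (v0 := f') (v1 := f) (v2 := d) (v3 := 0) hW
        (fun h => hn ⟨h.1, h.2.1, h.2.2.1⟩)
      refine this.mono fun s hs _ => ?_
      simpa using hs
  have hne : ∀ᶠ s : K in cofinite, s ≠ 0 := by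
    rw [Filter.eventually_cofinite]
    refine (Set.finite_singleton (0 : K)).subset ?_
    intro s hs
    simpa using hs
  obtain ⟨s0, hs, hs0⟩ := (hgen.and hne).exists
  let s : Kˣ := Units.mk0 s0 hs0
  have hsv : (s : K) = s0 := rfl
  have hsi : ((s⁻¹ : Kˣ) : K) = s0⁻¹ := by simp [s]
  let sp : Finset K → Submodule (ZMod l) K := fun S => Submodule.span (ZMod l) (S : Set K)
  obtain ⟨ψ', e1, e2, e3, e4⟩ := ext3 (sp T) ((sp S).map (LinearMap.mulLeft (ZMod l) (s0 ^ 2)))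
    ((sp S).map (LinearMap.mulLeft (ZMod l) (s0⁻¹ ^ 2))) W ψ
    (χ ∘ₗ LinearMap.mulLeft (ZMod l) (s0⁻¹ ^ 2)) (χ' ∘ₗ LinearMap.mulLeft (ZMod l) (s0 ^ 2)) (by
      rintro a ha b ⟨d, hd, rfl⟩ c ⟨f', hf', rfl⟩ hmem
      simp only [LinearMap.mulLeft_apply, LinearMap.comp_apply] at hmem ⊢
      have h1 : f' ∈ W ∧ a ∈ W ∧ d ∈ W := by
        by_contra hn
        refine hs a (mem_V.2 ha) d (mem_V.2 hd) f' (mem_V.2 hf') hn ?_
        have := hW s0 _ hmem
        have e : s0 ^ 2 * (a + s0 ^ 2 * d + s0⁻¹ ^ 2 * f') = f' + s0 ^ 2 * a + s0 ^ 4 * d := by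
          field_simp
          ring
        rwa [e] at this
      have e1 : s0⁻¹ ^ 2 * (s0 ^ 2 * d) = d := by field_simp
      have e2 : s0 ^ 2 * (s0⁻¹ ^ 2 * f') = f' := by field_simp
      rw [e1, e2, hψ _ h1.2.1, hχ _ h1.2.2, hχ' _ h1.1]
      simp)
  refine ⟨T ∪ (S.image (fun x => s0 ^ 2 * x) ∪ S.image (fun x => s0⁻¹ ^ 2 * x)), ψ',
    Finset.subset_union_left, fun x hx => e1 x (Submodule.subset_span (by exact_mod_cast hx)), e4, ?_⟩
  have hm1 : ∀ x ∈ S, (s : K) ^ 2 * x ∈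
      V l (T ∪ (S.image (fun x => s0 ^ 2 * x) ∪ S.image (fun x => s0⁻¹ ^ 2 * x))) := by
    intro x hx
    refine subset_V _ (Finset.mem_union_right _ (Finset.mem_union_left _ ?_))
    exact Finset.mem_image.2 ⟨x, hx, rfl⟩
  have hm2 : ∀ x ∈ S, ((s⁻¹ : Kˣ) : K) ^ 2 * x ∈
      V l (T ∪ (S.image (fun x => s0 ^ 2 * x) ∪ S.image (fun x => s0⁻¹ ^ 2 * x))) := by
    intro x hx
    refine subset_V _ (Finset.mem_union_right _ (Finset.mem_union_right _ ?_))
    exact Finset.mem_image.2 ⟨x, hx, by rw [hsi]⟩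
  have hx1 : ∀ x ∈ S, ψ' ((s : K) ^ 2 * x) = χ x := by
    intro x hx
    have := e2 (s0 ^ 2 * x) ⟨x, Submodule.subset_span (by exact_mod_cast hx), rfl⟩
    rw [hsv, this]
    simp only [LinearMap.comp_apply, LinearMap.mulLeft_apply]
    congr 1
    field_simp
  have hx2 : ∀ x ∈ S, ψ' (((s⁻¹ : Kˣ) : K) ^ 2 * x) = χ' x := by
    intro x hx
    have := e3 (s0⁻¹ ^ 2 * x) ⟨x, Submodule.subset_span (by exact_mod_cast hx), rfl⟩
    rw [hsi, this]
    simp only [LinearMap.comp_apply, LinearMap.mulLeft_apply]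
    congr 1
    field_simp
  have := transfer hP h0 s s hm1 hx1 hm2 hx2
  rwa [hX] at this

theorem Good.zero : Good R ε W 0 := ⟨∅, 0, 0, by simp, by simp, by simp⟩

theorem Good.add [Infinite K] (hP : (l : P) ≠ 0) (hW : ∀ c : K, ∀ y ∈ W, c ^ 2 * y ∈ W) {X Y : A}
    (hX : ∀ s : Kˣ, R.h s * X * R.h s = X) (hY : ∀ s : Kˣ, R.h s * Y * R.h s = Y)
    (hg : Good R ε W X) (hg' : Good R ε W Y) : Good R ε W (X + Y) := by
  obtain ⟨T, ψ, -, -, hψ, h1⟩ := diag hP hW hX hg ∅ 0 (by simp)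
  obtain ⟨T', ψ', hT, he, hψ', h2⟩ := diag hP hW hY hg' T ψ hψ
  refine ⟨T', ψ', ψ', hψ', hψ', ?_⟩
  have h3 := extend hP h1 (T := T') (T' := T') (ψ := ψ') (ψ' := ψ')
    (fun x hx => subset_V _ (hT hx)) he (fun x hx => subset_V _ (hT hx)) he
  rw [mul_add, add_mul, h2, h3, add_zero]

theorem Good.translate (hP : (l : P) ≠ 0) (hW : ∀ c : K, ∀ y ∈ W, c ^ 2 * y ∈ W) {X : A}
    (hg : Good R ε W X) (s : Kˣ) : Good R ε W (R.h s * X) := by
  classical
  obtain ⟨S, χ, χ', hχ, hχ', h0⟩ := hg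
  refine ⟨S ∪ S.image (fun x => (s : K) ^ 2 * x),
    χ ∘ₗ LinearMap.mulLeft (ZMod l) (((s⁻¹ : Kˣ) : K) ^ 2), χ', ?_, hχ', ?_⟩
  · intro y hy
    exact hχ _ (hW _ _ hy)
  · have := transfer hP h0 s 1 (T := S ∪ S.image (fun x => (s : K) ^ 2 * x))
      (T' := S ∪ S.image (fun x => (s : K) ^ 2 * x))
      (ψ := χ ∘ₗ LinearMap.mulLeft (ZMod l) (((s⁻¹ : Kˣ) : K) ^ 2)) (ψ' := χ') ?_ ?_ ?_ ?_
    · simpa [R.h_one] using this
    · intro x hx
      exact subset_V _ (Finset.mem_union_right _ (Finset.mem_image.2 ⟨x, hx, rfl⟩))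
    · intro x hx
      simp only [LinearMap.comp_apply, LinearMap.mulLeft_apply, ← mul_assoc, ← mul_pow]
      simp
    · intro x hx
      simpa using subset_V (l := l) _ (Finset.mem_union_left _ hx)
    · intro x hx
      simp

theorem Good.smul {X : A} (hg : Good R ε W X) (r : P) : Good R ε W (r • X) := by
  obtain ⟨S, χ, χ', hχ, hχ', h0⟩ := hg
  refine ⟨S, χ, χ', hχ, hχ', ?_⟩
  rw [mul_smul_comm, smul_mul_assoc, h0, smul_zero]

/-- the ideal of the group algebra of the torus -/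
noncomputable def CI [Infinite K] (hP : (l : P) ≠ 0) (hW : ∀ c : K, ∀ y ∈ W, c ^ 2 * y ∈ W)
    (R : Rel K A) (ε : AddChar (ZMod l) P) : Ideal (MonoidAlgebra P Kˣ) where
  carrier := {C | Good R ε W (R.w * hA P R C)}
  add_mem' := by
    intro a b ha hb
    have := Good.add hP hW (w_hA R a) (w_hA R b) ha hb
    simpa [mul_add] using this
  zero_mem' := by
    simpa using Good.zero
  smul_mem' := by
    intro c x hx
    induction c using MonoidAlgebra.induction_linear with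
    | zero => simpa using Good.zero
    | add a b ha hb =>
      have := Good.add hP hW (w_hA R (a • x)) (w_hA R (b • x)) ha hb
      simpa [mul_add, add_mul] using this
    | single t r =>
      have h1 : R.w * hA P R (MonoidAlgebra.single t r • x) =
          r • (R.h t⁻¹ * (R.w * hA P R x)) := by
        rw [smul_eq_mul, map_mul, hA_single, smul_mul_assoc, mul_smul_comm, ← mul_assoc, R.wh,
          mul_assoc]
      have h2 := (Good.translate hP hW hx t⁻¹).smul r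
      rw [← h1] at h2
      exact h2

theorem mem_CI [Infinite K] {hP : (l : P) ≠ 0} {hW : ∀ c : K, ∀ y ∈ W, c ^ 2 * y ∈ W}
    {C : MonoidAlgebra P Kˣ} : C ∈ CI hP hW R ε ↔ Good R ε W (R.w * hA P R C) := Iff.rfl

end H36Aug
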