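import Pool.Agent.Helper36.Aug.Dich

/-!
If the ideal of the group algebra of the torus is everything then some character sum vanishes.
-/

set_option autoImplicit false

namespace H36Aug

variable {K P A : Type*} [Field K] [Field P] [Ring A] [Algebra P A] {l : ℕ} [Fact l.Prime]
  [Algebra (ZMod l) K] {R : Rel K A} {ε : AddChar (ZMod l) P} {W : Submodule (ZMod l) K}

theorem kill [Infinite K] (hP : (l : P) ≠ 0) (hW : ∀ c : K, ∀ y ∈ W, c ^ 2 * y ∈ W)
    (htop : CI hP hW R ε = ⊤) (T : Finset K) (ψ : K →ₗ[ZMod l] ZMod l) (hψ : ∀ y ∈ W, ψ y = 0) :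
    ∃ (T' : Finset K) (ψ' : K →ₗ[ZMod l] ZMod l), T ⊆ T' ∧ (∀ x ∈ T, ψ' x = ψ x) ∧
      (∀ y ∈ W, ψ' y = 0) ∧ N R ε T' ψ' = 0 := by
  classical
  have hall : ∀ a : Kˣ, Good R ε W (R.w * R.h a) := by
    intro a
    have h1 : MonoidAlgebra.single a (1 : P) ∈ CI hP hW R ε := by rw [htop]; trivial
    have h2 := mem_CI.1 h1
    rwa [hA_single, one_smul] at h2
  have hfix : ∀ a s : Kˣ, R.h s * (R.w * R.h a) * R.h s = R.w * R.h a := by
    intro a s
    have := w_hA (P := P) R (MonoidAlgebra.single a 1) s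
    rwa [hA_single, one_smul] at this
  obtain ⟨T0, ψ0, hT0, he0, hψ0, k0⟩ := diag hP hW (hfix 1) (hall 1) T ψ hψ
  rw [R.h_one, mul_one] at k0
  have hind : ∀ Z : Finset Kˣ, ∃ (T' : Finset K) (ψ' : K →ₗ[ZMod l] ZMod l), T0 ⊆ T' ∧
      (∀ x ∈ T0, ψ' x = ψ0 x) ∧ (∀ y ∈ W, ψ' y = 0) ∧
      ∀ a ∈ Z, N R ε T' ψ' * (R.w * R.h a) * N R ε T' ψ' = 0 := by
    intro Z
    induction Z using Finset.induction_on with
    | empty => exact ⟨T0, ψ0, subset_rfl, fun _ _ => rfl, hψ0, by simp⟩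
    | insert a Z _ ih =>
      obtain ⟨T1, ψ1, hT1, he1, hψ1, k1⟩ := ih
      obtain ⟨T2, ψ2, hT2, he2, hψ2, k2⟩ := diag hP hW (hfix a) (hall a) T1 ψ1 hψ1
      refine ⟨T2, ψ2, hT1.trans hT2, fun x hx => by rw [he2 x (hT1 hx), he1 x hx], hψ2, ?_⟩
      intro c hc
      rcases Finset.mem_insert.1 hc with rfl | hc
      · exact k2
      · exact extend hP (k1 c hc) (fun x hx => subset_V _ (hT2 hx)) he2
          (fun x hx => subset_V _ (hT2 hx)) he2
  obtain ⟨T1, ψ1, hT1, he1, hψ1, k1⟩ := hind ((V l T0).image toU)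
  let T2 := T1 ∪ (V l T0).image (fun a => a⁻¹)
  have hT12 : T1 ⊆ T2 := Finset.subset_union_left
  refine ⟨T2, ψ1, hT0.trans (hT1.trans hT12), fun x hx => by rw [he1 x (hT0 hx), he0 x hx], hψ1, ?_⟩
  have k2 : ∀ a ∈ V l T0, N R ε T2 ψ1 * (R.w * R.h (toU a)) * N R ε T2 ψ1 = 0 := fun a ha =>
    extend hP (k1 _ (Finset.mem_image_of_mem _ ha)) (fun x hx => subset_V _ (hT12 hx))
      (fun _ _ => rfl) (fun x hx => subset_V _ (hT12 hx)) (fun _ _ => rfl)
  have k3 := extend hP k0 (T := T2) (T' := T0) (ψ := ψ1) (ψ' := ψ0)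
    (fun x hx => subset_V _ (hT12 (hT1 hx))) he1 (fun x hx => subset_V _ hx) (fun _ _ => rfl)
  have k4 : N R ε T2 ψ1 * R.w * N R ε T0 ψ0 * (R.w * N R ε T2 ψ1) = 0 := by rw [k3, zero_mul]
  have k5 : N R ε T2 ψ1 * R.w * N R ε T0 ψ0 * (R.w * N R ε T2 ψ1) =
      ((V l T2).card : P) • N R ε T2 ψ1 := by
    rw [N.eq_def R ε T0 ψ0, Finset.mul_sum, Finset.sum_mul,
      Finset.sum_eq_single (0 : K)]
    · have h1 := N_h_N (R := R) (ε := ε) (S := T2) (T := T2) (χ := ψ1) (ψ := ψ1) 1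
        (by simpa using fun x hx => subset_V (l := l) T2 hx) (by simp)
      simp only [R.h_one, mul_one] at h1
      rw [map_zero, neg_zero, AddChar.map_zero_eq_one, one_smul, R.u_zero, mul_one, ← mul_assoc,
        mul_assoc _ R.w R.w, R.w_mul, mul_one, h1]
    · intro a ha ha0
      have h1 := R.wuw (toU a)
      rw [toU_coe ha0] at h1
      have hinv : a⁻¹ ∈ V l T2 :=
        subset_V _ (Finset.mem_union_right _ (Finset.mem_image_of_mem _ ha))
      calc N R ε T2 ψ1 * R.w * (ε (-(ψ0 a)) • R.u a) * (R.w * N R ε T2 ψ1)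
          = ε (-(ψ0 a)) • (N R ε T2 ψ1 * (R.w * R.u a * R.w) * N R ε T2 ψ1) := by
            simp only [mul_smul_comm, smul_mul_assoc, mul_assoc]
        _ = ε (-(ψ0 a)) • ((N R ε T2 ψ1 * R.u (-a⁻¹)) * (R.w * R.h (toU a)) *
              (R.u (-a⁻¹) * N R ε T2 ψ1)) := by
            rw [h1]
            simp only [mul_assoc]
        _ = 0 := by
            rw [N_mul_u ψ1 (V_neg hinv), u_mul_N ψ1 (V_neg hinv)]
            simp only [mul_smul_comm, smul_mul_assoc, k2 a ha, smul_zero]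
    · intro h
      exact absurd (V_zero T0) h
  rw [k5] at k4
  exact (smul_eq_zero.1 k4).resolve_left (card_V_ne hP T2)

end H36Aug
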