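import Pool.Agent.Helper36.Aug.Pos

/-!
The augmentation ideal of the group ring of `PSL_n(K)` is not simple if the characteristics are equal.
-/

set_option autoImplicit false

namespace H36Aug

open Matrix

section Tv

variable {K : Type*} [Field K] {n : ℕ} {i j : Fin n}

/-- transvections modulo scalars -/
def tvP (hij : i ≠ j) (a : K) : ProjectiveSpecialLinearGroup (Fin n) K :=
  QuotientGroup.mk (Matrix.SpecialLinearGroup.transvection hij a)

theorem tvP_add (hij : i ≠ j) (a b : K) : tvP hij (a + b) = tvP hij a * tvP hij b := by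
  rw [tvP, Matrix.SpecialLinearGroup.transvection_add, QuotientGroup.mk_mul]
  rfl

theorem tvP_eq_one (hij : i ≠ j) (a : K) : tvP hij a = 1 ↔ a = 0 := by
  rw [tvP, QuotientGroup.eq_one_iff, Matrix.SpecialLinearGroup.transvection_mem_center_iff]

theorem infinite_psl [Infinite K] (hn : 2 ≤ n) : Infinite (ProjectiveSpecialLinearGroup (Fin n) K) := by
  have hij : (⟨0, by omega⟩ : Fin n) ≠ ⟨1, by omega⟩ := by
    intro h
    have := congrArg Fin.val h
    simp at this
  refine Infinite.of_injective (tvP (K := K) hij) fun a b h => ?_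
  have h1 : tvP hij (a + -b) = 1 := by
    rw [tvP_add, h, ← tvP_add, add_neg_cancel, tvP_eq_one]
  rw [tvP_eq_one, ← sub_eq_add_neg, sub_eq_zero] at h1
  exact h1

end Tv

section Nil

variable {R S : Type*} [CommRing R] [Ring S] [Algebra R S]

/-- the nilpotent part of the conjugation -/
def NA (E : S) (a : R) (X : S) : S := a • (E * X - X * E) - (a * a) • (E * X * E)

theorem mul_NA {E : S} (hE : E * E = 0) (a : R) (X : S) : E * NA E a X = -(a • (E * X * E)) := by
  rw [NA, mul_sub, mul_smul_comm, mul_smul_comm, mul_sub, ← mul_assoc, hE, zero_mul, ← mul_assoc,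
    ← mul_assoc, ← mul_assoc, hE]
  simp

theorem NA_mul {E : S} (hE : E * E = 0) (a : R) (X : S) : NA E a X * E = a • (E * X * E) := by
  rw [NA, sub_mul, smul_mul_assoc, smul_mul_assoc, sub_mul, mul_assoc X E E, hE, mul_zero,
    mul_assoc (E * X) E E, hE]
  simp

theorem NA3 {E : S} (hE : E * E = 0) (a b c : R) (X : S) : NA E a (NA E b (NA E c X)) = 0 := by
  have h1 : E * NA E b (NA E c X) * E = 0 := by
    rw [mul_NA hE, mul_NA hE]
    simp [mul_assoc, hE]
  have h2 : E * NA E c X * E = 0 := by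
    rw [mul_NA hE]
    simp [mul_assoc, hE]
  rw [NA, h1, mul_NA hE, NA_mul hE, h2]
  simp

end Nil

section Ad

variable {K P R : Type*} [Field K] [Field P] [CommRing R] [Algebra P R] {n : ℕ}

/-- the conjugation -/
def ad (P : Type*) [Field P] [Algebra P R] (f : K →+* R) (g : Matrix.SpecialLinearGroup (Fin n) K) :
    Module.End P (Matrix (Fin n) (Fin n) R) where
  toFun X := g.1.map f * X * g⁻¹.1.map f
  map_add' X Y := by rw [mul_add, add_mul]
  map_smul' r X := by
    rw [mul_smul_comm, smul_mul_assoc]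
    rfl

theorem ad_apply (f : K →+* R) (g : Matrix.SpecialLinearGroup (Fin n) K)
    (X : Matrix (Fin n) (Fin n) R) : ad P f g X = g.1.map f * X * g⁻¹.1.map f := rfl

theorem map_inv_mul (f : K →+* R) (g : Matrix.SpecialLinearGroup (Fin n) K) :
    g.1.map f * g⁻¹.1.map f = 1 := by
  rw [← Matrix.map_mul, ← M.mul_val, mul_inv_cancel, M.one_val, Matrix.map_one f (map_zero f) (map_one f)]

/-- the conjugation -/
def adH (P : Type*) [Field P] [Algebra P R] (f : K →+* R) :
    Matrix.SpecialLinearGroup (Fin n) K →* Module.End P (Matrix (Fin n) (Fin n) R) where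
  toFun := ad P f
  map_one' := by
    refine LinearMap.ext fun X => ?_
    rw [ad_apply, inv_one, M.one_val, Matrix.map_one f (map_zero f) (map_one f), one_mul, mul_one]
    rfl
  map_mul' g h := by
    refine LinearMap.ext fun X => ?_
    rw [Module.End.mul_apply, ad_apply, ad_apply, ad_apply, _root_.mul_inv_rev, M.mul_val, M.mul_val,
      Matrix.map_mul, Matrix.map_mul]
    simp only [mul_assoc]

/-- the conjugation -/
def adP (P : Type*) [Field P] [Algebra P R] (f : K →+* R) :
    ProjectiveSpecialLinearGroup (Fin n) K →* Module.End P (Matrix (Fin n) (Fin n) R) :=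
  QuotientGroup.lift _ (adH P f) (by
    intro g hg
    rw [Matrix.SpecialLinearGroup.mem_center_iff] at hg
    obtain ⟨z, -, hz⟩ := hg
    refine LinearMap.ext fun X => ?_
    change ad P f g X = X
    have h1 : g.1.map f = f z • (1 : Matrix (Fin n) (Fin n) R) := by
      have h2 : g.1 = z • 1 := hz.symm.trans (smul_one_eq_diagonal z).symm
      rw [h2]
      ext p q
      simp [Matrix.one_apply, apply_ite f]
    have h3 : g.1.map f * X = X * g.1.map f := by
      rw [h1, smul_mul_assoc, mul_smul_comm, one_mul, mul_one]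
    rw [ad_apply, h3, mul_assoc, map_inv_mul, mul_one])

theorem adP_tv (f : K →+* R) {i j : Fin n} (hij : i ≠ j) (a : K) (X : Matrix (Fin n) (Fin n) R) :
    adP P f (tvP hij a) X - X = NA (single i j 1) (f a) X := by
  change ad P f (Matrix.SpecialLinearGroup.transvection hij a) X - X = _
  rw [ad_apply, Matrix.SpecialLinearGroup.transvection_inv]
  have h1 : ∀ a : K, (Matrix.SpecialLinearGroup.transvection hij a).1.map f =
      1 + f a • single i j (1 : R) := by
    intro a
    rw [Matrix.SpecialLinearGroup.transvection_coe]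
    ext p q
    simp [Matrix.one_apply, Matrix.single_apply, apply_ite f]
  rw [h1, h1, NA, map_neg]
  simp only [mul_add, add_mul, one_mul, mul_one, smul_mul_assoc, mul_smul_comm, smul_smul, neg_smul,
    mul_neg, smul_sub, smul_add, mul_assoc]
  abel

end Ad

section Elt

variable {K P : Type*} [Field K] [Field P] {n : ℕ} {i j : Fin n}

/-- the element `u(a) - 1` -/
noncomputable def dd (P : Type*) [Field P] (hij : i ≠ j) (a : K) :
    MonoidAlgebra P (ProjectiveSpecialLinearGroup (Fin n) K) :=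
  MonoidAlgebra.single (tvP hij a) 1 - 1

theorem aug_dd (hij : i ≠ j) (a : K) : aug P _ (dd P hij a) = 0 := by
  rw [dd, map_sub, aug_single, map_one, sub_self]

theorem ss_mul (hij : i ≠ j) (a b : K) :
    MonoidAlgebra.single (tvP hij a) (1 : P) * MonoidAlgebra.single (tvP hij b) 1 =
      MonoidAlgebra.single (tvP hij (a + b)) 1 := by
  rw [MonoidAlgebra.single_mul_single, tvP_add, one_mul]

theorem ss_coeff (hij : i ≠ j) {a : K} (ha : a ≠ 0) :
    (MonoidAlgebra.single (tvP hij a) (1 : P)).coeff 1 = 0 := by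
  classical
  rw [MonoidAlgebra.coeff_single, Finsupp.single_apply, if_neg]
  rw [tvP_eq_one]
  exact ha

theorem dd3 (hij : i ≠ j) {a b c : K} (ha : a ≠ 0) (hb : b ≠ 0) (hc : c ≠ 0) (hab : a + b ≠ 0)
    (hac : a + c ≠ 0) (hbc : b + c ≠ 0) (habc : a + b + c ≠ 0) :
    dd P hij a * (dd P hij b * dd P hij c) ≠ 0 := by
  intro h0
  have h1 : dd P hij a * (dd P hij b * dd P hij c) =
      MonoidAlgebra.single (tvP hij (a + b + c)) 1 - MonoidAlgebra.single (tvP hij (a + b)) 1 -
        MonoidAlgebra.single (tvP hij (a + c)) 1 - MonoidAlgebra.single (tvP hij (b + c)) 1 +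
          MonoidAlgebra.single (tvP hij a) 1 + MonoidAlgebra.single (tvP hij b) 1 +
            MonoidAlgebra.single (tvP hij c) 1 - 1 := by
    rw [← ss_mul hij (a + b) c, ← ss_mul hij a b, ← ss_mul hij a c, ← ss_mul hij b c, dd, dd, dd]
    noncomm_ring
  have h2 := congrArg (fun z => z.coeff 1) (h1.symm.trans h0)
  simp only [MonoidAlgebra.coeff_sub, MonoidAlgebra.coeff_add, Finsupp.sub_apply, Finsupp.add_apply,
    ss_coeff hij ha, ss_coeff hij hb, ss_coeff hij hc, ss_coeff hij hab, ss_coeff hij hac,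
    ss_coeff hij hbc, ss_coeff hij habc, MonoidAlgebra.coeff_zero, MonoidAlgebra.one_def] at h2
  simp at h2

theorem exists_abc (K : Type*) [Field K] [Infinite K] : ∃ a b c : K, a ≠ 0 ∧ b ≠ 0 ∧ c ≠ 0 ∧
    a + b ≠ 0 ∧ a + c ≠ 0 ∧ b + c ≠ 0 ∧ a + b + c ≠ 0 := by
  classical
  obtain ⟨b, hb⟩ := Infinite.exists_notMem_finset ({0, -1} : Finset K)
  obtain ⟨c, hc⟩ := Infinite.exists_notMem_finset ({0, -1, -b, -(1 + b)} : Finset K)
  simp only [Finset.mem_insert, Finset.mem_singleton, not_or] at hb hc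
  refine ⟨1, b, c, one_ne_zero, hb.1, hc.1, ?_, ?_, ?_, ?_⟩
  · intro h
    exact hb.2 (eq_neg_of_add_eq_zero_right h)
  · intro h
    exact hc.2.1 (eq_neg_of_add_eq_zero_right h)
  · intro h
    exact hc.2.2.1 (eq_neg_of_add_eq_zero_right h)
  · intro h
    exact hc.2.2.2 (eq_neg_of_add_eq_zero_right h)

end Elt

section Main

variable {K P R : Type*} [Field K] [Field P] [CommRing R] [Algebra P R] {n : ℕ}

theorem not_simple [Infinite K] [Nontrivial R] (hn : 2 ≤ n) (f : K →+* R) :
    ¬ SimpleAug P (ProjectiveSpecialLinearGroup (Fin n) K) := by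
  classical
  rintro ⟨-, hs⟩
  obtain ⟨i, j, hij⟩ : ∃ i j : Fin n, i ≠ j := ⟨⟨0, by omega⟩, ⟨1, by omega⟩, by
    intro h
    have := congrArg Fin.val h
    simp at this⟩
  let Φ : MonoidAlgebra P (ProjectiveSpecialLinearGroup (Fin n) K) →ₐ[P]
      Module.End P (Matrix (Fin n) (Fin n) R) := MonoidAlgebra.lift P _ _ (adP P f)
  have hE : (single i j (1 : R)) * single i j 1 = 0 := by
    rw [single_mul_single_of_ne]
    exact hij.symm
  have hΦ : ∀ (a : K) (X : Matrix (Fin n) (Fin n) R),
      Φ (dd P hij a) X = NA (single i j 1) (f a) X := by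
    intro a X
    rw [dd, map_sub, map_one, ← adP_tv (P := P) f hij a X]
    simp [Φ]
  let J : AddSubgroup (MonoidAlgebra P (ProjectiveSpecialLinearGroup (Fin n) K)) :=
    { carrier := {z | aug P _ z = 0 ∧ Φ z = 0}
      add_mem' := by
        rintro x y ⟨h1, h2⟩ ⟨h3, h4⟩
        exact ⟨by rw [map_add, h1, h3, add_zero], by rw [map_add, h2, h4, add_zero]⟩
      zero_mem' := ⟨map_zero _, map_zero _⟩
      neg_mem' := by
        rintro x ⟨h1, h2⟩
        exact ⟨by rw [map_neg, h1, neg_zero], by rw [map_neg, h2, neg_zero]⟩ }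
  have hJ := hs J (fun x hx => hx.1) (by
    rintro a ha x ⟨h1, h2⟩
    exact ⟨⟨by rw [map_mul, h1, mul_zero], by rw [map_mul, h2, mul_zero]⟩,
      ⟨by rw [map_mul, h1, zero_mul], by rw [map_mul, h2, zero_mul]⟩⟩)
  rcases hJ with hJ | hJ
  · obtain ⟨a, b, c, ha, hb, hc, hab, hac, hbc, habc⟩ := exists_abc K
    refine dd3 (P := P) hij ha hb hc hab hac hbc habc (hJ _ ⟨?_, ?_⟩)
    · rw [map_mul, aug_dd, zero_mul]
    · refine LinearMap.ext fun X => ?_
      rw [map_mul, map_mul, Module.End.mul_apply, Module.End.mul_apply, hΦ, hΦ, hΦ, NA3 hE]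
      rfl
  · have h1 := (hJ (dd P hij 1) (aug_dd hij 1)).2
    have h2 := LinearMap.congr_fun h1 (single j i 1)
    rw [hΦ] at h2
    have h3 := congrFun (congrFun h2 i) i
    simp [NA, hij, hij.symm] at h3

end Main

end H36Aug
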