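import Pool.Agent.Helper36.Aug.RepF
import Pool.Agent.Helper36.Aug.Defs

/-!
The augmentation ideal of the group ring of `PSL_n(K)` is simple if the characteristics are different.
-/

set_option autoImplicit false

namespace H36Aug

open Matrix

section All

theorem exists_eps (P : Type*) [Field P] (l : ℕ) [Fact l.Prime] (hP : (l : P) ≠ 0) :
    ∃ ε : AddChar (ZMod l) (AlgebraicClosure P), ∀ a : ZMod l, ε a = 1 → a = 0 := by
  have : NeZero (l : P) := ⟨hP⟩
  obtain ⟨ζ, hζ⟩ := HasEnoughRootsOfUnity.exists_primitiveRoot (AlgebraicClosure P) l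
  refine ⟨AddChar.zmodChar l hζ.pow_eq_one, fun a ha => ?_⟩
  rw [AddChar.zmodChar_apply] at ha
  have h1 := hζ.dvd_of_pow_eq_one _ ha
  have h2 := ZMod.val_lt a
  have h3 : a.val = 0 := Nat.eq_zero_of_dvd_of_lt h1 h2
  exact (ZMod.val_eq_zero a).1 h3

open TensorProduct in
theorem rep_all {K P A : Type*} [Field K] [Field P] [Ring A] [Algebra P A]
    {l : ℕ} [Fact l.Prime] [CharP K l] {n : ℕ} (hn : 2 ≤ n) [Infinite K] (hP : (l : P) ≠ 0)
    (π : SpecialLinearGroup (Fin n) K →* A)
    (hz : ∀ g g' : SpecialLinearGroup (Fin n) K, (∃ z : K, g'.1 = z • g.1) → π g = π g')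
    {κ : Type*} (s : Finset κ) (g : κ → SpecialLinearGroup (Fin n) K) (c : κ → P)
    (hg : ∀ i ∈ s, ∀ j ∈ s, i ≠ j → ∀ z : K, (g j).1 ≠ z • (g i).1) (i0 : κ) (hi0 : i0 ∈ s)
    (hc : c i0 ≠ 0) (hrel : ∑ i ∈ s, c i • π (g i) = 0) (X : SpecialLinearGroup (Fin n) K) :
    π X = 1 := by
  obtain ⟨ε, hε⟩ := exists_eps P l hP
  let _ : Algebra (ZMod l) K := ZMod.algebra K l
  let inc : A →ₐ[P] (AlgebraicClosure P) ⊗[P] A := Algebra.TensorProduct.includeRight
  have hinc : Function.Injective inc :=
    Algebra.TensorProduct.includeRight_injective (algebraMap P (AlgebraicClosure P)).injective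
  have h1 := rep_fin (K := K) (P := AlgebraicClosure P) (A := (AlgebraicClosure P) ⊗[P] A) (ε := ε)
    hn (by
      intro h
      apply hP
      apply (algebraMap P (AlgebraicClosure P)).injective
      rw [map_natCast, map_zero, h]) hε ((inc : A →* _).comp π) (by
        intro g g' h
        exact congrArg inc (hz g g' h)) s g (fun i => algebraMap P (AlgebraicClosure P) (c i)) hg i0 hi0
        (by
          intro h
          apply hc
          apply (algebraMap P (AlgebraicClosure P)).injective
          rw [h, map_zero]) (by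
        rw [← map_zero inc, ← hrel, map_sum]
        refine Finset.sum_congr rfl fun i _ => ?_
        rw [map_smul]
        exact algebraMap_smul (AlgebraicClosure P) (c i) _) X
  apply hinc
  rw [map_one]
  exact h1

end All

section Simple

variable {P H : Type*} [Field P] [Group H]

theorem aug_single (h : H) (r : P) : aug P H (MonoidAlgebra.single h r) = r := by
  simp [aug]

theorem aug_mem (I : AddSubgroup (MonoidAlgebra P H))
    (hI : ∀ r : MonoidAlgebra P H, ∀ x ∈ I, r * x ∈ I)
    (h : ∀ g : H, MonoidAlgebra.single g 1 - 1 ∈ I) {x : MonoidAlgebra P H} (hx : aug P H x = 0) :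
    x ∈ I := by
  have h1 : ∀ x : MonoidAlgebra P H, x - MonoidAlgebra.single 1 (aug P H x) ∈ I := by
    intro x
    induction x using MonoidAlgebra.induction_linear with
    | zero => simp
    | add x y hx hy =>
      rw [map_add, MonoidAlgebra.single_add, add_sub_add_comm]
      exact I.add_mem hx hy
    | single g r =>
      rw [aug_single]
      have h2 := hI (MonoidAlgebra.single 1 r) _ (h g)
      rw [mul_sub, MonoidAlgebra.single_mul_single, one_mul, mul_one, mul_one] at h2
      exact h2
  have h2 := h1 x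
  rwa [hx, MonoidAlgebra.single_zero, sub_zero] at h2

/-- the left annihilator of the augmentation ideal is zero -/
theorem exists_left [Infinite H] {x : MonoidAlgebra P H} (hx : x ≠ 0) :
    ∃ a, aug P H a = 0 ∧ a * x ≠ 0 := by
  classical
  by_contra hno
  push Not at hno
  have h1 : ∀ g : H, MonoidAlgebra.single g 1 * x = x := by
    intro g
    have := hno (MonoidAlgebra.single g 1 - 1) (by rw [map_sub, aug_single, map_one, sub_self])
    rwa [sub_mul, one_mul, sub_eq_zero] at this
  obtain ⟨g0, hg0⟩ : ∃ g0, x.coeff g0 ≠ 0 := by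
    by_contra hno
    push Not at hno
    apply hx
    ext g
    exact hno g
  have h2 : ∀ g : H, x.coeff g ≠ 0 := by
    intro g
    have h3 := h1 (g * g0⁻¹)
    rw [← h3, MonoidAlgebra.coeff_single_mul_apply]
    simpa using hg0
  exact Set.infinite_univ (α := H) (x.coeff.support.finite_toSet.subset fun g _ =>
    Finsupp.mem_support_iff.2 (h2 g))

theorem exists_right [Infinite H] {x : MonoidAlgebra P H} (hx : x ≠ 0) :
    ∃ a, aug P H a = 0 ∧ x * a ≠ 0 := by
  classical
  by_contra hno
  push Not at hno
  have h1 : ∀ g : H, x * MonoidAlgebra.single g 1 = x := by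
    intro g
    have := hno (MonoidAlgebra.single g 1 - 1) (by rw [map_sub, aug_single, map_one, sub_self])
    rwa [mul_sub, mul_one, sub_eq_zero] at this
  obtain ⟨g0, hg0⟩ : ∃ g0, x.coeff g0 ≠ 0 := by
    by_contra hno
    push Not at hno
    apply hx
    ext g
    exact hno g
  have h2 : ∀ g : H, x.coeff g ≠ 0 := by
    intro g
    have h3 := h1 (g0⁻¹ * g)
    rw [← h3, MonoidAlgebra.coeff_mul_single_apply]
    simpa using hg0
  exact Set.infinite_univ (α := H) (x.coeff.support.finite_toSet.subset fun g _ =>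
    Finsupp.mem_support_iff.2 (h2 g))

/-- a criterion for the augmentation ideal to be simple -/
theorem simple_of [Infinite H]
    (h : ∀ T : Ideal (MonoidAlgebra P H), T.IsTwoSided → T ≠ ⊥ →
      ∀ g : H, MonoidAlgebra.single g 1 - 1 ∈ T) : SimpleAug P H := by
  refine ⟨?_, ?_⟩
  · obtain ⟨g, hg⟩ := exists_ne (1 : H)
    have hx : MonoidAlgebra.single g (1 : P) - 1 ≠ 0 := by
      intro h0
      rw [sub_eq_zero, MonoidAlgebra.one_def, MonoidAlgebra.single_left_inj one_ne_zero] at h0
      exact hg h0
    obtain ⟨a, ha, hax⟩ := exists_left hx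
    exact ⟨a, _, ha, by rw [map_sub, aug_single, map_one, sub_self], hax⟩
  · intro I hIA hI
    by_cases hI0 : ∀ x ∈ I, x = 0
    · exact Or.inl hI0
    right
    push Not at hI0
    obtain ⟨x, hx, hx0⟩ := hI0
    obtain ⟨a, ha, hax⟩ := exists_left hx0
    obtain ⟨b, hb, haxb⟩ := exists_right hax
    let S : Set (MonoidAlgebra P H) :=
      {z | ∃ a b, aug P H a = 0 ∧ aug P H b = 0 ∧ z = a * x * b}
    have hSI : AddSubgroup.closure S ≤ I := by
      rw [AddSubgroup.closure_le]
      rintro z ⟨a, b, ha, hb, rfl⟩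
      exact (hI b hb _ (hI a ha x hx).1).2
    have hl : ∀ r : MonoidAlgebra P H, ∀ z ∈ AddSubgroup.closure S, r * z ∈ AddSubgroup.closure S := by
      intro r z hz
      induction hz using AddSubgroup.closure_induction with
      | mem z hz =>
        obtain ⟨a, b, ha, hb, rfl⟩ := hz
        refine AddSubgroup.subset_closure ⟨r * a, b, by rw [map_mul, ha, mul_zero], hb, ?_⟩
        simp only [mul_assoc]
      | zero => rw [mul_zero]; exact AddSubgroup.zero_mem _
      | add y z _ _ hy hz => rw [mul_add]; exact AddSubgroup.add_mem _ hy hz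
      | neg y _ hy => rw [mul_neg]; exact AddSubgroup.neg_mem _ hy
    have hr : ∀ r : MonoidAlgebra P H, ∀ z ∈ AddSubgroup.closure S, z * r ∈ AddSubgroup.closure S := by
      intro r z hz
      induction hz using AddSubgroup.closure_induction with
      | mem z hz =>
        obtain ⟨a, b, ha, hb, rfl⟩ := hz
        refine AddSubgroup.subset_closure ⟨a, b * r, ha, by rw [map_mul, hb, zero_mul], ?_⟩
        simp only [mul_assoc]
      | zero => rw [zero_mul]; exact AddSubgroup.zero_mem _
      | add y z _ _ hy hz => rw [add_mul]; exact AddSubgroup.add_mem _ hy hz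
      | neg y _ hy => rw [neg_mul]; exact AddSubgroup.neg_mem _ hy
    let T : Ideal (MonoidAlgebra P H) :=
      { carrier := AddSubgroup.closure S
        add_mem' := fun ha hb => AddSubgroup.add_mem _ ha hb
        zero_mem' := AddSubgroup.zero_mem _
        smul_mem' := fun r z hz => hl r z hz }
    have hT2 : T.IsTwoSided := ⟨fun {a} b ha => hr b a ha⟩
    have hT0 : T ≠ ⊥ := by
      rw [Submodule.ne_bot_iff]
      exact ⟨a * x * b, AddSubgroup.subset_closure ⟨a, b, ha, hb, rfl⟩, haxb⟩
    intro y hy
    exact hSI (aug_mem _ hl (h T hT2 hT0) hy)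

end Simple

section Pos

variable {K P : Type*} [Field K] [Field P] {l : ℕ} [Fact l.Prime] [CharP K l] {n : ℕ}

theorem mk_eq {g g' : SpecialLinearGroup (Fin n) K} (h : ∃ z : K, g'.1 = z • g.1) :
    (QuotientGroup.mk g : ProjectiveSpecialLinearGroup (Fin n) K) = QuotientGroup.mk g' := by
  obtain ⟨z, h⟩ := h
  rw [QuotientGroup.eq, Matrix.SpecialLinearGroup.mem_center_iff]
  have h1 : (g⁻¹ * g').1 = z • 1 := by
    rw [M.mul_val, h, Matrix.mul_smul]
    congr 1
    have : (g⁻¹ * g).1 = 1 := by rw [inv_mul_cancel]; rfl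
    rw [← this, M.mul_val]
  refine ⟨z, ?_, ?_⟩
  · have h3 := (g⁻¹ * g').2
    rw [h1, det_smul, det_one, mul_one] at h3
    exact h3
  · exact (smul_one_eq_diagonal z).symm.trans h1.symm

/-- the representation of the special linear group in the quotient -/
noncomputable def qrep (T : Ideal (MonoidAlgebra P (ProjectiveSpecialLinearGroup (Fin n) K)))
    [T.IsTwoSided] : SpecialLinearGroup (Fin n) K →*
      (MonoidAlgebra P (ProjectiveSpecialLinearGroup (Fin n) K) ⧸ T) where
  toFun M := Ideal.Quotient.mk T (MonoidAlgebra.single (QuotientGroup.mk M) 1)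
  map_one' := by
    rw [QuotientGroup.mk_one, ← MonoidAlgebra.one_def, map_one]
  map_mul' M N := by
    rw [← map_mul, MonoidAlgebra.single_mul_single, QuotientGroup.mk_mul, one_mul]

theorem ideal_top (hn : 2 ≤ n) [Infinite K] (hP : (l : P) ≠ 0)
    (T : Ideal (MonoidAlgebra P (ProjectiveSpecialLinearGroup (Fin n) K))) [T.IsTwoSided]
    (hT : T ≠ ⊥) (g : ProjectiveSpecialLinearGroup (Fin n) K) :
    MonoidAlgebra.single g 1 - 1 ∈ T := by
  classical
  obtain ⟨x, hx, hx0⟩ := (Submodule.ne_bot_iff _).1 hT
  have hout : ∀ g : ProjectiveSpecialLinearGroup (Fin n) K, QuotientGroup.mk (Quotient.out g) = g :=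
    fun g => Quotient.out_eq g
  have hπ : ∀ g : ProjectiveSpecialLinearGroup (Fin n) K,
      qrep T (Quotient.out g) = Ideal.Quotient.mk T (MonoidAlgebra.single g 1) := fun g => by
    change Ideal.Quotient.mk T (MonoidAlgebra.single (QuotientGroup.mk (Quotient.out g)) 1) = _
    rw [hout]
  obtain ⟨g0, hg0⟩ : ∃ g0, x.coeff g0 ≠ 0 := by
    by_contra hno
    push Not at hno
    apply hx0
    ext g
    exact hno g
  have hsum : ∑ i ∈ x.coeff.support, MonoidAlgebra.single i (x.coeff i) = x :=
    x.sum_coeff_single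
  have h1 := rep_all (P := P) (l := l) hn hP (qrep T) (by
      intro g g' h
      change Ideal.Quotient.mk T (MonoidAlgebra.single (QuotientGroup.mk g) 1) =
        Ideal.Quotient.mk T (MonoidAlgebra.single (QuotientGroup.mk g') 1)
      rw [mk_eq h]) x.coeff.support (fun g => Quotient.out g) (fun g => x.coeff g) (by
      intro i _ j _ hij z h
      apply hij
      have := mk_eq (n := n) ⟨z, h⟩
      rwa [hout, hout] at this) g0 (Finsupp.mem_support_iff.2 hg0) hg0 (by
      have h2 : Ideal.Quotient.mk T x = 0 := Ideal.Quotient.eq_zero_iff_mem.2 hx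
      rw [← h2]
      conv_rhs => rw [← hsum]
      rw [map_sum]
      refine Finset.sum_congr rfl fun i _ => ?_
      rw [hπ]
      have h3 : MonoidAlgebra.single i (x.coeff i) = x.coeff i • MonoidAlgebra.single i (1 : P) := by
        simp
      rw [h3]
      rfl) (Quotient.out g)
  rw [hπ] at h1
  rw [← Ideal.Quotient.eq_zero_iff_mem, map_sub, h1, map_one, sub_self]

end Pos

end H36Aug
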