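import Pool.Agent.Helper36.Aug.Gen

/-!
Algebras with elements that satisfy the relations of `PSL₂(K)`; sums over finite subgroups of the root
group with coefficients a character.
-/

set_option autoImplicit false

namespace H36Aug

/-- elements of a ring that satisfy the relations of `PSL₂(K)` -/
structure Rel (K A : Type*) [Field K] [Ring A] where
  u : K → A
  h : Kˣ → A
  w : A
  u_zero : u 0 = 1
  u_add : ∀ x y, u (x + y) = u x * u y
  h_one : h 1 = 1
  h_mul : ∀ s t, h (s * t) = h s * h t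
  h_neg : ∀ t, h (-t) = h t
  w_mul : w * w = 1
  hu : ∀ (s : Kˣ) (x : K), h s * u x = u ((s : K) ^ 2 * x) * h s
  wh : ∀ s, w * h s = h s⁻¹ * w
  wuw : ∀ a : Kˣ, w * u a * w = u (-(a : K)⁻¹) * w * h a * u (-(a : K)⁻¹)

section Fin

variable {K : Type*} [Field K] (l : ℕ) [Fact l.Prime] [Algebra (ZMod l) K]

theorem span_finite (S : Finset K) :
    (Submodule.span (ZMod l) (S : Set K) : Set K).Finite := by
  have : Module.Finite (ZMod l) (Submodule.span (ZMod l) (S : Set K)) :=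
    FiniteDimensional.span_finset (ZMod l) S
  have : Finite (Submodule.span (ZMod l) (S : Set K)) := Module.finite_of_finite (ZMod l)
  exact Set.toFinite _

/-- the finite additive subgroup generated by a finite set -/
noncomputable def V (S : Finset K) : Finset K := (span_finite l S).toFinset

variable {l}

theorem mem_V {S : Finset K} {x : K} : x ∈ V l S ↔ x ∈ Submodule.span (ZMod l) (S : Set K) := by
  simp [V]

theorem subset_V (S : Finset K) : S ⊆ V l S := fun x hx =>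
  mem_V.2 (Submodule.subset_span (by exact_mod_cast hx))

theorem V_zero (S : Finset K) : (0 : K) ∈ V l S := mem_V.2 (Submodule.zero_mem _)

theorem V_add {S : Finset K} {x y : K} (hx : x ∈ V l S) (hy : y ∈ V l S) : x + y ∈ V l S :=
  mem_V.2 (Submodule.add_mem _ (mem_V.1 hx) (mem_V.1 hy))

theorem V_sub {S : Finset K} {x y : K} (hx : x ∈ V l S) (hy : y ∈ V l S) : x - y ∈ V l S :=
  mem_V.2 (Submodule.sub_mem _ (mem_V.1 hx) (mem_V.1 hy))

theorem V_neg {S : Finset K} {x : K} (hx : x ∈ V l S) : -x ∈ V l S :=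
  mem_V.2 (Submodule.neg_mem _ (mem_V.1 hx))

theorem V_mul {S T : Finset K} {c : K} (h : ∀ x ∈ S, c * x ∈ V l T) {x : K} (hx : x ∈ V l S) :
    c * x ∈ V l T := by
  have h1 : Submodule.span (ZMod l) (S : Set K) ≤
      (Submodule.span (ZMod l) (T : Set K)).comap (LinearMap.mulLeft (ZMod l) c) := by
    rw [Submodule.span_le]
    intro y hy
    exact mem_V.1 (h y (by exact_mod_cast hy))
  exact mem_V.2 (h1 (mem_V.1 hx))

theorem V_subset {S T : Finset K} (h : ∀ x ∈ S, x ∈ V l T) {x : K} (hx : x ∈ V l S) :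
    x ∈ V l T := by
  have := V_mul (l := l) (S := S) (T := T) (c := 1) (fun x hx => by simpa using h x hx) hx
  simpa using this

theorem V_mono {S T : Finset K} (h : S ⊆ T) {x : K} (hx : x ∈ V l S) : x ∈ V l T :=
  V_subset (fun _ hy => subset_V T (h hy)) hx

/-- functionals that agree on `S` agree on `V S` -/
theorem V_eq {S : Finset K} {c : K} {ψ χ : K →ₗ[ZMod l] ZMod l} (h : ∀ x ∈ S, ψ (c * x) = χ x)
    {x : K} (hx : x ∈ V l S) : ψ (c * x) = χ x := by
  have h1 : Submodule.span (ZMod l) (S : Set K) ≤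
      LinearMap.ker (ψ ∘ₗ LinearMap.mulLeft (ZMod l) c - χ) := by
    rw [Submodule.span_le]
    intro y hy
    simp [h y (by exact_mod_cast hy)]
  have := h1 (mem_V.1 hx)
  simpa [sub_eq_zero] using this

theorem V_eq' {S : Finset K} {ψ χ : K →ₗ[ZMod l] ZMod l} (h : ∀ x ∈ S, ψ x = χ x)
    {x : K} (hx : x ∈ V l S) : ψ x = χ x := by
  have := V_eq (c := 1) (ψ := ψ) (χ := χ) (fun x hx => by simpa using h x hx) hx
  simpa using this

theorem card_V (S : Finset K) : ∃ n, (V l S).card = l ^ n := by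
  have : Module.Finite (ZMod l) (Submodule.span (ZMod l) (S : Set K)) :=
    FiniteDimensional.span_finset (ZMod l) S
  have : Finite (Submodule.span (ZMod l) (S : Set K)) := Module.finite_of_finite (ZMod l)
  have : Fintype (Submodule.span (ZMod l) (S : Set K)) := Fintype.ofFinite _
  have : Fintype (ZMod l) := Fintype.ofFinite _
  refine ⟨Module.finrank (ZMod l) (Submodule.span (ZMod l) (S : Set K)), ?_⟩
  have h1 := Module.card_eq_pow_finrank (K := ZMod l)
    (V := Submodule.span (ZMod l) (S : Set K))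
  rw [ZMod.card] at h1
  rw [← h1, ← Fintype.card_coe]
  refine Fintype.card_congr ⟨fun x => ⟨x, mem_V.1 x.2⟩, fun x => ⟨x, mem_V.2 x.2⟩, ?_, ?_⟩
  · intro x; rfl
  · intro x; rfl

theorem card_V_ne {P : Type*} [Field P] (hP : (l : P) ≠ 0) (S : Finset K) :
    ((V l S).card : P) ≠ 0 := by
  obtain ⟨n, hn⟩ := card_V (l := l) S
  rw [hn]
  push_cast
  exact pow_ne_zero _ hP

end Fin

section N

variable {K P A : Type*} [Field K] [Field P] [Ring A] [Algebra P A] {l : ℕ} [Fact l.Prime]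
  [Algebra (ZMod l) K] (R : Rel K A) (ε : AddChar (ZMod l) P)

/-- the sum over a finite subgroup of the root group with coefficients a character -/
noncomputable def N (S : Finset K) (χ : K →ₗ[ZMod l] ZMod l) : A :=
  ∑ x ∈ V l S, ε (-(χ x)) • R.u x

variable {R} {ε}

theorem Rel.u_comm (R : Rel K A) (x y : K) : R.u x * R.u y = R.u y * R.u x := by
  rw [← R.u_add, ← R.u_add, add_comm]

theorem N_mul_u {S : Finset K} (χ : K →ₗ[ZMod l] ZMod l) {y : K} (hy : y ∈ V l S) :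
    N R ε S χ * R.u y = ε (χ y) • N R ε S χ := by
  unfold N
  rw [Finset.sum_mul, Finset.smul_sum]
  refine Finset.sum_bij' (fun x _ => x + y) (fun x _ => x - y) ?_ ?_ ?_ ?_ ?_
  · intro x hx; exact V_add hx hy
  · intro x hx; exact V_sub hx hy
  · intro x hx; simp
  · intro x hx; simp
  · intro x hx
    rw [smul_mul_assoc, ← R.u_add, smul_smul, ← AddChar.map_add_eq_mul]
    congr 2
    rw [map_add]
    ring

theorem u_mul_N {S : Finset K} (χ : K →ₗ[ZMod l] ZMod l) {y : K} (hy : y ∈ V l S) :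
    R.u y * N R ε S χ = ε (χ y) • N R ε S χ := by
  rw [← N_mul_u χ hy]
  unfold N
  rw [Finset.sum_mul, Finset.mul_sum]
  refine Finset.sum_congr rfl fun x _ => ?_
  rw [mul_smul_comm, smul_mul_assoc, R.u_comm]

theorem N_h_N {S T : Finset K} {χ ψ : K →ₗ[ZMod l] ZMod l} (s : Kˣ)
    (m : ∀ x ∈ S, (s : K) ^ 2 * x ∈ V l T) (e : ∀ x ∈ S, ψ ((s : K) ^ 2 * x) = χ x) :
    N R ε T ψ * R.h s * N R ε S χ = ((V l S).card : P) • (N R ε T ψ * R.h s) := by
  conv_lhs => rw [N.eq_def R ε S χ]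
  rw [Finset.mul_sum, Nat.cast_smul_eq_nsmul, ← Finset.sum_const]
  refine Finset.sum_congr rfl fun x hx => ?_
  rw [mul_smul_comm, mul_assoc, R.hu, ← mul_assoc, N_mul_u ψ (V_mul m hx), smul_mul_assoc, smul_smul,
    ← AddChar.map_add_eq_mul, V_eq e hx, neg_add_cancel, AddChar.map_zero_eq_one, one_smul]

theorem Rel.uh (R : Rel K A) (s : Kˣ) (x : K) :
    R.u x * R.h s = R.h s * R.u (((s⁻¹ : Kˣ) : K) ^ 2 * x) := by
  rw [R.hu, ← mul_assoc, ← mul_pow]
  simp

theorem N_h_N' {S T : Finset K} {χ ψ : K →ₗ[ZMod l] ZMod l} (s : Kˣ)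
    (m : ∀ x ∈ S, ((s⁻¹ : Kˣ) : K) ^ 2 * x ∈ V l T)
    (e : ∀ x ∈ S, ψ (((s⁻¹ : Kˣ) : K) ^ 2 * x) = χ x) :
    N R ε S χ * R.h s * N R ε T ψ = ((V l S).card : P) • (R.h s * N R ε T ψ) := by
  conv_lhs => rw [N.eq_def R ε S χ]
  rw [Finset.sum_mul, Finset.sum_mul, Nat.cast_smul_eq_nsmul, ← Finset.sum_const]
  refine Finset.sum_congr rfl fun x hx => ?_
  rw [smul_mul_assoc, smul_mul_assoc, R.uh, mul_assoc, u_mul_N ψ (V_mul m hx), mul_smul_comm,
    smul_smul, ← AddChar.map_add_eq_mul, V_eq e hx, neg_add_cancel, AddChar.map_zero_eq_one, one_smul]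

/-- transport of a relation by elements of the torus -/
theorem transfer (hP : (l : P) ≠ 0) {S T T' : Finset K} {χ χ' ψ ψ' : K →ₗ[ZMod l] ZMod l} {X : A}
    (h0 : N R ε S χ * X * N R ε S χ' = 0) (s s' : Kˣ)
    (m : ∀ x ∈ S, (s : K) ^ 2 * x ∈ V l T) (e : ∀ x ∈ S, ψ ((s : K) ^ 2 * x) = χ x)
    (m' : ∀ x ∈ S, ((s'⁻¹ : Kˣ) : K) ^ 2 * x ∈ V l T')
    (e' : ∀ x ∈ S, ψ' (((s'⁻¹ : Kˣ) : K) ^ 2 * x) = χ' x) :
    N R ε T ψ * (R.h s * X * R.h s') * N R ε T' ψ' = 0 := by
  have h1 : N R ε T ψ * R.h s * (N R ε S χ * X * N R ε S χ') * (R.h s' * N R ε T' ψ') = 0 := by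
    rw [h0]; simp
  have h2 : N R ε T ψ * R.h s * (N R ε S χ * X * N R ε S χ') * (R.h s' * N R ε T' ψ') =
      (N R ε T ψ * R.h s * N R ε S χ) * X * (N R ε S χ' * R.h s' * N R ε T' ψ') := by
    simp only [mul_assoc]
  rw [h2, N_h_N s m e, N_h_N' s' m' e', smul_mul_assoc, smul_mul_assoc, mul_smul_comm, smul_smul] at h1
  have hc : ((V l S).card : P) * ((V l S).card : P) ≠ 0 :=
    mul_ne_zero (card_V_ne hP S) (card_V_ne hP S)
  have h3 := (smul_eq_zero.1 h1).resolve_left hc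
  rw [← h3]
  simp only [mul_assoc]

/-- extension of a relation to larger subgroups -/
theorem extend (hP : (l : P) ≠ 0) {S T T' : Finset K} {χ χ' ψ ψ' : K →ₗ[ZMod l] ZMod l} {X : A}
    (h0 : N R ε S χ * X * N R ε S χ' = 0)
    (m : ∀ x ∈ S, x ∈ V l T) (e : ∀ x ∈ S, ψ x = χ x)
    (m' : ∀ x ∈ S, x ∈ V l T') (e' : ∀ x ∈ S, ψ' x = χ' x) :
    N R ε T ψ * X * N R ε T' ψ' = 0 := by
  have := transfer hP h0 1 1 (T := T) (T' := T') (ψ := ψ) (ψ' := ψ') (by simpa using m)
    (by simpa using e) (by simpa using m') (by simpa using e')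
  simpa [R.h_one] using this

end N

end H36Aug
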