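import Pool.Agent.Helper36.Aug.GenN

/-!
Algebras with elements that satisfy the relations of `PSL_n(K)` with respect to a maximal parabolic
subgroup and its opposite; the ideal of the group algebra of the Levi subgroup.
-/

set_option autoImplicit false

namespace H36Aug

namespace M

open Filter Matrix

section Defs

variable {ι K : Type*} [Fintype ι] [DecidableEq ι] [Field K]

/-- the matrix `1 - d⁻¹ x y`, `d = 1 + y x`, with inverse `1 + x y` -/
def Tm (x y : ι → K) (hd : 1 + y ⬝ᵥ x ≠ 0) : GL ι K where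
  val := 1 - (1 + y ⬝ᵥ x)⁻¹ • vecMulVec x y
  inv := 1 + vecMulVec x y
  val_inv := by
    have h1 : vecMulVec x y * vecMulVec x y = (y ⬝ᵥ x) • vecMulVec x y := by
      rw [vecMulVec_mul_vecMulVec]
      ext i j
      simp [vecMulVec_apply]
      ring
    rw [sub_mul, mul_add, mul_add, one_mul, one_mul, mul_one, smul_mul_assoc, h1, smul_smul]
    have h2 : 1 + vecMulVec x y - ((1 + y ⬝ᵥ x)⁻¹ • vecMulVec x y +
        ((1 + y ⬝ᵥ x)⁻¹ * (y ⬝ᵥ x)) • vecMulVec x y) =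
        1 + (1 - (1 + y ⬝ᵥ x)⁻¹ * (1 + y ⬝ᵥ x)) • vecMulVec x y := by
      module
    rw [h2, inv_mul_cancel₀ hd, sub_self, zero_smul, add_zero]
  inv_val := by
    have h1 : vecMulVec x y * vecMulVec x y = (y ⬝ᵥ x) • vecMulVec x y := by
      rw [vecMulVec_mul_vecMulVec]
      ext i j
      simp [vecMulVec_apply]
      ring
    rw [add_mul, mul_sub, mul_sub, mul_one, mul_one, one_mul, mul_smul_comm, h1, smul_smul]
    have h2 : 1 - (1 + y ⬝ᵥ x)⁻¹ • vecMulVec x y +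
        (vecMulVec x y - ((1 + y ⬝ᵥ x)⁻¹ * (y ⬝ᵥ x)) • vecMulVec x y) =
        1 + (1 - (1 + y ⬝ᵥ x)⁻¹ * (1 + y ⬝ᵥ x)) • vecMulVec x y := by
      module
    rw [h2, inv_mul_cancel₀ hd, sub_self, zero_smul, add_zero]

theorem Tm_val (x y : ι → K) (hd : 1 + y ⬝ᵥ x ≠ 0) :
    (Tm x y hd).1 = 1 - (1 + y ⬝ᵥ x)⁻¹ • vecMulVec x y := rfl

/-- scalar matrices -/
def zz (ι : Type*) [Fintype ι] [DecidableEq ι] (a : Kˣ) : GL ι K where
  val := (a : K) • 1
  inv := ((a⁻¹ : Kˣ) : K) • 1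
  val_inv := by simp [smul_smul]
  inv_val := by simp [smul_smul]

theorem zz_val (a : Kˣ) : (zz ι a).1 = (a : K) • (1 : Matrix ι ι K) := rfl

theorem zz_mul (a b : Kˣ) : zz ι (a * b) = zz ι a * zz ι b := by
  refine Units.ext ?_
  change ((a * b : Kˣ) : K) • (1 : Matrix ι ι K) = ((a : K) • 1) * ((b : K) • 1)
  simp [smul_smul, mul_comm]

theorem zz_one : zz ι (1 : Kˣ) = 1 := by
  refine Units.ext ?_
  change ((1 : Kˣ) : K) • (1 : Matrix ι ι K) = 1
  simp

theorem zz_comm (a : Kˣ) (B : GL ι K) : zz ι a * B = B * zz ι a := by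
  refine Units.ext ?_
  change ((a : K) • (1 : Matrix ι ι K)) * B.1 = B.1 * ((a : K) • 1)
  simp

theorem zz_det (a : Kˣ) : (zz ι a).1.det = (a : K) ^ Fintype.card ι := by
  rw [zz_val, det_smul, det_one, mul_one]

end Defs

/-- elements of a ring that satisfy the relations of `PSL_n(K)` -/
structure RelN (ι K A : Type*) [Fintype ι] [DecidableEq ι] [Field K] [Ring A] where
  u : Act (ι → K) A
  v : Act (ι → K) A
  h : GL ι K →* A
  hu : ∀ (B : GL ι K) (x : ι → K), h B * u.f x = u.f (B.1.det • (B.1 *ᵥ x)) * h B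
  hv : ∀ (B : GL ι K) (y : ι → K), h B * v.f y = v.f (B.1.det⁻¹ • (y ᵥ* (B⁻¹).1)) * h B
  vu : ∀ (x y : ι → K) (hd : 1 + y ⬝ᵥ x ≠ 0),
    v.f y * u.f x = u.f ((1 + y ⬝ᵥ x)⁻¹ • x) * h (Tm x y hd) * v.f ((1 + y ⬝ᵥ x)⁻¹ • y)
  h_eq : ∀ B C : GL ι K, B.1.det • B.1 = C.1.det • C.1 → h B = h C

variable {ι K P A : Type*} [Fintype ι] [DecidableEq ι] [Field K] [Field P] [Ring A] [Algebra P A]
  {l : ℕ} [Fact l.Prime] [Algebra (ZMod l) K]

/-- multiplication by a scalar -/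
def sl (l : ℕ) [Fact l.Prime] [Algebra (ZMod l) K] (c : K) : (ι → K) →ₗ[ZMod l] (ι → K) where
  toFun x := c • x
  map_add' := smul_add c
  map_smul' r x := by
    ext i
    simp

/-- action of the Levi subgroup on columns -/
def au (l : ℕ) [Fact l.Prime] [Algebra (ZMod l) K] (B : GL ι K) :
    (ι → K) →ₗ[ZMod l] (ι → K) where
  toFun x := B.1.det • (B.1 *ᵥ x)
  map_add' x y := by rw [mulVec_add, smul_add]
  map_smul' r x := by
    simp only [RingHom.id_apply]
    rw [mulVec_smul, smul_comm]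

/-- action of the Levi subgroup on rows, from the right -/
def av (l : ℕ) [Fact l.Prime] [Algebra (ZMod l) K] (B : GL ι K) :
    (ι → K) →ₗ[ZMod l] (ι → K) where
  toFun y := B.1.det • (y ᵥ* B.1)
  map_add' x y := by rw [add_vecMul, smul_add]
  map_smul' r x := by
    simp only [RingHom.id_apply]
    rw [smul_vecMul, smul_comm]

theorem RelN.hv' (R : RelN ι K A) (B : GL ι K) (y : ι → K) :
    R.v.f y * R.h B = R.h B * R.v.f (B.1.det • (y ᵥ* B.1)) := by
  rw [R.hv, smul_vecMul, smul_smul, vecMul_vecMul]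
  have h1 : B.1 * (B⁻¹).1 = 1 := B.mul_inv
  have h2 : B.1.det ≠ 0 := by
    have := congrArg det h1
    rw [det_mul, det_one] at this
    exact left_ne_zero_of_mul (by rw [this]; exact one_ne_zero)
  rw [h1, vecMul_one, inv_mul_cancel₀ h2, one_smul]

/-- the group algebra of the Levi subgroup acts -/
noncomputable def hA (P : Type*) [Field P] [Algebra P A] (R : RelN ι K A) :
    MonoidAlgebra P (GL ι K) →ₐ[P] A :=
  MonoidAlgebra.lift P A (GL ι K) R.h

theorem hA_single (R : RelN ι K A) (t : GL ι K) (r : P) :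
    hA P R (MonoidAlgebra.single t r) = r • R.h t := by
  simp [hA]

theorem hA_zz (R : RelN ι K A) (C : MonoidAlgebra P (GL ι K)) (a : Kˣ) :
    R.h (zz ι a) * hA P R C = hA P R C * R.h (zz ι a) := by
  have h1 : R.h (zz ι a) = hA P R (MonoidAlgebra.single (zz ι a) 1) := by simp [hA_single]
  rw [h1, ← map_mul, ← map_mul]
  congr 1
  induction C using MonoidAlgebra.induction_linear with
  | zero => simp
  | add x y hx hy => rw [mul_add, add_mul, hx, hy]
  | single t r =>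
    rw [MonoidAlgebra.single_mul_single, MonoidAlgebra.single_mul_single, zz_comm, one_mul, mul_one]

/-- `X` is killed between two character sums -/
def Good (R : RelN ι K A) (ε : AddChar (ZMod l) P) (X : A) : Prop :=
  ∃ (S S' : Finset (ι → K)) (χ χ' : (ι → K) →ₗ[ZMod l] ZMod l), N R.u ε S χ * X * N R.v ε S' χ' = 0

variable {R : RelN ι K A} {ε : AddChar (ZMod l) P}

omit [DecidableEq ι] in
theorem gen_vec {n : ℕ} (hn : n ≠ 0) (f d : ι → K) (h : ¬ (f = 0 ∧ d = 0)) :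
    ∀ᶠ a : K in cofinite, f + a ^ n • d ≠ 0 := by
  by_cases hd : d = 0
  · refine Filter.Eventually.of_forall fun a ha => h ⟨?_, hd⟩
    rw [hd, smul_zero, add_zero] at ha
    exact ha
  · obtain ⟨i, hi⟩ : ∃ i, d i ≠ 0 := by
      by_contra hno
      push Not at hno
      exact hd (funext hno)
    let p : Polynomial K := Polynomial.C (f i) + Polynomial.C (d i) * Polynomial.X ^ n
    have hp : p ≠ 0 := by
      intro h0
      have c1 : p.coeff n = d i := by simp [p, Polynomial.coeff_C, hn]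
      rw [h0, Polynomial.coeff_zero] at c1
      exact hi c1.symm
    rw [Filter.eventually_cofinite]
    refine (Polynomial.finite_setOfPred_isRoot hp).subset ?_
    intro a ha
    simp only [Set.mem_ofPred_eq, ne_eq, not_not] at ha
    have := congrFun ha i
    simp only [Pi.add_apply, Pi.smul_apply, smul_eq_mul, Pi.zero_apply] at this
    simp only [Set.mem_ofPred_eq, Polynomial.IsRoot.def, p, Polynomial.eval_add, Polynomial.eval_C,
      Polynomial.eval_mul, Polynomial.eval_pow, Polynomial.eval_X]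
    rw [← this]
    ring

omit [Fintype ι] [DecidableEq ι] in
theorem ext2 {S T : Finset (ι → K)} {χ ψ : (ι → K) →ₗ[ZMod l] ZMod l} {c : K} (hc : c ≠ 0)
    (h : ∀ f ∈ V l T, ∀ d ∈ V l S, ¬ (f = 0 ∧ d = 0) → f + c • d ≠ 0) :
    ∃ ψ' : (ι → K) →ₗ[ZMod l] ZMod l, (∀ x ∈ T, ψ' x = ψ x) ∧ ∀ x ∈ S, ψ' (c • x) = χ x := by
  obtain ⟨ψ', e1, e2, -, -⟩ := ext3 (Submodule.span (ZMod l) (T : Set (ι → K)))
    ((Submodule.span (ZMod l) (S : Set (ι → K))).map (sl l c)) ⊥ ⊥ ψ (χ ∘ₗ sl l c⁻¹) 0 (by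
      rintro a ha b ⟨d, hd, rfl⟩ e he hmem
      rw [Submodule.mem_bot] at he hmem
      subst he
      rw [add_zero] at hmem
      have h1 : a = 0 ∧ d = 0 := by
        by_contra hn
        exact h a (mem_V.2 ha) d (mem_V.2 hd) hn hmem
      rw [h1.1, h1.2]
      simp)
  refine ⟨ψ', fun x hx => e1 x (Submodule.subset_span (by exact_mod_cast hx)), fun x hx => ?_⟩
  have := e2 (c • x) ⟨x, Submodule.subset_span (by exact_mod_cast hx), rfl⟩
  rw [this]
  change χ (c⁻¹ • (c • x)) = χ x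
  rw [smul_smul, inv_mul_cancel₀ hc, one_smul]

/-- the two characters can be chosen to extend given ones -/
theorem diag [Infinite K] (hP : (l : P) ≠ 0) {X : A}
    (hX : ∀ a : Kˣ, R.h (zz ι a) * X = X * R.h (zz ι a)) (hg : Good R ε X)
    (T T' : Finset (ι → K)) (ψ ψ' : (ι → K) →ₗ[ZMod l] ZMod l) :
    ∃ (T1 T1' : Finset (ι → K)) (ψ1 ψ1' : (ι → K) →ₗ[ZMod l] ZMod l), T ⊆ T1 ∧ T' ⊆ T1' ∧
      (∀ x ∈ T, ψ1 x = ψ x) ∧ (∀ x ∈ T', ψ1' x = ψ' x) ∧
      N R.u ε T1 ψ1 * X * N R.v ε T1' ψ1' = 0 := by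
  classical
  obtain ⟨S, S', χ, χ', h0⟩ := hg
  set n := Fintype.card ι + 1 with hn
  have hn0 : n ≠ 0 := by omega
  have hne : ∀ᶠ s : K in cofinite, s ≠ 0 := by
    rw [Filter.eventually_cofinite]
    refine (Set.finite_singleton (0 : K)).subset ?_
    intro s hs
    simpa using hs
  have g1 : ∀ᶠ a : K in cofinite, ∀ f ∈ V l T, ∀ d ∈ V l S, ¬ (f = 0 ∧ d = 0) →
      f + a ^ n • d ≠ 0 := by
    rw [Filter.eventually_all_finset]
    intro f _
    rw [Filter.eventually_all_finset]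
    intro d _
    by_cases hfd : f = 0 ∧ d = 0
    · exact Filter.Eventually.of_forall fun s hs => absurd hfd hs
    · exact (gen_vec hn0 f d hfd).mono fun s hs _ => hs
  have g2 : ∀ᶠ a : K in cofinite, ∀ f ∈ V l T', ∀ d ∈ V l S', ¬ (f = 0 ∧ d = 0) →
      d + a ^ n • f ≠ 0 := by
    rw [Filter.eventually_all_finset]
    intro f _
    rw [Filter.eventually_all_finset]
    intro d _
    by_cases hfd : f = 0 ∧ d = 0
    · exact Filter.Eventually.of_forall fun s hs => absurd hfd hs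
    · exact (gen_vec hn0 d f (fun h => hfd ⟨h.2, h.1⟩)).mono fun s hs _ => hs
  obtain ⟨a0, ⟨ha0, h1⟩, h2⟩ := ((hne.and g1).and g2).exists
  let a : Kˣ := Units.mk0 a0 ha0
  have hc : a0 ^ n ≠ 0 := pow_ne_zero _ ha0
  have hc' : (a0 ^ n)⁻¹ ≠ 0 := inv_ne_zero hc
  obtain ⟨ψ1, e1, e2⟩ := ext2 (ψ := ψ) (χ := χ) hc h1
  obtain ⟨ψ1', e1', e2'⟩ := ext2 (S := S') (T := T') (ψ := ψ') (χ := χ') hc' (by
    intro f hf d hd hfd h
    refine h2 f hf d hd hfd ?_
    have : d + a0 ^ n • f = a0 ^ n • (f + (a0 ^ n)⁻¹ • d) := by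
      rw [smul_add, smul_smul, mul_inv_cancel₀ hc, one_smul, add_comm]
    rw [this, h, smul_zero])
  have hdet : (zz ι a).1.det * (a : K) = a0 ^ n := by
    rw [zz_det, hn, pow_succ]
    rfl
  have hau : ∀ x : ι → K, R.h (zz ι a) * R.u.f x = R.u.f (sl l (a0 ^ n) x) * R.h (zz ι a) := by
    intro x
    rw [R.hu]
    congr 2
    change _ = a0 ^ n • x
    rw [zz_val, smul_mulVec, one_mulVec, smul_smul]
    rw [← hdet]
    rfl
  have hav : ∀ y : ι → K, R.v.f y * R.h (zz ι a⁻¹) = R.h (zz ι a⁻¹) * R.v.f (sl l (a0 ^ n)⁻¹ y) := by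
    intro y
    rw [R.hv']
    congr 2
    change _ = (a0 ^ n)⁻¹ • y
    rw [zz_val, vecMul_smul, vecMul_one, smul_smul]
    congr 1
    have h3 : (zz ι a⁻¹).1.det * ((a⁻¹ : Kˣ) : K) = ((a⁻¹ : Kˣ) : K) ^ n := by
      rw [zz_det, hn, pow_succ]
    rw [zz_val] at h3
    rw [h3]
    simp [a]
  refine ⟨T ∪ S.image (fun x => a0 ^ n • x), T' ∪ S'.image (fun x => (a0 ^ n)⁻¹ • x), ψ1, ψ1',
    Finset.subset_union_left, Finset.subset_union_left, e1, e1', ?_⟩
  have := transfer hP h0 hau hav (T := T ∪ S.image (fun x => a0 ^ n • x))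
    (T' := T' ∪ S'.image (fun x => (a0 ^ n)⁻¹ • x)) (ψ := ψ1) (ψ' := ψ1')
    (fun x hx => subset_V _ (Finset.mem_union_right _ (Finset.mem_image.2 ⟨x, hx, rfl⟩))) e2
    (fun x hx => subset_V _ (Finset.mem_union_right _ (Finset.mem_image.2 ⟨x, hx, rfl⟩))) e2'
  rwa [hX, mul_assoc X, ← map_mul, ← zz_mul, mul_inv_cancel, zz_one, map_one, mul_one] at this

theorem Good.zero : Good R ε 0 := ⟨∅, ∅, 0, 0, by simp⟩

theorem Good.add [Infinite K] (hP : (l : P) ≠ 0) {X Y : A}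
    (hX : ∀ a : Kˣ, R.h (zz ι a) * X = X * R.h (zz ι a))
    (hg : Good R ε X) (hg' : Good R ε Y) : Good R ε (X + Y) := by
  obtain ⟨T, T', ψ, ψ', h1⟩ := hg'
  obtain ⟨T1, T1', ψ1, ψ1', hT, hT', he, he', h2⟩ := diag hP hX hg T T' ψ ψ'
  refine ⟨T1, T1', ψ1, ψ1', ?_⟩
  have h3 := extend hP h1 (T := T1) (T' := T1') (ψ := ψ1) (ψ' := ψ1')
    (fun x hx => subset_V _ (hT hx)) he (fun x hx => subset_V _ (hT' hx)) he'
  rw [mul_add, add_mul, h2, h3, add_zero]

theorem Good.smul {X : A} (hg : Good R ε X) (r : P) : Good R ε (r • X) := by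
  obtain ⟨S, S', χ, χ', h0⟩ := hg
  refine ⟨S, S', χ, χ', ?_⟩
  rw [mul_smul_comm, smul_mul_assoc, h0, smul_zero]

theorem Good.left (hP : (l : P) ≠ 0) {X : A} (hg : Good R ε X) (B : GL ι K) :
    Good R ε (R.h B * X) := by
  classical
  obtain ⟨S, S', χ, χ', h0⟩ := hg
  have hinv : ∀ x, au l B⁻¹ (au l B x) = x := by
    intro x
    change (B⁻¹).1.det • ((B⁻¹).1 *ᵥ (B.1.det • (B.1 *ᵥ x))) = x
    have h1 : (B⁻¹).1 * B.1 = 1 := B.inv_mul
    rw [mulVec_smul, mulVec_mulVec, h1, one_mulVec, smul_smul, ← det_mul, h1, det_one, one_smul]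
  refine ⟨S.image (au l B), S', χ ∘ₗ au l B⁻¹, χ', ?_⟩
  have := transfer hP h0 (a := R.h B) (b := 1) (g := au l B) (g' := LinearMap.id)
    (T := S.image (au l B)) (T' := S') (ψ := χ ∘ₗ au l B⁻¹) (ψ' := χ') (R.hu B) (by simp)
    (fun x hx => subset_V _ (Finset.mem_image_of_mem _ hx))
    (fun x _ => by rw [LinearMap.comp_apply, hinv]) (fun x hx => subset_V _ hx) (fun x _ => rfl)
  rwa [mul_one] at this

theorem Good.right (hP : (l : P) ≠ 0) {X : A} (hg : Good R ε X) (B : GL ι K) :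
    Good R ε (X * R.h B) := by
  classical
  obtain ⟨S, S', χ, χ', h0⟩ := hg
  have hinv : ∀ x, av l B⁻¹ (av l B x) = x := by
    intro x
    change (B⁻¹).1.det • ((B.1.det • (x ᵥ* B.1)) ᵥ* (B⁻¹).1) = x
    have h1 : B.1 * (B⁻¹).1 = 1 := B.mul_inv
    rw [smul_vecMul, vecMul_vecMul, h1, vecMul_one, smul_smul, mul_comm, ← det_mul, h1, det_one,
      one_smul]
  refine ⟨S, S'.image (av l B), χ, χ' ∘ₗ av l B⁻¹, ?_⟩
  have := transfer hP h0 (a := 1) (b := R.h B) (g := LinearMap.id) (g' := av l B)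
    (T := S) (T' := S'.image (av l B)) (ψ := χ) (ψ' := χ' ∘ₗ av l B⁻¹) (by simp) (R.hv' B)
    (fun x hx => subset_V _ hx) (fun x _ => rfl)
    (fun x hx => subset_V _ (Finset.mem_image_of_mem _ hx))
    (fun x _ => by rw [LinearMap.comp_apply, hinv])
  rwa [one_mul] at this

/-- the subspace of the group algebra of the Levi subgroup -/
def CI [Infinite K] (hP : (l : P) ≠ 0) (R : RelN ι K A) (ε : AddChar (ZMod l) P) :
    Submodule P (MonoidAlgebra P (GL ι K)) where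
  carrier := {C | Good R ε (hA P R C)}
  add_mem' := by
    intro a b ha hb
    have := Good.add hP (hA_zz R a) ha hb
    simpa using this
  zero_mem' := by
    simpa using Good.zero
  smul_mem' := by
    intro c x hx
    have := Good.smul hx c
    simpa using this

theorem mem_CI [Infinite K] {hP : (l : P) ≠ 0} {C : MonoidAlgebra P (GL ι K)} :
    C ∈ CI hP R ε ↔ Good R ε (hA P R C) := Iff.rfl

end M

end H36Aug
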