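import Pool.Agent.Helper36.Aug.AllN

/-!
A homomorphism from `PSL_n(K)` to an algebra that satisfies a nontrivial linear relation is trivial.
-/

set_option autoImplicit false

namespace H36Aug

open Matrix

section Re

variable {m n K : Type*} [Fintype m] [DecidableEq m] [Fintype n] [DecidableEq n] [Field K]

/-- change of the index type -/
def rI0 (e : m ≃ n) (g : SpecialLinearGroup m K) : SpecialLinearGroup n K :=
  ⟨reindex e e g.1, by rw [det_reindex_self]; exact g.2⟩

/-- change of the index type -/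
def rI (e : m ≃ n) : SpecialLinearGroup m K →* SpecialLinearGroup n K where
  toFun := rI0 e
  map_one' := by
    refine M.SL_ext ?_
    change reindex e e (1 : Matrix m m K) = 1
    simp
  map_mul' g h := by
    refine M.SL_ext ?_
    rw [M.mul_val]
    change reindex e e (g.1 * h.1) = reindex e e g.1 * reindex e e h.1
    simp

theorem rI_val (e : m ≃ n) (g : SpecialLinearGroup m K) : (rI e g).1 = reindex e e g.1 := rfl

theorem rI_symm (e : m ≃ n) (g : SpecialLinearGroup n K) : rI e (rI e.symm g) = g := by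
  refine M.SL_ext ?_
  rw [rI_val, rI_val]
  ext i j
  simp

end Re

section Rep

variable {K P A : Type*} [Field K] [Field P] [Ring A] [Algebra P A]
  {l : ℕ} [Fact l.Prime] [Algebra (ZMod l) K] {ε : AddChar (ZMod l) P}

theorem rep_fin {n : ℕ} (hn : 2 ≤ n) [Infinite K] (hP : (l : P) ≠ 0)
    (hε : ∀ a : ZMod l, ε a = 1 → a = 0)
    (π : SpecialLinearGroup (Fin n) K →* A)
    (hz : ∀ g g' : SpecialLinearGroup (Fin n) K, (∃ z : K, g'.1 = z • g.1) → π g = π g')
    {κ : Type*} (s : Finset κ) (g : κ → SpecialLinearGroup (Fin n) K) (c : κ → P)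
    (hg : ∀ i ∈ s, ∀ j ∈ s, i ≠ j → ∀ z : K, (g j).1 ≠ z • (g i).1) (i0 : κ) (hi0 : i0 ∈ s)
    (hc : c i0 ≠ 0) (hrel : ∑ i ∈ s, c i • π (g i) = 0) (X : SpecialLinearGroup (Fin n) K) :
    π X = 1 := by
  obtain rfl | hn3 := hn.eq_or_lt
  · refine rep_trivial (ε := ε) hP hε π ?_ s g c ?_ i0 hi0 hc hrel X
    · rw [← map_one π]
      exact (hz 1 (-1) ⟨-1, by
        rw [SpecialLinearGroup.coe_neg, neg_smul, one_smul]⟩).symm
    · intro i hi j hj hij
      refine ⟨fun h => hg i hi j hj hij 1 ?_, fun h => hg i hi j hj hij (-1) ?_⟩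
      · rw [h, one_smul]
      · rw [h, SpecialLinearGroup.coe_neg, neg_smul, one_smul]
  · obtain ⟨k, rfl⟩ : ∃ k, n = k + 1 := ⟨n - 1, by omega⟩
    have hk : 1 < k := by omega
    have : Nontrivial (Fin k) := Fin.nontrivial_iff_two_le.2 hk
    let e : Fin k ⊕ Unit ≃ Fin (k + 1) := (Equiv.sumCongr (Equiv.refl _) (Equiv.ofUnique _ _)).trans
      finSumFinEquiv
    have h1 := M.rep_trivial (ε := ε) hP hε (π.comp (rI e)) (by
      rintro g g' ⟨z, h⟩
      change π (rI e g) = π (rI e g')
      refine hz _ _ ⟨z, ?_⟩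
      rw [rI_val, rI_val, h]
      rfl) s (fun i => rI e.symm (g i)) c (by
        intro i hi j hj hij z h
        refine hg i hi j hj hij z ?_
        have h2 : (rI e (rI e.symm (g j))).1 = z • (rI e (rI e.symm (g i))).1 := by
          rw [rI_val e, h, rI_val e (rI e.symm (g i))]
          rfl
        rwa [rI_symm, rI_symm] at h2) i0 hi0 hc (by
        rw [← hrel]
        refine Finset.sum_congr rfl fun i _ => ?_
        change c i • π (rI e (rI e.symm (g i))) = _
        rw [rI_symm]) (rI e.symm X)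
    change π (rI e (rI e.symm X)) = 1 at h1
    rwa [rI_symm] at h1

end Rep

end H36Aug
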