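import Pool.Agent.Helper36.Aug.Rel

/-!
The relations of `SL₂(K)`.
-/

set_option autoImplicit false

namespace H36Aug

open Matrix

variable {K : Type*} [Field K]

def U (x : K) : SpecialLinearGroup (Fin 2) K := ⟨!![1, x; 0, 1], by simp [Matrix.det_fin_two]⟩

def H (t : Kˣ) : SpecialLinearGroup (Fin 2) K :=
  ⟨!![(t : K), 0; 0, ((t⁻¹ : Kˣ) : K)], by simp [Matrix.det_fin_two]⟩

def Wm : SpecialLinearGroup (Fin 2) K := ⟨!![0, -1; 1, 0], by simp [Matrix.det_fin_two]⟩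

theorem U_val (x : K) : (U x).1 = !![1, x; 0, 1] := rfl

theorem H_val (x : Kˣ) : (H x).1 = !![(x : K), 0; 0, ((x⁻¹ : Kˣ) : K)] := rfl

theorem W_val : (Wm : SpecialLinearGroup (Fin 2) K).1 = !![0, -1; 1, 0] := rfl

theorem U_zero : U (0 : K) = 1 := by
  refine Subtype.ext ?_
  simp [U_val, Matrix.one_fin_two]

theorem U_add (x y : K) : U (x + y) = U x * U y := by
  refine Subtype.ext ?_
  simp [U_val, add_comm]

theorem H_one : H (1 : Kˣ) = 1 := by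
  refine Subtype.ext ?_
  simp [H_val, Matrix.one_fin_two]

theorem H_mul (s t : Kˣ) : H (s * t) = H s * H t := by
  refine Subtype.ext ?_
  simp [H_val, mul_comm]

theorem H_neg (t : Kˣ) : H (-t) = -1 * H t := by
  refine Subtype.ext ?_
  simp [H_val]

theorem W_mul : (Wm : SpecialLinearGroup (Fin 2) K) * Wm = -1 := by
  refine Subtype.ext ?_
  simp [W_val, Matrix.one_fin_two]

theorem H_U (s : Kˣ) (x : K) : H s * U x = U ((s : K) ^ 2 * x) * H s := by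
  refine Subtype.ext ?_
  have h0 : (s : K) ≠ 0 := s.ne_zero
  simp [U_val, H_val]
  field_simp

theorem W_H (s : Kˣ) : Wm * H s = H s⁻¹ * Wm := by
  refine Subtype.ext ?_
  simp [W_val, H_val]

theorem W_U_W (a : Kˣ) : Wm * U (a : K) * Wm = U (-(a : K)⁻¹) * Wm * H a * U (-(a : K)⁻¹) := by
  refine Subtype.ext ?_
  simp [W_val, H_val, U_val]

/-- the big cell -/
theorem bruhat (M : SpecialLinearGroup (Fin 2) K) (t : Kˣ) (ht : M.1 1 0 = t) :
    M = U (M.1 0 0 / M.1 1 0) * (Wm * H t) * U (M.1 1 1 / M.1 1 0) := by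
  have hd := M.2
  rw [Matrix.det_fin_two] at hd
  have h0 : (t : K) ≠ 0 := t.ne_zero
  refine Subtype.ext ?_
  rw [Matrix.eta_fin_two M.1]
  simp [W_val, H_val, U_val, ht]
  rw [ht] at hd
  field_simp
  refine ⟨?_, trivial⟩
  linear_combination -hd

theorem eq_pm {g g' : SpecialLinearGroup (Fin 2) K}
    (v0 : g.1 0 1 * g'.1 1 1 - g'.1 0 1 * g.1 1 1 = 0)
    (v1 : g.1 0 0 * g'.1 1 1 + g.1 0 1 * g'.1 1 0 - g'.1 0 0 * g.1 1 1 - g'.1 0 1 * g.1 1 0 = 0)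
    (v2 : g.1 0 0 * g'.1 1 0 - g'.1 0 0 * g.1 1 0 = 0) : g' = g ∨ g' = -g := by
  have hd := g.2
  have hd' := g'.2
  rw [Matrix.det_fin_two] at hd hd'
  have k : (g'.1 0 0 * g.1 1 1 - g.1 0 1 * g'.1 1 0) ^ 2 = 1 := by
    linear_combination (-(g'.1 0 0 * g.1 1 1 - g.1 0 1 * g'.1 1 0)) * v1 -
      (g.1 0 0 * g'.1 1 0 - g'.1 0 0 * g.1 1 0) * v0 +
      (g'.1 0 0 * g'.1 1 1 - g'.1 0 1 * g'.1 1 0) * hd + hd'
  have e1 : g'.1 0 0 = (g'.1 0 0 * g.1 1 1 - g.1 0 1 * g'.1 1 0) * g.1 0 0 := by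
    linear_combination g.1 0 1 * v2 - g'.1 0 0 * hd
  have e2 : g'.1 1 0 = (g'.1 0 0 * g.1 1 1 - g.1 0 1 * g'.1 1 0) * g.1 1 0 := by
    linear_combination g.1 1 1 * v2 - g'.1 1 0 * hd
  have e3 : g'.1 0 1 = (g'.1 0 0 * g.1 1 1 - g.1 0 1 * g'.1 1 0) * g.1 0 1 := by
    linear_combination -g.1 0 0 * v0 + g.1 0 1 * v1 - g'.1 0 1 * hd
  have e4 : g'.1 1 1 = (g'.1 0 0 * g.1 1 1 - g.1 0 1 * g'.1 1 0) * g.1 1 1 := by
    linear_combination -g.1 1 0 * v0 + g.1 1 1 * v1 - g'.1 1 1 * hd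
  have k' : (g'.1 0 0 * g.1 1 1 - g.1 0 1 * g'.1 1 0) ^ 2 = (1 : K) ^ 2 := by rw [k, one_pow]
  rcases sq_eq_sq_iff_eq_or_eq_neg.1 k' with h | h
  · left
    rw [h] at e1 e2 e3 e4
    refine Subtype.ext ?_
    rw [Matrix.eta_fin_two g'.1, Matrix.eta_fin_two g.1, e1, e2, e3, e4]
    simp
  · right
    rw [h] at e1 e2 e3 e4
    refine Subtype.ext ?_
    rw [SpecialLinearGroup.coe_neg, Matrix.eta_fin_two g'.1, Matrix.eta_fin_two g.1, e1, e2, e3, e4]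
    simp

variable {A : Type*} [Ring A]

/-- a homomorphism from `SL₂(K)` that is trivial on `-1` -/
def relOf (π : SpecialLinearGroup (Fin 2) K →* A) (h1 : π (-1) = 1) : Rel K A where
  u x := π (U x)
  h t := π (H t)
  w := π Wm
  u_zero := by rw [U_zero, map_one]
  u_add x y := by rw [U_add, map_mul]
  h_one := by rw [H_one, map_one]
  h_mul s t := by rw [H_mul, map_mul]
  h_neg t := by rw [H_neg, map_mul, h1, one_mul]
  w_mul := by rw [← map_mul, W_mul, h1]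
  hu s x := by rw [← map_mul, H_U, map_mul]
  wh s := by rw [← map_mul, W_H, map_mul]
  wuw a := by rw [← map_mul, ← map_mul, W_U_W, map_mul, map_mul, map_mul]

end H36Aug
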