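import Pool.Agent.Helper36.Aug.RelN

/-!
The relations of `SL_n(K)` with respect to the stabilizer of a line.
-/

set_option autoImplicit false

namespace H36Aug

namespace M

open Matrix

variable {ι K : Type*} [Fintype ι] [DecidableEq ι] [Field K]

theorem SL_ext {n : Type*} [Fintype n] [DecidableEq n] {g g' : SpecialLinearGroup n K}
    (h : g.1 = g'.1) : g = g' := Subtype.ext h

theorem mul_val {n : Type*} [Fintype n] [DecidableEq n] (g g' : SpecialLinearGroup n K) :
    (g * g').1 = g.1 * g'.1 := rfl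

theorem one_val {n : Type*} [Fintype n] [DecidableEq n] :
    (1 : SpecialLinearGroup n K).1 = 1 := rfl

/-- block matrices -/
def bl (B : Matrix ι ι K) (b c : ι → K) (d : K) : Matrix (ι ⊕ Unit) (ι ⊕ Unit) K :=
  fromBlocks B (replicateCol Unit b) (replicateRow Unit c) (d • 1)

theorem bl_mul (B B' : Matrix ι ι K) (b c b' c' : ι → K) (d d' : K) :
    bl B b c d * bl B' b' c' d' =
      bl (B * B' + vecMulVec b c') (B *ᵥ b' + d' • b) (c ᵥ* B' + d • c') (c ⬝ᵥ b' + d * d') := by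
  rw [bl, bl, fromBlocks_multiply, bl]
  congr 1
  · rw [vecMulVec_eq Unit]
  · ext i j
    simp [mulVec, dotProduct, Matrix.mul_apply, mul_comm d']
  · ext i j
    simp [vecMul, dotProduct, Matrix.mul_apply]
  · ext i j
    simp [dotProduct, Matrix.mul_apply]
    ring

theorem bl_one : bl (1 : Matrix ι ι K) 0 0 1 = 1 := by
  rw [bl, ← fromBlocks_one]
  congr 1
  · ext i j; simp

theorem bl_smul (z : K) (B : Matrix ι ι K) (b c : ι → K) (d : K) :
    z • bl B b c d = bl (z • B) (z • b) (z • c) (z * d) := by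
  rw [bl, fromBlocks_smul, bl]
  congr 1
  rw [smul_smul]

theorem bl_det (B : Matrix ι ι K) (b c : ι → K) {d : K} (hd : d ≠ 0) :
    (bl B b c d).det = d * (B - d⁻¹ • vecMulVec b c).det := by
  let inv : Invertible (d • (1 : Matrix Unit Unit K)) :=
    { invOf := d⁻¹ • 1
      invOf_mul_self := by simp [smul_smul, hd]
      mul_invOf_self := by simp [smul_smul, hd] }
  rw [bl, det_fromBlocks₂₂]
  congr 1
  · simp
  · congr 2
    have e : ⅟(d • (1 : Matrix Unit Unit K)) = d⁻¹ • 1 := rfl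
    rw [e, vecMulVec_eq Unit, Matrix.mul_smul, Matrix.mul_one, Matrix.smul_mul]

theorem bl_eq (M : Matrix (ι ⊕ Unit) (ι ⊕ Unit) K) :
    M = bl (fun i j => M (Sum.inl i) (Sum.inl j)) (fun i => M (Sum.inl i) (Sum.inr ()))
      (fun j => M (Sum.inr ()) (Sum.inl j)) (M (Sum.inr ()) (Sum.inr ())) := by
  ext i j
  rcases i with i | i <;> rcases j with j | j
  · rfl
  · rfl
  · rfl
  · change M (Sum.inr i) (Sum.inr j) = (M (Sum.inr ()) (Sum.inr ()) • (1 : Matrix Unit Unit K)) i j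
    simp

/-- upper unipotent elements -/
def uG (x : ι → K) : SpecialLinearGroup (ι ⊕ Unit) K :=
  ⟨bl 1 x 0 1, by rw [bl_det _ _ _ one_ne_zero]; simp⟩

/-- lower unipotent elements -/
def vG (y : ι → K) : SpecialLinearGroup (ι ⊕ Unit) K :=
  ⟨bl 1 0 y 1, by rw [bl_det _ _ _ one_ne_zero]; simp⟩

theorem GL_det_ne (B : GL ι K) : B.1.det ≠ 0 := by
  have h1 : B.1 * (B⁻¹).1 = 1 := B.mul_inv
  have := congrArg det h1
  rw [det_mul, det_one] at this
  exact left_ne_zero_of_mul (by rw [this]; exact one_ne_zero)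

/-- the Levi subgroup -/
def hG0 (B : GL ι K) : SpecialLinearGroup (ι ⊕ Unit) K :=
  ⟨bl B.1 0 0 (B.1.det)⁻¹, by
    rw [bl_det _ _ _ (inv_ne_zero (GL_det_ne B))]
    simp [GL_det_ne B]⟩

/-- the Levi subgroup -/
def hG : GL ι K →* SpecialLinearGroup (ι ⊕ Unit) K where
  toFun := hG0
  map_one' := by
    refine SL_ext ?_
    change bl (1 : Matrix ι ι K) 0 0 ((1 : Matrix ι ι K).det)⁻¹ = 1
    rw [det_one, inv_one, bl_one]
  map_mul' B C := by
    refine SL_ext ?_
    rw [mul_val]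
    change bl (B.1 * C.1) 0 0 ((B.1 * C.1).det)⁻¹ = bl B.1 0 0 (B.1.det)⁻¹ * bl C.1 0 0 (C.1.det)⁻¹
    rw [bl_mul]
    simp [det_mul, mul_comm]

theorem uG_val (x : ι → K) : (uG x).1 = bl 1 x 0 1 := rfl

theorem vG_val (x : ι → K) : (vG x).1 = bl 1 0 x 1 := rfl

theorem hG_val (B : GL ι K) : (hG B).1 = bl B.1 0 0 (B.1.det)⁻¹ := rfl

theorem uG_zero : uG (0 : ι → K) = 1 := by
  refine SL_ext ?_
  rw [uG_val, bl_one]
  rfl

theorem vG_zero : vG (0 : ι → K) = 1 := by
  refine SL_ext ?_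
  rw [vG_val, bl_one]
  rfl

theorem uG_add (x y : ι → K) : uG (x + y) = uG x * uG y := by
  refine SL_ext ?_
  rw [mul_val, uG_val, uG_val, uG_val, bl_mul]
  simp [add_comm]

theorem vG_add (x y : ι → K) : vG (x + y) = vG x * vG y := by
  refine SL_ext ?_
  rw [mul_val, vG_val, vG_val, vG_val, bl_mul]
  simp

theorem hu (B : GL ι K) (x : ι → K) : hG B * uG x = uG (B.1.det • (B.1 *ᵥ x)) * hG B := by
  refine SL_ext ?_
  rw [mul_val, mul_val, uG_val, uG_val, hG_val, bl_mul, bl_mul]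
  simp [smul_smul, GL_det_ne B]

theorem hv (B : GL ι K) (y : ι → K) :
    hG B * vG y = vG (B.1.det⁻¹ • (y ᵥ* (B⁻¹).1)) * hG B := by
  refine SL_ext ?_
  have h1 : (B⁻¹).1 * B.1 = 1 := B.inv_mul
  rw [mul_val, mul_val, vG_val, vG_val, hG_val, bl_mul, bl_mul,
    smul_vecMul, vecMul_vecMul, h1]
  simp

theorem vu (x y : ι → K) (hd : 1 + y ⬝ᵥ x ≠ 0) :
    vG y * uG x = uG ((1 + y ⬝ᵥ x)⁻¹ • x) * hG (Tm x y hd) * vG ((1 + y ⬝ᵥ x)⁻¹ • y) := by
  have hdet : (Tm x y hd).1.det⁻¹ = 1 + y ⬝ᵥ x := by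
    have h1 : (Tm x y hd).1 * (1 + vecMulVec x y) = 1 := (Tm x y hd).mul_inv
    have h2 := congrArg det h1
    rw [det_mul, det_one, vecMulVec_eq Unit, det_one_add_replicateCol_mul_replicateRow] at h2
    exact inv_eq_of_mul_eq_one_right h2
  refine SL_ext ?_
  rw [mul_val, mul_val, mul_val, vG_val,
    vG_val, uG_val, uG_val, hG_val, hdet, bl_mul, bl_mul, bl_mul, Tm_val]
  congr 1
  · simp only [mul_one, vecMulVec_zero, add_zero, one_mul, mulVec_zero, zero_add, zero_vecMulVec,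
      smul_smul, mul_inv_cancel₀ hd, one_smul, vecMulVec_smul, smul_vecMulVec]
    module
  · simp [smul_smul, hd]
  · simp [smul_smul, hd]
  · simp [add_comm]

variable {A : Type*} [Ring A]

/-- a homomorphism from `SL_n(K)` that does not distinguish proportional matrices -/
def relN (π : SpecialLinearGroup (ι ⊕ Unit) K →* A)
    (hz : ∀ g g' : SpecialLinearGroup (ι ⊕ Unit) K, (∃ z : K, g'.1 = z • g.1) → π g = π g') :
    RelN ι K A where
  u := { f := fun x => π (uG x)
         zero := by rw [uG_zero, map_one]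
         add := fun x y => by rw [uG_add, map_mul] }
  v := { f := fun x => π (vG x)
         zero := by rw [vG_zero, map_one]
         add := fun x y => by rw [vG_add, map_mul] }
  h := π.comp hG
  hu B x := by
    change π (hG B) * π (uG x) = π (uG _) * π (hG B)
    rw [← map_mul, hu, map_mul]
  hv B x := by
    change π (hG B) * π (vG x) = π (vG _) * π (hG B)
    rw [← map_mul, hv, map_mul]
  vu x y hd := by
    change π (vG y) * π (uG x) = π (uG _) * π (hG _) * π (vG _)
    rw [← map_mul, vu x y hd, map_mul, map_mul]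
  h_eq B C h := by
    change π (hG B) = π (hG C)
    refine hz _ _ ⟨B.1.det / C.1.det, ?_⟩
    have hB := GL_det_ne B
    have hC := GL_det_ne C
    rw [hG_val, hG_val, bl_smul]
    congr 1
    · rw [div_eq_inv_mul, mul_smul, h, smul_smul, inv_mul_cancel₀ hC, one_smul]
    · simp
    · simp
    · field_simp

/-- the big cell -/
theorem cell (g : SpecialLinearGroup (ι ⊕ Unit) K) (hd : g.1 (Sum.inr ()) (Sum.inr ()) ≠ 0) :
    ∃ (x z : ι → K) (B : GL ι K), g = uG x * hG B * vG z := by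
  set d := g.1 (Sum.inr ()) (Sum.inr ()) with hdd
  set b : ι → K := fun i => g.1 (Sum.inl i) (Sum.inr ()) with hb
  set c : ι → K := fun j => g.1 (Sum.inr ()) (Sum.inl j) with hc
  set B0 : Matrix ι ι K := fun i j => g.1 (Sum.inl i) (Sum.inl j) with hB0
  have hg : g.1 = bl B0 b c d := bl_eq g.1
  have h1 : d * (B0 - d⁻¹ • vecMulVec b c).det = 1 := by
    rw [← bl_det _ _ _ hd, ← hg]
    exact g.2
  have h2 : (B0 - d⁻¹ • vecMulVec b c).det ≠ 0 := right_ne_zero_of_mul (by rw [h1]; exact one_ne_zero)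
  let B : GL ι K := GeneralLinearGroup.mkOfDetNeZero (B0 - d⁻¹ • vecMulVec b c) h2
  have hB : B.1 = B0 - d⁻¹ • vecMulVec b c := rfl
  refine ⟨d⁻¹ • b, d⁻¹ • c, B, ?_⟩
  refine SL_ext ?_
  have h3 : (B.1.det)⁻¹ = d := by
    rw [hB]
    exact inv_eq_of_mul_eq_one_left h1
  rw [mul_val, mul_val, vG_val, uG_val, hG_val, h3, hB, bl_mul,
    bl_mul, hg]
  congr 1
  · simp only [mul_one, vecMulVec_zero, add_zero, one_mul, mulVec_zero, zero_add, zero_vecMulVec,
      smul_smul, mul_inv_cancel₀ hd, one_smul, vecMulVec_smul, smul_vecMulVec]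
    module
  · simp [smul_smul, hd]
  · simp [smul_smul, hd]
  · simp

end M

end H36Aug
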