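import Pool.Agent.Helper36.Aug.Ideal

/-!
If the ideal of the group algebra of the torus is proper then all its elements act as zero.
-/

set_option autoImplicit false

namespace H36Aug

open Filter

section Ded

theorem ded {G L ι : Type*} [Monoid G] [CommRing L] [IsDomain L] (s : Finset ι) (c : ι → L)
    (χ : ι → (G →* L)) [DecidableEq (G →* L)] (h : ∀ g, ∑ i ∈ s, c i * χ i g = 0) (χ0 : G →* L) :
    ∑ i ∈ s with χ i = χ0, c i = 0 := by
  classical
  have h1 := linearIndependent_iff'.1 (linearIndependent_monoidHom G L) (s.image χ)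
    (fun f => ∑ i ∈ s with χ i = f, c i) (by
      funext g
      simp only [Finset.sum_apply, Pi.smul_apply, smul_eq_mul, Pi.zero_apply, Finset.sum_mul]
      rw [← h g, ← Finset.sum_fiberwise_of_maps_to (s := s) (t := s.image χ) (g := χ)
        (fun i hi => Finset.mem_image_of_mem _ hi)]
      refine Finset.sum_congr rfl fun f _ => Finset.sum_congr rfl fun i hi => ?_
      rw [(Finset.mem_filter.1 hi).2])
  by_cases h2 : χ0 ∈ s.image χ
  · exact h1 χ0 h2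
  · refine Finset.sum_eq_zero fun i hi => ?_
    exact absurd (Finset.mem_image.2 ⟨i, (Finset.mem_filter.1 hi).1, (Finset.mem_filter.1 hi).2⟩) h2

end Ded

variable {K P A : Type*} [Field K] [Field P] [Ring A] [Algebra P A] {l : ℕ} [Fact l.Prime]
  [Algebra (ZMod l) K]

theorem whuw (R : Rel K A) (t a : Kˣ) :
    R.w * R.h t * R.u a * R.w =
      R.u (-((t : K) ^ 2 * a)⁻¹) * (R.w * R.h (t * a)) * R.u (-(a : K)⁻¹) := by
  have h1 : R.h t * R.w = R.w * R.h t⁻¹ := by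
    have := R.wh t⁻¹
    rw [inv_inv] at this
    exact this.symm
  have h2 := R.wuw (t ^ 2 * a)
  have h3 : R.w * R.h t * R.u a * R.w = (R.w * R.u ((t ^ 2 * a : Kˣ) : K) * R.w) * R.h t⁻¹ := by
    rw [mul_assoc R.w, R.hu, mul_assoc, mul_assoc, h1]
    push_cast
    simp only [mul_assoc]
  rw [h3, h2, mul_assoc _ (R.u _) (R.h t⁻¹), R.uh, ← mul_assoc _ (R.h t⁻¹), mul_assoc _ (R.h _) (R.h t⁻¹),
    ← R.h_mul]
  have e1 : t ^ 2 * a * t⁻¹ = t * a := by
    have ht : (t : K) ≠ 0 := t.ne_zero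
    refine Units.ext ?_
    push_cast
    field_simp
  have e2 : ((t⁻¹⁻¹ : Kˣ) : K) ^ 2 * -(((t ^ 2 * a : Kˣ) : K))⁻¹ = -(a : K)⁻¹ := by
    have ht : (t : K) ≠ 0 := t.ne_zero
    have ha : (a : K) ≠ 0 := a.ne_zero
    rw [inv_inv]
    push_cast
    field_simp
  rw [e1, e2]
  push_cast
  simp only [mul_assoc]

/-- a nonzero element as a unit -/
noncomputable def toU (a : K) : Kˣ := by
  classical
  exact if h : a = 0 then 1 else Units.mk0 a h

theorem toU_coe {a : K} (h : a ≠ 0) : (toU a : K) = a := by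
  simp [toU, h]

variable {R : Rel K A} {ε : AddChar (ZMod l) P} {W : Submodule (ZMod l) K}

/-- the sharp operation -/
noncomputable def sharp (ε : AddChar (ZMod l) P) (D : Finset K) (C : MonoidAlgebra P Kˣ)
    (μ ψ ν : K →ₗ[ZMod l] ZMod l) : MonoidAlgebra P Kˣ :=
  ∑ a ∈ D, ∑ t ∈ C.coeff.support,
    MonoidAlgebra.single (t * toU a)
      (C.coeff t * (ε (-μ a) * (ε (-ψ ((t : K) ^ 2 * a)⁻¹) * ε (-ν a⁻¹))))

theorem sharp_good [DecidableEq K] (hP : (l : P) ≠ 0) {S : Finset K} {χ χ' : K →ₗ[ZMod l] ZMod l}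
    {C : MonoidAlgebra P Kˣ} (h0 : N R ε S χ * (R.w * hA P R C) * N R ε S χ' = 0) (b : K)
    {ψ ν : K →ₗ[ZMod l] ZMod l} (hψ : ∀ x ∈ S, ψ x = χ x) (hψW : ∀ y ∈ W, ψ y = 0)
    (hν : ∀ y ∈ W, ν y = 0) :
    Good R ε W (R.w * hA P R (sharp ε (V l (insert b S) \ V l S) C χ' ψ ν)) := by
  set D := V l (insert b S) \ V l S with hD
  let T : Finset K := S ∪ (D.image (fun a => a⁻¹) ∪
    D.biUnion (fun a => C.coeff.support.image (fun t : Kˣ => ((t : K) ^ 2 * a)⁻¹)))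
  refine ⟨T, ψ, ν, hψW, hν, ?_⟩
  have hD0 : ∀ a ∈ D, a ≠ 0 := by
    intro a ha h
    rw [h] at ha
    exact (Finset.mem_sdiff.1 ha).2 (V_zero S)
  have hT1 : ∀ a ∈ D, a⁻¹ ∈ V l T := fun a ha =>
    subset_V _ (Finset.mem_union_right _ (Finset.mem_union_left _ (Finset.mem_image_of_mem _ ha)))
  have hT2 : ∀ a ∈ D, ∀ t ∈ C.coeff.support, ((t : K) ^ 2 * a)⁻¹ ∈ V l T := fun a ha t ht =>
    subset_V _ (Finset.mem_union_right _ (Finset.mem_union_right _
      (Finset.mem_biUnion.2 ⟨a, ha, Finset.mem_image.2 ⟨t, ht, rfl⟩⟩)))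
  have hST : ∀ x ∈ S, x ∈ V l T := fun x hx => subset_V _ (Finset.mem_union_left _ hx)
  have k1 := extend hP h0 (T := T) (T' := S) (ψ := ψ) (ψ' := χ') hST hψ
    (fun x hx => subset_V _ hx) (fun x _ => rfl)
  have k2 := extend hP h0 (T := T) (T' := insert b S) (ψ := ψ) (ψ' := χ') hST hψ
    (fun x hx => subset_V _ (Finset.mem_insert_of_mem hx)) (fun x _ => rfl)
  have hsub : V l S ⊆ V l (insert b S) := fun x hx => V_mono (Finset.subset_insert b S) hx
  have k3 : N R ε (insert b S) χ' = N R ε S χ' + ∑ a ∈ D, ε (-(χ' a)) • R.u a := by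
    unfold N
    rw [hD, add_comm]
    exact (Finset.sum_sdiff hsub).symm
  rw [k3, mul_add, k1, zero_add] at k2
  have k4 : N R ε T ψ * (R.w * hA P R C) * (∑ a ∈ D, ε (-(χ' a)) • R.u a) * (R.w * N R ε T ν) = 0 := by
    rw [k2, zero_mul]
  have k5 : hA P R C = ∑ t ∈ C.coeff.support, C.coeff t • R.h t := by
    rw [hA, MonoidAlgebra.lift_apply]
    rfl
  rw [← k4, k5, sharp, map_sum]
  simp only [map_sum, hA_single, Finset.mul_sum, Finset.sum_mul]
  refine Finset.sum_congr rfl fun a ha => ?_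
  refine Finset.sum_congr rfl fun t ht => ?_
  have ha0 := hD0 a ha
  have h1 := whuw R t (toU a)
  rw [toU_coe ha0] at h1
  have h2 : N R ε T ψ * (R.w * (C.coeff t • R.h t)) * (ε (-(χ' a)) • R.u a) * (R.w * N R ε T ν) =
      (C.coeff t * ε (-(χ' a))) • (N R ε T ψ * (R.w * R.h t * R.u a * R.w) * N R ε T ν) := by
    simp only [mul_smul_comm, smul_mul_assoc, smul_smul, mul_assoc, mul_comm]
  rw [h2, h1]
  have h3 : N R ε T ψ * R.u (-((t : K) ^ 2 * a)⁻¹) = ε (-ψ ((t : K) ^ 2 * a)⁻¹) • N R ε T ψ := by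
    rw [N_mul_u ψ (V_neg (hT2 a ha t ht)), map_neg]
  have h4 : R.u (-a⁻¹) * N R ε T ν = ε (-ν a⁻¹) • N R ε T ν := by
    rw [u_mul_N ν (V_neg (hT1 a ha)), map_neg]
  have h5 : N R ε T ψ * (R.u (-((t : K) ^ 2 * a)⁻¹) * (R.w * R.h (t * toU a)) * R.u (-a⁻¹)) *
      N R ε T ν = (ε (-ψ ((t : K) ^ 2 * a)⁻¹) * ε (-ν a⁻¹)) •
        (N R ε T ψ * (R.w * R.h (t * toU a)) * N R ε T ν) := by
    calc _ = (N R ε T ψ * R.u (-((t : K) ^ 2 * a)⁻¹)) * (R.w * R.h (t * toU a)) *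
          (R.u (-a⁻¹) * N R ε T ν) := by simp only [mul_assoc]
      _ = _ := by
        rw [h3, h4]
        simp only [mul_smul_comm, smul_mul_assoc, smul_smul]
        rw [mul_comm (ε (-ν a⁻¹))]
  rw [h5, smul_smul]
  simp only [mul_smul_comm, smul_mul_assoc, mul_assoc]

end H36Aug
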