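import Pool.Agent.Helper36.Aug.RelN
import Pool.Agent.Helper36.Aug.Sharp

/-!
If an element of the group algebra of the Levi subgroup is killed and does not act as zero then the
unit element is killed.
-/

set_option autoImplicit false

namespace H36Aug

namespace M

open Filter Matrix

section Gen

variable {ι K : Type*} [Fintype ι] [DecidableEq ι] [Field K]

/-- a vector outside of the kernels of finitely many nonzero matrices -/
theorem exists_vec [Infinite K] [Nonempty ι] (s : Finset (Matrix ι ι K)) (hs : ∀ B ∈ s, B ≠ 0) :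
    ∃ x : ι → K, x ≠ 0 ∧ ∀ B ∈ s, B *ᵥ x ≠ 0 := by
  classical
  let q : Finset (Submodule K (ι → K)) := (insert 1 s).image (fun B => LinearMap.ker (mulVecLin B))
  have h1 : (⋃ W ∈ q, (W : Set (ι → K))) ≠ Set.univ := by
    apply Subspace.biUnion_ne_univ_of_top_notMem
    intro h
    obtain ⟨B, hB, hBt⟩ := Finset.mem_image.1 h
    have hB0 : B = 0 := by
      ext i j
      have h2 : (Pi.single j 1 : ι → K) ∈ LinearMap.ker (mulVecLin B) := by rw [hBt]; trivial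
      rw [LinearMap.mem_ker, mulVecLin_apply, mulVec_single_one] at h2
      exact congrFun h2 i
    rcases Finset.mem_insert.1 hB with h3 | h3
    · rw [hB0] at h3
      obtain ⟨i⟩ := ‹Nonempty ι›
      have := congrFun (congrFun h3 i) i
      simp at this
    · exact hs B h3 hB0
  obtain ⟨x, hx⟩ := (Set.ne_univ_iff_exists_notMem _).1 h1
  simp only [Set.mem_iUnion, not_exists, SetLike.mem_coe] at hx
  refine ⟨x, fun h => ?_, fun B hB h => ?_⟩
  · exact hx _ (Finset.mem_image_of_mem _ (Finset.mem_insert_self _ _)) (by rw [h]; simp)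
  · exact hx _ (Finset.mem_image_of_mem _ (Finset.mem_insert_of_mem hB)) (by
      rw [LinearMap.mem_ker, mulVecLin_apply, h])

end Gen

variable {ι K P A : Type*} [Fintype ι] [DecidableEq ι] [Field K] [Field P] [Ring A] [Algebra P A]
  {l : ℕ} [Fact l.Prime] [Algebra (ZMod l) K] {R : RelN ι K A} {ε : AddChar (ZMod l) P}

/-- the element `Tm` as a total function -/
noncomputable def TT (x y : ι → K) : GL ι K := by
  classical
  exact if hd : 1 + y ⬝ᵥ x ≠ 0 then Tm x y hd else 1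

theorem TT_eq {x y : ι → K} (hd : 1 + y ⬝ᵥ x ≠ 0) : TT x y = Tm x y hd := by
  unfold TT
  rw [dif_pos hd]

/-- the sharp operation -/
noncomputable def sharp (ε : AddChar (ZMod l) P) (D : Finset (ι → K)) (x0 : ι → K)
    (C : MonoidAlgebra P (GL ι K)) (μ ψ ν : (ι → K) →ₗ[ZMod l] ZMod l) :
    MonoidAlgebra P (GL ι K) :=
  ∑ y ∈ D, ∑ t ∈ C.coeff.support,
    MonoidAlgebra.single (t * TT x0 y)
      (C.coeff t * (ε (-μ y) * (ε (ψ ((1 + y ⬝ᵥ x0)⁻¹ • (t.1.det • (t.1 *ᵥ x0)))) *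
        ε (ν ((1 + y ⬝ᵥ x0)⁻¹ • y)))))

theorem sharp_good [DecidableEq K] (hP : (l : P) ≠ 0) {S S' : Finset (ι → K)}
    {χ χ' : (ι → K) →ₗ[ZMod l] ZMod l} {C : MonoidAlgebra P (GL ι K)}
    (h0 : N R.u ε S χ * hA P R C * N R.v ε S' χ' = 0) (b x0 : ι → K)
    (hD : ∀ y ∈ V l (insert b S') \ V l S', 1 + y ⬝ᵥ x0 ≠ 0)
    {ψ ν : (ι → K) →ₗ[ZMod l] ZMod l} (hψ : ∀ x ∈ S, ψ x = χ x) :
    Good R ε (hA P R (sharp ε (V l (insert b S') \ V l S') x0 C χ' ψ ν)) := by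
  classical
  generalize hDD : V l (insert b S') \ V l S' = D at *
  let T : Finset (ι → K) := S ∪ D.biUnion (fun y => C.coeff.support.image
    (fun t : GL ι K => (1 + y ⬝ᵥ x0)⁻¹ • (t.1.det • (t.1 *ᵥ x0))))
  let T' : Finset (ι → K) := S' ∪ D.image (fun y => (1 + y ⬝ᵥ x0)⁻¹ • y)
  refine ⟨T, T', ψ, ν, ?_⟩
  have hT : ∀ y ∈ D, ∀ t ∈ C.coeff.support,
      (1 + y ⬝ᵥ x0)⁻¹ • (t.1.det • (t.1 *ᵥ x0)) ∈ V l T := fun y hy t ht =>
    subset_V _ (Finset.mem_union_right _ (Finset.mem_biUnion.2 ⟨y, hy, Finset.mem_image.2 ⟨t, ht, rfl⟩⟩))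
  have hT' : ∀ y ∈ D, (1 + y ⬝ᵥ x0)⁻¹ • y ∈ V l T' := fun y hy =>
    subset_V _ (Finset.mem_union_right _ (Finset.mem_image.2 ⟨y, hy, rfl⟩))
  have hST : ∀ x ∈ S, x ∈ V l T := fun x hx => subset_V _ (Finset.mem_union_left _ hx)
  have k1 := extend hP h0 (T := T) (T' := S') (ψ := ψ) (ψ' := χ') hST hψ
    (fun x hx => subset_V _ hx) (fun x _ => rfl)
  have k2 := extend hP h0 (T := T) (T' := insert b S') (ψ := ψ) (ψ' := χ') hST hψ
    (fun x hx => subset_V _ (Finset.mem_insert_of_mem hx)) (fun x _ => rfl)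
  have hsub : V l S' ⊆ V l (insert b S') := fun x hx => V_mono (Finset.subset_insert b S') hx
  have k3 : N R.v ε (insert b S') χ' = N R.v ε S' χ' + ∑ y ∈ D, ε (-(χ' y)) • R.v.f y := by
    unfold N
    rw [← hDD, add_comm]
    exact (Finset.sum_sdiff hsub).symm
  rw [k3, mul_add, k1, zero_add] at k2
  have k4 : N R.u ε T ψ * hA P R C * (∑ y ∈ D, ε (-(χ' y)) • R.v.f y) *
      (R.u.f x0 * N R.v ε T' ν) = 0 := by
    rw [k2, zero_mul]
  have k5 : hA P R C = ∑ t ∈ C.coeff.support, C.coeff t • R.h t := by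
    rw [hA, MonoidAlgebra.lift_apply]
    rfl
  rw [← k4, k5, sharp, map_sum]
  simp only [map_sum, hA_single, Finset.mul_sum, Finset.sum_mul]
  refine Finset.sum_congr rfl fun y hy => ?_
  refine Finset.sum_congr rfl fun t ht => ?_
  have hd := hD y hy
  have h1 := R.vu x0 y hd
  rw [← TT_eq hd] at h1
  have h3 : N R.u ε T ψ * R.u.f ((1 + y ⬝ᵥ x0)⁻¹ • (t.1.det • (t.1 *ᵥ x0))) =
      ε (ψ ((1 + y ⬝ᵥ x0)⁻¹ • (t.1.det • (t.1 *ᵥ x0)))) • N R.u ε T ψ := N_mul ψ (hT y hy t ht)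
  have h4 : R.v.f ((1 + y ⬝ᵥ x0)⁻¹ • y) * N R.v ε T' ν =
      ε (ν ((1 + y ⬝ᵥ x0)⁻¹ • y)) • N R.v ε T' ν := mul_N ν (hT' y hy)
  have h5 : R.h t * R.u.f ((1 + y ⬝ᵥ x0)⁻¹ • x0) =
      R.u.f ((1 + y ⬝ᵥ x0)⁻¹ • (t.1.det • (t.1 *ᵥ x0))) * R.h t := by
    rw [R.hu, mulVec_smul, smul_comm]
  symm
  calc N R.u ε T ψ * (C.coeff t • R.h t) * (ε (-(χ' y)) • R.v.f y) * (R.u.f x0 * N R.v ε T' ν)
      = (C.coeff t * ε (-(χ' y))) •
          (N R.u ε T ψ * R.h t * (R.v.f y * R.u.f x0) * N R.v ε T' ν) := by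
        simp only [mul_smul_comm, smul_mul_assoc, smul_smul, mul_assoc, mul_comm]
    _ = (C.coeff t * ε (-(χ' y))) •
          (N R.u ε T ψ * (R.h t * R.u.f ((1 + y ⬝ᵥ x0)⁻¹ • x0)) * R.h (TT x0 y) *
            (R.v.f ((1 + y ⬝ᵥ x0)⁻¹ • y) * N R.v ε T' ν)) := by
        rw [h1]
        simp only [mul_assoc]
    _ = (C.coeff t * ε (-(χ' y))) •
          ((N R.u ε T ψ * R.u.f ((1 + y ⬝ᵥ x0)⁻¹ • (t.1.det • (t.1 *ᵥ x0)))) *
            (R.h t * R.h (TT x0 y)) * (R.v.f ((1 + y ⬝ᵥ x0)⁻¹ • y) * N R.v ε T' ν)) := by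
        rw [h5]
        simp only [mul_assoc]
    _ = _ := by
        rw [h3, h4, ← map_mul]
        simp only [mul_smul_comm, smul_mul_assoc, smul_smul, mul_assoc]
        congr 1
        ring

/-- pairs of functionals -/
def GG (l : ℕ) [Fact l.Prime] [Algebra (ZMod l) K] (S : Finset (ι → K)) :
    AddSubgroup (((ι → K) →ₗ[ZMod l] ZMod l) × ((ι → K) →ₗ[ZMod l] ZMod l)) where
  carrier := {p | ∀ x ∈ S, p.1 x = 0}
  add_mem' := by
    rintro p q h k x hx
    simp [h x hx, k x hx]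
  zero_mem' := by
    intro x _
    simp
  neg_mem' := by
    rintro p h x hx
    simp [h x hx]

/-- the character of the group of pairs of functionals given by two vectors -/
def ch (ε : AddChar (ZMod l) P) (S : Finset (ι → K)) (x y : ι → K) :
    Multiplicative (GG l S) →* P where
  toFun g := ε (g.toAdd.1.1 x) * ε (g.toAdd.1.2 y)
  map_one' := by
    simp
  map_mul' := by
    intro g g'
    simp only [toAdd_mul, AddSubgroup.coe_add, Prod.fst_add, Prod.snd_add, LinearMap.add_apply,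
      AddChar.map_add_eq_mul]
    ring

open Classical in
/-- sum of the coefficients over a class modulo the scalars that act trivially -/
noncomputable def cls (t0 : GL ι K) (C : MonoidAlgebra P (GL ι K)) : P :=
  ∑ t ∈ C.coeff.support with t.1.det • t.1 = t0.1.det • t0.1, C.coeff t

theorem exists_b [Infinite K] [DecidableEq K] {x0 : ι → K} (hx0 : x0 ≠ 0)
    (S S' : Finset (ι → K)) (Z : Finset (ι → K)) (hZ : ∀ z ∈ Z, z ≠ 0) :
    ∃ b : ι → K, b ∉ V l S' ∧ (∀ y ∈ V l (insert b S') \ V l S', 1 + y ⬝ᵥ x0 ≠ 0) ∧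
      ∀ z ∈ Z, ∀ f ∈ V l S, (1 + b ⬝ᵥ x0)⁻¹ • z ≠ f := by
  classical
  obtain ⟨i, hi⟩ : ∃ i, x0 i ≠ 0 := by
    by_contra hno
    push Not at hno
    exact hx0 (funext hno)
  let b1 : ι → K := Pi.single i 1
  have hb1 : b1 ⬝ᵥ x0 = x0 i := by simp [b1]
  have hb10 : b1 ≠ 0 := by
    intro h
    have := congrFun h i
    simp [b1] at this
  have g1 : ∀ᶠ t : K in cofinite, ∀ f ∈ V l S', -f + t ^ 1 • b1 ≠ 0 := by
    rw [Filter.eventually_all_finset]
    intro f _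
    exact gen_vec one_ne_zero (-f) b1 (fun h => hb10 h.2)
  have g2 : ∀ᶠ t : K in cofinite, ∀ c ∈ (Finset.univ : Finset (ZMod l)), ∀ f ∈ V l S', c ≠ 0 →
      1 + (c • (t • b1) + f) ⬝ᵥ x0 ≠ 0 := by
    rw [Filter.eventually_all_finset]
    intro c _
    rw [Filter.eventually_all_finset]
    intro f _
    by_cases hc : c = 0
    · exact Filter.Eventually.of_forall fun s hs => absurd hc hs
    · let p : Polynomial K := Polynomial.C (1 + f ⬝ᵥ x0) + Polynomial.C (c • x0 i) * Polynomial.X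
      have hp : p ≠ 0 := by
        intro h0
        have c1 : p.coeff 1 = c • x0 i := by simp [p, Polynomial.coeff_one]
        rw [h0, Polynomial.coeff_zero] at c1
        exact (smul_ne_zero hc hi) c1.symm
      rw [Filter.eventually_cofinite]
      refine (Polynomial.finite_setOfPred_isRoot hp).subset ?_
      intro t ht
      simp only [Set.mem_ofPred_eq, ne_eq, Classical.not_imp, not_not] at ht
      simp only [Set.mem_ofPred_eq, Polynomial.IsRoot.def, p, Polynomial.eval_add,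
        Polynomial.eval_C, Polynomial.eval_mul, Polynomial.eval_X]
      rw [← ht.2, add_dotProduct, smul_dotProduct, smul_dotProduct, hb1]
      simp only [Algebra.smul_def, Algebra.algebraMap_self, RingHom.id_apply]
      ring
  have g3 : ∀ᶠ t : K in cofinite, ∀ z ∈ Z, ∀ f ∈ V l S, (f - z) + t ^ 1 • (x0 i • f) ≠ 0 := by
    rw [Filter.eventually_all_finset]
    intro z hz
    rw [Filter.eventually_all_finset]
    intro f _
    refine gen_vec one_ne_zero (f - z) (x0 i • f) (fun h => ?_)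
    have hf : f = 0 := (smul_eq_zero.1 h.2).resolve_left hi
    rw [hf, zero_sub, neg_eq_zero] at h
    exact hZ z hz h.1
  obtain ⟨t, ⟨h1, h2⟩, h3⟩ := ((g1.and g2).and g3).exists
  have hbS : t • b1 ∉ V l S' := by
    intro h
    apply h1 _ h
    rw [pow_one, neg_add_cancel]
  refine ⟨t • b1, hbS, ?_, ?_⟩
  · intro y hy
    rw [Finset.mem_sdiff] at hy
    have hy1 := mem_V.1 hy.1
    rw [Finset.coe_insert, Submodule.mem_span_insert] at hy1
    obtain ⟨c, f, hf, rfl⟩ := hy1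
    have hfV : f ∈ V l S' := mem_V.2 hf
    refine h2 c (Finset.mem_univ _) f hfV ?_
    intro hc
    apply hy.2
    rw [hc, zero_smul, zero_add]
    exact hfV
  · intro z hz f hf h
    have hd : 1 + (t • b1) ⬝ᵥ x0 ≠ 0 := by
      have := h2 1 (Finset.mem_univ _) 0 (V_zero S') one_ne_zero
      simpa using this
    apply h3 z hz f hf
    rw [← h, smul_dotProduct, hb1]
    rw [smul_dotProduct, hb1] at hd
    simp only [smul_eq_mul] at *
    rw [pow_one]
    have e : (1 + t * x0 i)⁻¹ • z - z + t • x0 i • (1 + t * x0 i)⁻¹ • z =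
        ((1 + t * x0 i)⁻¹ * (1 + t * x0 i) - 1) • z := by module
    rw [e, inv_mul_cancel₀ hd, sub_self, zero_smul]

theorem dich [Infinite K] [Nonempty ι] (hP : (l : P) ≠ 0) (hε : ∀ a : ZMod l, ε a = 1 → a = 0)
    {C : MonoidAlgebra P (GL ι K)} (hC : Good R ε (hA P R C)) (t0 : GL ι K)
    (hcls : cls t0 C ≠ 0) : Good R ε 1 := by
  classical
  -- the vector `x0`
  obtain ⟨x0, hx0, hx1⟩ := exists_vec
    ((C.coeff.support.filter (fun t => t.1.det • t.1 ≠ t0.1.det • t0.1)).image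
      (fun t => t.1.det • t.1 - t0.1.det • t0.1)) (by
        intro B hB
        obtain ⟨t, ht, rfl⟩ := Finset.mem_image.1 hB
        exact sub_ne_zero.2 (Finset.mem_filter.1 ht).2)
  obtain ⟨S, S', χ, χ', h0⟩ := hC
  obtain ⟨b, hbS, hb1, hb2⟩ := exists_b (l := l) hx0 S S'
    ((C.coeff.support.filter (fun t => t.1.det • t.1 ≠ t0.1.det • t0.1)).image
      (fun t => (t.1.det • t.1 - t0.1.det • t0.1) *ᵥ x0)) (by
        intro z hz
        obtain ⟨t, ht, rfl⟩ := Finset.mem_image.1 hz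
        exact hx1 _ (Finset.mem_image.2 ⟨t, ht, rfl⟩))
  set D := V l (insert b S') \ V l S' with hD
  have hbD : b ∈ D := Finset.mem_sdiff.2 ⟨subset_V _ (Finset.mem_insert_self _ _), hbS⟩
  have hdb := hb1 b hbD
  -- it is enough to kill one element of the Levi subgroup
  suffices hk : Good R ε (R.h (t0 * TT x0 b)) by
    have := hk.left hP (t0 * TT x0 b)⁻¹
    rwa [← map_mul, inv_mul_cancel, map_one] at this
  by_contra hno
  have hnot : MonoidAlgebra.single (t0 * TT x0 b) (1 : P) ∉ CI hP R ε := by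
    rw [mem_CI, hA_single, one_smul]
    exact hno
  obtain ⟨F, hF, hF'⟩ := sep (CI hP R ε) hnot
  have hεu : ∀ a, ε a ≠ 0 := by
    intro a h
    have h1 : ε (a + -a) = 0 := by rw [AddChar.map_add_eq_mul, h, zero_mul]
    rw [add_neg_cancel, AddChar.map_zero_eq_one] at h1
    exact one_ne_zero h1
  have hFsm : ∀ (t : GL ι K) (r : P), F (MonoidAlgebra.single t r) = r * F (MonoidAlgebra.single t 1) := by
    intro t r
    have e : MonoidAlgebra.single t r = r • MonoidAlgebra.single t (1 : P) := by simp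
    rw [e, map_smul, smul_eq_mul]
  -- the relation between characters
  have hrel : ∀ g : Multiplicative (GG l S), ∑ p ∈ D ×ˢ C.coeff.support,
      (C.coeff p.2 * (ε (-χ' p.1) *
          ε (χ ((1 + p.1 ⬝ᵥ x0)⁻¹ • (p.2.1.det • (p.2.1 *ᵥ x0))))) *
            F (MonoidAlgebra.single (p.2 * TT x0 p.1) 1)) *
        ch ε S ((1 + p.1 ⬝ᵥ x0)⁻¹ • (p.2.1.det • (p.2.1 *ᵥ x0))) ((1 + p.1 ⬝ᵥ x0)⁻¹ • p.1) g = 0 := by
    intro g
    have g1 : ∀ x ∈ S, g.toAdd.1.1 x = 0 := g.toAdd.2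
    have h1 := sharp_good hP h0 b x0 hb1 (ψ := χ + g.toAdd.1.1) (ν := g.toAdd.1.2)
      (fun x hx => by simp [g1 x hx])
    have h2 := hF _ (mem_CI.2 h1)
    rw [← hD, sharp, map_sum] at h2
    rw [Finset.sum_product, ← h2]
    refine Finset.sum_congr rfl fun y _ => ?_
    rw [map_sum]
    refine Finset.sum_congr rfl fun t _ => ?_
    conv_rhs => rw [hFsm]
    simp only [ch, MonoidHom.coe_mk, OneHom.coe_mk, LinearMap.add_apply,
      AddChar.map_add_eq_mul]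
    ring
  have hded := ded (D ×ˢ C.coeff.support)
    (fun p => C.coeff p.2 * (ε (-χ' p.1) *
          ε (χ ((1 + p.1 ⬝ᵥ x0)⁻¹ • (p.2.1.det • (p.2.1 *ᵥ x0))))) *
            F (MonoidAlgebra.single (p.2 * TT x0 p.1) 1))
    (fun p => ch ε S ((1 + p.1 ⬝ᵥ x0)⁻¹ • (p.2.1.det • (p.2.1 *ᵥ x0))) ((1 + p.1 ⬝ᵥ x0)⁻¹ • p.1))
    hrel (ch ε S ((1 + b ⬝ᵥ x0)⁻¹ • (t0.1.det • (t0.1 *ᵥ x0))) ((1 + b ⬝ᵥ x0)⁻¹ • b))
  have hεinj : ∀ a c : ZMod l, ε a = ε c → a = c := by
    intro a c h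
    have h2 : ε (a - c) = 1 := by
      rw [AddChar.map_sub_eq_div, h, div_self (hεu _)]
    exact sub_eq_zero.1 (hε _ h2)
  have hcl : ∀ y ∈ D, ∀ t ∈ C.coeff.support,
      ch ε S ((1 + y ⬝ᵥ x0)⁻¹ • (t.1.det • (t.1 *ᵥ x0))) ((1 + y ⬝ᵥ x0)⁻¹ • y) =
        ch ε S ((1 + b ⬝ᵥ x0)⁻¹ • (t0.1.det • (t0.1 *ᵥ x0))) ((1 + b ⬝ᵥ x0)⁻¹ • b) →
        y = b ∧ t.1.det • t.1 = t0.1.det • t0.1 := by
    intro y hy t ht hch
    have hdy := hb1 y hy
    have hyb1 : (1 + y ⬝ᵥ x0)⁻¹ • y = (1 + b ⬝ᵥ x0)⁻¹ • b := by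
      by_contra hne
      have hne' : (1 + y ⬝ᵥ x0)⁻¹ • y - (1 + b ⬝ᵥ x0)⁻¹ • b ∉
          (⊥ : Submodule (ZMod l) (ι → K)) := by
        rw [Submodule.mem_bot]
        exact sub_ne_zero.2 hne
      obtain ⟨ν, -, hν⟩ := sep _ hne'
      apply hν
      have hg : ((0 : (ι → K) →ₗ[ZMod l] ZMod l), ν) ∈ GG l S := fun x _ => by simp
      have := DFunLike.congr_fun hch (Multiplicative.ofAdd (⟨_, hg⟩ : GG l S))
      simp only [ch, MonoidHom.coe_mk, OneHom.coe_mk, toAdd_ofAdd, LinearMap.zero_apply,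
        AddChar.map_zero_eq_one, one_mul] at this
      rw [map_sub, hεinj _ _ this, sub_self]
    have hyb : y = b := by
      have h3 : (1 + y ⬝ᵥ x0)⁻¹ * (y ⬝ᵥ x0) = (1 + b ⬝ᵥ x0)⁻¹ * (b ⬝ᵥ x0) := by
        have := congrArg (fun z => z ⬝ᵥ x0) hyb1
        simpa [smul_dotProduct] using this
      have h4 : y ⬝ᵥ x0 = b ⬝ᵥ x0 := by
        field_simp at h3
        linear_combination h3
      rw [h4] at hyb1
      have h5 := congrArg (fun z => (1 + b ⬝ᵥ x0) • z) hyb1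
      simp only [smul_smul, mul_inv_cancel₀ hdb, one_smul] at h5
      exact h5
    subst hyb
    refine ⟨rfl, ?_⟩
    by_contra htt
    have hsp : (1 + y ⬝ᵥ x0)⁻¹ • ((t.1.det • t.1 - t0.1.det • t0.1) *ᵥ x0) ∉
        Submodule.span (ZMod l) (S : Set (ι → K)) := by
      intro hmem
      exact hb2 _ (Finset.mem_image.2 ⟨t, Finset.mem_filter.2 ⟨ht, htt⟩, rfl⟩) _ (mem_V.2 hmem) rfl
    obtain ⟨ρ, hρ, hρ'⟩ := sep _ hsp
    apply hρ'
    have hg : (ρ, (0 : (ι → K) →ₗ[ZMod l] ZMod l)) ∈ GG l S :=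
      fun x hx => hρ x (Submodule.subset_span (by exact_mod_cast hx))
    have := DFunLike.congr_fun hch (Multiplicative.ofAdd (⟨_, hg⟩ : GG l S))
    simp only [ch, MonoidHom.coe_mk, OneHom.coe_mk, toAdd_ofAdd, LinearMap.zero_apply,
      AddChar.map_zero_eq_one, mul_one] at this
    rw [sub_mulVec, smul_mulVec, smul_mulVec, smul_sub, map_sub, hεinj _ _ this, sub_self]
  have hvec : ∀ t : GL ι K, t.1.det • t.1 = t0.1.det • t0.1 →
      t.1.det • (t.1 *ᵥ x0) = t0.1.det • (t0.1 *ᵥ x0) := by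
    intro t ht
    rw [← smul_mulVec, ← smul_mulVec, ht]
  have hFt : ∀ t : GL ι K, t.1.det • t.1 = t0.1.det • t0.1 →
      F (MonoidAlgebra.single (t * TT x0 b) 1) = F (MonoidAlgebra.single (t0 * TT x0 b) 1) := by
    intro t ht
    have h1 : MonoidAlgebra.single (t * TT x0 b) (1 : P) -
        MonoidAlgebra.single (t0 * TT x0 b) 1 ∈ CI hP R ε := by
      rw [mem_CI, map_sub, hA_single, hA_single, map_mul, map_mul, R.h_eq t t0 ht, sub_self]
      exact Good.zero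
    have h2 := hF _ h1
    rw [map_sub] at h2
    exact sub_eq_zero.1 h2
  have hsum : ∑ p ∈ D ×ˢ C.coeff.support with
      ch ε S ((1 + p.1 ⬝ᵥ x0)⁻¹ • (p.2.1.det • (p.2.1 *ᵥ x0))) ((1 + p.1 ⬝ᵥ x0)⁻¹ • p.1) =
        ch ε S ((1 + b ⬝ᵥ x0)⁻¹ • (t0.1.det • (t0.1 *ᵥ x0))) ((1 + b ⬝ᵥ x0)⁻¹ • b),
      C.coeff p.2 * (ε (-χ' p.1) *
          ε (χ ((1 + p.1 ⬝ᵥ x0)⁻¹ • (p.2.1.det • (p.2.1 *ᵥ x0))))) *
            F (MonoidAlgebra.single (p.2 * TT x0 p.1) 1) =
      ∑ t ∈ C.coeff.support with t.1.det • t.1 = t0.1.det • t0.1,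
        C.coeff t * ((ε (-χ' b) * ε (χ ((1 + b ⬝ᵥ x0)⁻¹ • (t0.1.det • (t0.1 *ᵥ x0))))) *
          F (MonoidAlgebra.single (t0 * TT x0 b) 1)) := by
    refine Finset.sum_nbij' (fun p => p.2) (fun t => (b, t)) ?_ ?_ ?_ ?_ ?_
    · rintro ⟨y, t⟩ hp
      rw [Finset.mem_filter, Finset.mem_product] at hp
      exact Finset.mem_filter.2 ⟨hp.1.2, (hcl y hp.1.1 t hp.1.2 hp.2).2⟩
    · intro t ht
      rw [Finset.mem_filter] at ht
      refine Finset.mem_filter.2 ⟨Finset.mem_product.2 ⟨hbD, ht.1⟩, ?_⟩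
      simp only
      rw [hvec t ht.2]
    · rintro ⟨y, t⟩ hp
      rw [Finset.mem_filter, Finset.mem_product] at hp
      simp only
      rw [(hcl y hp.1.1 t hp.1.2 hp.2).1]
    · intro t _
      rfl
    · rintro ⟨y, t⟩ hp
      rw [Finset.mem_filter, Finset.mem_product] at hp
      obtain ⟨h1, h2⟩ := hcl y hp.1.1 t hp.1.2 hp.2
      simp only
      rw [h1, hvec t h2, hFt t h2]
      ring
  rw [hsum, ← Finset.sum_mul] at hded
  have hcls' : ∑ t ∈ C.coeff.support with t.1.det • t.1 = t0.1.det • t0.1, C.coeff t ≠ 0 := by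
    rw [cls] at hcls
    convert hcls
  exact (mul_ne_zero hcls' (mul_ne_zero (mul_ne_zero (hεu _) (hεu _)) hF')) hded

end M

end H36Aug
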