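import Pool.Agent.Helper36.Aug.Dich
import Pool.Agent.Helper36.Aug.SL

/-!
A nontrivial linear relation between the elements of `PSL₂(K)` in an algebra gives an element of the
ideal of the group algebra of the torus that does not act as zero.
-/

set_option autoImplicit false

namespace H36Aug

open Filter Matrix

section Cls

variable {K P : Type*} [Field K] [Field P]

theorem cls_eq (t0 : Kˣ) (C : MonoidAlgebra P Kˣ) [DecidableEq Kˣ] :
    cls t0 C = C.coeff.sum fun t r => if t ^ 2 = t0 ^ 2 then r else 0 := by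
  classical
  unfold cls Finsupp.sum
  rw [Finset.sum_filter]
  refine Finset.sum_congr rfl fun t _ => ?_
  congr

theorem cls_add (t0 : Kˣ) (C D : MonoidAlgebra P Kˣ) : cls t0 (C + D) = cls t0 C + cls t0 D := by
  classical
  rw [cls_eq, cls_eq, cls_eq, MonoidAlgebra.coeff_add]
  refine Finsupp.sum_add_index' ?_ ?_
  · intro t; simp
  · intro t r r'
    split_ifs <;> simp

theorem cls_zero (t0 : Kˣ) : cls t0 (0 : MonoidAlgebra P Kˣ) = 0 := by
  classical
  rw [cls_eq]
  simp

theorem cls_single (t0 t : Kˣ) (r : P) [Decidable (t ^ 2 = t0 ^ 2)] :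
    cls t0 (MonoidAlgebra.single t r) = if t ^ 2 = t0 ^ 2 then r else 0 := by
  classical
  rw [cls_eq, MonoidAlgebra.coeff_single, Finsupp.sum_single_index]
  · congr
  · simp

theorem cls_sum {ι : Type*} (t0 : Kˣ) (s : Finset ι) (C : ι → MonoidAlgebra P Kˣ) :
    cls t0 (∑ i ∈ s, C i) = ∑ i ∈ s, cls t0 (C i) := by
  classical
  induction s using Finset.induction_on with
  | empty => simp [cls_zero]
  | insert a s ha ih => rw [Finset.sum_insert ha, Finset.sum_insert ha, cls_add, ih]

end Cls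

section Pos

variable {K : Type*} [Field K] {l : ℕ} [Fact l.Prime] [Algebra (ZMod l) K]
  {W : Submodule (ZMod l) K}

/-- a proper subgroup closed under multiplication by squares is zero if `2 ≠ 0` -/
theorem W_bot (hW : ∀ c : K, ∀ y ∈ W, c ^ 2 * y ∈ W) (hWt : W ≠ ⊤) (h2 : (2 : K) ≠ 0) {y : K}
    (hy : y ∈ W) : y = 0 := by
  by_contra h0
  apply hWt
  rw [Submodule.eq_top_iff']
  intro x
  have h4 : (4 : K) ≠ 0 := by
    have : (4 : K) = 2 * 2 := by norm_num
    rw [this]
    exact mul_ne_zero h2 h2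
  have e : x = ((x / y + 1) / 2) ^ 2 * y - ((x / y - 1) / 2) ^ 2 * y := by
    field_simp
    ring
  rw [e]
  exact W.sub_mem (hW _ _ hy) (hW _ _ hy)

/-- general position -/
theorem position [Infinite K] (hW : ∀ c : K, ∀ y ∈ W, c ^ 2 * y ∈ W) (hWt : W ≠ ⊤) {ι : Type*}
    (s : Finset ι) (g : ι → SpecialLinearGroup (Fin 2) K)
    (hg : ∀ i ∈ s, ∀ j ∈ s, i ≠ j → g j ≠ g i ∧ g j ≠ -g i) :
    ∃ a b : SpecialLinearGroup (Fin 2) K, (∀ i ∈ s, (a * g i * b).1 1 0 ≠ 0) ∧
      ∀ i ∈ s, ∀ j ∈ s, i ≠ j →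
        (a * g i * b).1 0 0 / (a * g i * b).1 1 0 - (a * g j * b).1 0 0 / (a * g j * b).1 1 0 ∉ W := by
  classical
  -- first step: the images of a generic point are finite and distinct
  have hbot : ∀ c : K, ∀ y ∈ (⊥ : AddSubgroup K), c ^ 2 * y ∈ (⊥ : AddSubgroup K) := by
    intro c y hy
    rw [AddSubgroup.mem_bot] at hy ⊢
    rw [hy, mul_zero]
  have p1 : ∀ᶠ r : K in cofinite, ∀ i ∈ s, (g i).1 1 0 * r ^ 2 + (g i).1 1 1 ≠ 0 := by
    rw [Filter.eventually_all_finset]
    intro i _
    have := gen (W := (⊥ : AddSubgroup K)) (v0 := (g i).1 1 1) (v1 := (g i).1 1 0) (v2 := 0) (v3 := 0)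
      hbot (by
        rintro ⟨h0, h1, -⟩
        rw [AddSubgroup.mem_bot] at h0 h1
        have hd := (g i).2
        rw [Matrix.det_fin_two, h0, h1] at hd
        simp at hd)
    refine this.mono fun r hr h => hr ?_
    rw [AddSubgroup.mem_bot]
    linear_combination h
  have p2 : ∀ᶠ r : K in cofinite, ∀ i ∈ s, ∀ j ∈ s, i ≠ j →
      ((g i).1 0 0 * r ^ 2 + (g i).1 0 1) * ((g j).1 1 0 * r ^ 2 + (g j).1 1 1) -
        ((g j).1 0 0 * r ^ 2 + (g j).1 0 1) * ((g i).1 1 0 * r ^ 2 + (g i).1 1 1) ≠ 0 := by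
    rw [Filter.eventually_all_finset]
    intro i hi
    rw [Filter.eventually_all_finset]
    intro j hj
    by_cases hij : i = j
    · exact Filter.Eventually.of_forall fun r hr => absurd hij hr
    · have := gen (W := (⊥ : AddSubgroup K))
        (v0 := (g i).1 0 1 * (g j).1 1 1 - (g j).1 0 1 * (g i).1 1 1)
        (v1 := (g i).1 0 0 * (g j).1 1 1 + (g i).1 0 1 * (g j).1 1 0 - (g j).1 0 0 * (g i).1 1 1 -
          (g j).1 0 1 * (g i).1 1 0)
        (v2 := (g i).1 0 0 * (g j).1 1 0 - (g j).1 0 0 * (g i).1 1 0) (v3 := 0) hbot (by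
          rintro ⟨h0, h1, h2, -⟩
          rw [AddSubgroup.mem_bot] at h0 h1 h2
          rcases eq_pm h0 h1 h2 with h | h
          · exact (hg i hi j hj hij).1 h
          · exact (hg i hi j hj hij).2 h)
      refine this.mono fun r hr _ h => hr ?_
      rw [AddSubgroup.mem_bot]
      linear_combination h
  obtain ⟨r, hr1, hr2⟩ := (p1.and p2).exists
  -- coordinates
  let m : ι → K := fun i => (g i).1 0 0 * r ^ 2 + (g i).1 0 1
  let n : ι → K := fun i => (g i).1 1 0 * r ^ 2 + (g i).1 1 1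
  have hn : ∀ i ∈ s, n i ≠ 0 := hr1
  have hmn : ∀ i ∈ s, ∀ j ∈ s, i ≠ j → m i * n j - m j * n i ≠ 0 := hr2
  obtain ⟨z0, hz0⟩ : ∃ z0, z0 ∉ W := by
    by_contra h
    push Not at h
    exact hWt (Submodule.eq_top_iff'.2 h)
  have hz00 : z0 ≠ 0 := fun h => hz0 (h ▸ W.zero_mem)
  have q1 : ∀ᶠ c : K in cofinite, ∀ i ∈ s, m i - c ^ 2 * z0 * n i ≠ 0 := by
    rw [Filter.eventually_all_finset]
    intro i hi
    have := gen (W := (⊥ : AddSubgroup K)) (v0 := m i) (v1 := - (z0 * n i)) (v2 := 0) (v3 := 0)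
      hbot (by
        rintro ⟨-, h1, -⟩
        rw [AddSubgroup.mem_bot, neg_eq_zero] at h1
        exact mul_ne_zero hz00 (hn i hi) h1)
    refine this.mono fun c hc h => hc ?_
    rw [AddSubgroup.mem_bot]
    linear_combination h
  have q2 : ∀ᶠ c : K in cofinite, ∀ i ∈ s, ∀ j ∈ s, i ≠ j →
      (m i / n i - m j / n j) * (m i / n i - c ^ 2 * z0) * (m j / n j - c ^ 2 * z0) ∉ W := by
    rw [Filter.eventually_all_finset]
    intro i hi
    rw [Filter.eventually_all_finset]
    intro j hj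
    by_cases hij : i = j
    · exact Filter.Eventually.of_forall fun c hc => absurd hij hc
    · have hδ : m i / n i - m j / n j ≠ 0 := by
        rw [div_sub_div _ _ (hn i hi) (hn j hj)]
        refine div_ne_zero ?_ (mul_ne_zero (hn i hi) (hn j hj))
        rw [mul_comm (n i)]
        exact hmn i hi j hj hij
      generalize m i / n i = y at *
      generalize m j / n j = y' at *
      have := gen (W := W.toAddSubgroup) (v0 := (y - y') * y * y')
        (v1 := -((y - y') * (y + y') * z0)) (v2 := (y - y') * z0 ^ 2) (v3 := 0) hW (by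
          rintro ⟨-, h1, h2, -⟩
          have h1' : (y - y') * (y + y') * z0 ∈ W := by
            have := W.neg_mem h1
            simpa using this
          have h2' : (y - y') * z0 ^ 2 ∈ W := h2
          by_cases h20 : (2 : K) = 0
          · have e : (y - y') * (y + y') * z0 = (y - y') ^ 2 * z0 := by
              linear_combination (y - y') * y' * z0 * h20
            rw [e] at h1'
            exact hz0 (cancel_sq hW hδ h1')
          · exact mul_ne_zero hδ (pow_ne_zero 2 hz00) (W_bot hW hWt h20 h2'))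
      refine this.mono fun c hc _ h => hc ?_
      have e : (y - y') * y * y' + c ^ 2 * -((y - y') * (y + y') * z0) +
          c ^ 4 * ((y - y') * z0 ^ 2) + c ^ 6 * 0 =
          (y - y') * (y - c ^ 2 * z0) * (y' - c ^ 2 * z0) := by ring
      rw [e]
      exact h
  obtain ⟨c, hc1, hc2⟩ := (q1.and q2).exists
  have hval : ∀ i, (Wm * U (-(c ^ 2 * z0)) * g i * (U (r ^ 2) * Wm)).1 0 0 = -n i ∧
      (Wm * U (-(c ^ 2 * z0)) * g i * (U (r ^ 2) * Wm)).1 1 0 = m i - c ^ 2 * z0 * n i := by
    intro i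
    have e : (Wm * U (-(c ^ 2 * z0)) * g i * (U (r ^ 2) * Wm)).1 =
        !![0, -1; 1, 0] * !![1, -(c ^ 2 * z0); 0, 1] * (g i).1 *
          (!![1, r ^ 2; 0, 1] * !![0, -1; 1, 0]) := rfl
    rw [e, Matrix.eta_fin_two (g i).1]
    constructor
    · simp [n]
      ring
    · simp [m, n]
      ring
  refine ⟨Wm * U (-(c ^ 2 * z0)), U (r ^ 2) * Wm, fun i hi => ?_, fun i hi j hj hij => ?_⟩
  · rw [(hval i).2]
    exact hc1 i hi
  · rw [(hval i).1, (hval i).2, (hval j).1, (hval j).2]
    intro h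
    refine hc2 i hi j hj hij ?_
    have hni := hn i hi
    have hnj := hn j hj
    have hi0 : m i / n i - c ^ 2 * z0 ≠ 0 := by
      intro h0
      apply hc1 i hi
      have : m i - c ^ 2 * z0 * n i = (m i / n i - c ^ 2 * z0) * n i := by field_simp
      rw [this, h0, zero_mul]
    have hj0 : m j / n j - c ^ 2 * z0 ≠ 0 := by
      intro h0
      apply hc1 j hj
      have : m j - c ^ 2 * z0 * n j = (m j / n j - c ^ 2 * z0) * n j := by field_simp
      rw [this, h0, zero_mul]
    have e1 : -n i / (m i - c ^ 2 * z0 * n i) = -(m i / n i - c ^ 2 * z0)⁻¹ := by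
      have : m i - c ^ 2 * z0 * n i = (m i / n i - c ^ 2 * z0) * n i := by field_simp
      rw [this]
      field_simp
    have e2 : -n j / (m j - c ^ 2 * z0 * n j) = -(m j / n j - c ^ 2 * z0)⁻¹ := by
      have : m j - c ^ 2 * z0 * n j = (m j / n j - c ^ 2 * z0) * n j := by field_simp
      rw [this]
      field_simp
    rw [e1, e2] at h
    have := hW ((m i / n i - c ^ 2 * z0) * (m j / n j - c ^ 2 * z0)) _ h
    generalize m i / n i = y at *
    generalize m j / n j = y' at *
    have e : ((y - c ^ 2 * z0) * (y' - c ^ 2 * z0)) ^ 2 * (-(y - c ^ 2 * z0)⁻¹ - -(y' - c ^ 2 * z0)⁻¹) =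
        (y - y') * (y - c ^ 2 * z0) * (y' - c ^ 2 * z0) := by
      field_simp
      ring
    rwa [e] at this

end Pos

section Start

variable {K P A : Type*} [Field K] [Field P] [Ring A] [Algebra P A] {l : ℕ} [Fact l.Prime]
  [Algebra (ZMod l) K] {ε : AddChar (ZMod l) P} {W : Submodule (ZMod l) K}

/-- functionals that vanish on `W` -/
def Wp (W : Submodule (ZMod l) K) : AddSubgroup (K →ₗ[ZMod l] ZMod l) where
  carrier := {p | ∀ y ∈ W, p y = 0}
  add_mem' := by
    intro p q hp hq y hy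
    simp [hp y hy, hq y hy]
  zero_mem' := by
    intro y _
    simp
  neg_mem' := by
    intro p hp y hy
    simp [hp y hy]

/-- the character of the group of functionals given by an element of `K` -/
def chW (ε : AddChar (ZMod l) P) (W : Submodule (ZMod l) K) (x : K) : Multiplicative (Wp W) →* P where
  toFun g := ε (g.toAdd.1 x)
  map_one' := by
    simp
  map_mul' := by
    intro g g'
    rw [← AddChar.map_add_eq_mul]
    rfl

theorem start [Infinite K] (hW : ∀ c : K, ∀ y ∈ W, c ^ 2 * y ∈ W) (hWt : W ≠ ⊤)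
    (hε : ∀ a : ZMod l, ε a = 1 → a = 0)
    (π : SpecialLinearGroup (Fin 2) K →* A) (h1 : π (-1) = 1) {ι : Type*}
    (s : Finset ι) (g : ι → SpecialLinearGroup (Fin 2) K) (c : ι → P)
    (hg : ∀ i ∈ s, ∀ j ∈ s, i ≠ j → g j ≠ g i ∧ g j ≠ -g i) (i0 : ι) (hi0 : i0 ∈ s) (hc : c i0 ≠ 0)
    (hrel : ∑ i ∈ s, c i • π (g i) = 0) :
    ∃ (C : MonoidAlgebra P Kˣ) (t0 : Kˣ), Good (relOf π h1) ε W ((relOf π h1).w * hA P (relOf π h1) C) ∧
      cls t0 C ≠ 0 := by
  classical
  obtain ⟨a, b, hne, hpos⟩ := position hW hWt s g hg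
  let x : ι → K := fun i => (a * g i * b).1 0 0 / (a * g i * b).1 1 0
  let y : ι → K := fun i => (a * g i * b).1 1 1 / (a * g i * b).1 1 0
  let t : ι → Kˣ := fun i => toU ((a * g i * b).1 1 0)
  have ht : ∀ i ∈ s, (a * g i * b).1 1 0 = t i := fun i hi => (toU_coe (hne i hi)).symm
  have hx : ∀ i ∈ s, ∀ j ∈ s, i ≠ j → x i - x j ∉ W := hpos
  set R := relOf π h1 with hR
  have hfac : ∀ i ∈ s, π a * π (g i) * π b = R.u (x i) * (R.w * R.h (t i)) * R.u (y i) := by
    intro i hi
    have := bruhat (a * g i * b) (t i) (ht i hi)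
    rw [← map_mul, ← map_mul, this, map_mul, map_mul, map_mul]
    rfl
  have hrel' : ∑ i ∈ s, c i • (R.u (x i) * (R.w * R.h (t i)) * R.u (y i)) = 0 := by
    have h2 : π a * (∑ i ∈ s, c i • π (g i)) * π b = 0 := by rw [hrel]; simp
    rw [← h2, Finset.mul_sum, Finset.sum_mul]
    refine Finset.sum_congr rfl fun i hi => ?_
    rw [← hfac i hi, mul_smul_comm, smul_mul_assoc]
  -- choice of the functional
  have hex : ∃ p : K →ₗ[ZMod l] ZMod l, (∀ w ∈ W, p w = 0) ∧
      ∑ i ∈ s with t i ^ 2 = t i0 ^ 2, c i * ε (p (x i)) ≠ 0 := by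
    by_contra hno
    push Not at hno
    have hd := ded (s.filter (fun i => t i ^ 2 = t i0 ^ 2)) c (fun i => chW ε W (x i)) (by
      intro q
      exact hno q.toAdd.1 q.toAdd.2) (chW ε W (x i0))
    have hcl : (s.filter (fun i => t i ^ 2 = t i0 ^ 2)).filter
        (fun i => chW ε W (x i) = chW ε W (x i0)) = {i0} := by
      ext i
      simp only [Finset.mem_filter, Finset.mem_singleton]
      constructor
      · rintro ⟨⟨hi, -⟩, hch⟩
        by_contra hii
        obtain ⟨p, hp, hp'⟩ := sep W (hx i hi i0 hi0 hii)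
        apply hp'
        have h3 := DFunLike.congr_fun hch (Multiplicative.ofAdd (⟨p, hp⟩ : Wp W))
        have h4 : ε (p (x i)) = ε (p (x i0)) := h3
        have h5 : ε (p (x i0)) ≠ 0 := by
          intro h
          have h6 : ε (p (x i0) + -p (x i0)) = 0 := by
            rw [AddChar.map_add_eq_mul, h, zero_mul]
          rw [add_neg_cancel, AddChar.map_zero_eq_one] at h6
          exact one_ne_zero h6
        apply hε
        rw [map_sub, AddChar.map_sub_eq_div, h4, div_self h5]
      · rintro rfl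
        exact ⟨⟨hi0, rfl⟩, rfl⟩
    rw [hcl, Finset.sum_singleton] at hd
    exact hc hd
  obtain ⟨p, hp, hp'⟩ := hex
  refine ⟨∑ i ∈ s, MonoidAlgebra.single (t i) (c i * ε (p (x i))), t i0,
    ⟨s.image x ∪ s.image y, p, 0, hp, by simp, ?_⟩, ?_⟩
  · have h2 : N R ε (s.image x ∪ s.image y) p *
        (∑ i ∈ s, c i • (R.u (x i) * (R.w * R.h (t i)) * R.u (y i))) *
          N R ε (s.image x ∪ s.image y) 0 = 0 := by rw [hrel']; simp
    rw [← h2, map_sum, Finset.mul_sum, Finset.mul_sum, Finset.mul_sum, Finset.sum_mul, Finset.sum_mul]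
    refine Finset.sum_congr rfl fun i hi => ?_
    have hxi : x i ∈ V l (s.image x ∪ s.image y) :=
      subset_V _ (Finset.mem_union_left _ (Finset.mem_image_of_mem _ hi))
    have hyi : y i ∈ V l (s.image x ∪ s.image y) :=
      subset_V _ (Finset.mem_union_right _ (Finset.mem_image_of_mem _ hi))
    have e1 := N_mul_u (R := R) (ε := ε) p hxi
    have e2 := u_mul_N (R := R) (ε := ε) (0 : K →ₗ[ZMod l] ZMod l) hyi
    rw [LinearMap.zero_apply, AddChar.map_zero_eq_one, one_smul] at e2
    rw [hA_single]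
    calc N R ε (s.image x ∪ s.image y) p * (R.w * ((c i * ε (p (x i))) • R.h (t i))) *
          N R ε (s.image x ∪ s.image y) 0
        = c i • ((ε (p (x i)) • N R ε (s.image x ∪ s.image y) p) * (R.w * R.h (t i)) *
            N R ε (s.image x ∪ s.image y) 0) := by
          simp only [mul_smul_comm, smul_mul_assoc, smul_smul]
      _ = c i • ((N R ε (s.image x ∪ s.image y) p * R.u (x i)) * (R.w * R.h (t i)) *
            (R.u (y i) * N R ε (s.image x ∪ s.image y) 0)) := by
          rw [e1, e2]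
      _ = _ := by
          simp only [mul_smul_comm, smul_mul_assoc, mul_assoc]
  · rw [cls_sum]
    simp only [cls_single]
    rw [← Finset.sum_filter]
    exact hp'

end Start

end H36Aug
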