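import Pool.Agent.Helper36.Aug.TrivialN
import Pool.Agent.Helper36.Aug.SLN

/-!
A nontrivial linear relation between the elements of `PSL_n(K)` in an algebra gives an element of the
ideal of the group algebra of the Levi subgroup that does not act as zero.
-/

set_option autoImplicit false

namespace H36Aug

namespace M

open Matrix

section Cls

variable {ι K P : Type*} [Fintype ι] [DecidableEq ι] [Field K] [Field P]

open Classical in
theorem cls_eq (t0 : GL ι K) (C : MonoidAlgebra P (GL ι K)) :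
    cls t0 C = C.coeff.sum fun t r => if t.1.det • t.1 = t0.1.det • t0.1 then r else 0 := by
  unfold cls Finsupp.sum
  rw [Finset.sum_filter]

theorem cls_add (t0 : GL ι K) (C D : MonoidAlgebra P (GL ι K)) :
    cls t0 (C + D) = cls t0 C + cls t0 D := by
  classical
  rw [cls_eq, cls_eq, cls_eq, MonoidAlgebra.coeff_add]
  refine Finsupp.sum_add_index' ?_ ?_
  · intro t; simp
  · intro t r r'
    split_ifs <;> simp

theorem cls_zero (t0 : GL ι K) : cls t0 (0 : MonoidAlgebra P (GL ι K)) = 0 := by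
  classical
  rw [cls_eq]
  simp

open Classical in
theorem cls_single (t0 t : GL ι K) (r : P) :
    cls t0 (MonoidAlgebra.single t r) = if t.1.det • t.1 = t0.1.det • t0.1 then r else 0 := by
  rw [cls_eq, MonoidAlgebra.coeff_single, Finsupp.sum_single_index]
  simp

theorem cls_sum {κ : Type*} (t0 : GL ι K) (s : Finset κ) (C : κ → MonoidAlgebra P (GL ι K)) :
    cls t0 (∑ i ∈ s, C i) = ∑ i ∈ s, cls t0 (C i) := by
  classical
  induction s using Finset.induction_on with
  | empty => simp [cls_zero]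
  | insert a s ha ih => rw [Finset.sum_insert ha, Finset.sum_insert ha, cls_add, ih]

end Cls

section Pos

variable {ι K : Type*} [Fintype ι] [DecidableEq ι] [Field K]

/-- the linear functional with given coefficients -/
def lf (b : ι → K) (d : K) : ((ι → K) × K) →ₗ[K] K where
  toFun p := p.1 ⬝ᵥ b + p.2 * d
  map_add' p q := by
    simp only [Prod.fst_add, Prod.snd_add, add_dotProduct]
    ring
  map_smul' r p := by
    simp only [Prod.smul_fst, Prod.smul_snd, smul_dotProduct, smul_eq_mul, RingHom.id_apply]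
    ring

theorem exists_y [Infinite K] {κ : Type*} (s : Finset κ) (b : κ → (ι → K)) (d : κ → K)
    (h : ∀ i ∈ s, ¬ (b i = 0 ∧ d i = 0)) : ∃ y : ι → K, ∀ i ∈ s, y ⬝ᵥ b i + d i ≠ 0 := by
  classical
  let q : Finset (Submodule K ((ι → K) × K)) :=
    insert (LinearMap.ker (lf (0 : ι → K) (1 : K))) (s.image (fun i => LinearMap.ker (lf (b i) (d i))))
  have h1 : (⋃ W ∈ q, (W : Set ((ι → K) × K))) ≠ Set.univ := by
    apply Subspace.biUnion_ne_univ_of_top_notMem
    intro ht
    rcases Finset.mem_insert.1 ht with h3 | h3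
    · have h4 : ((0 : ι → K), (1 : K)) ∈ LinearMap.ker (lf (0 : ι → K) (1 : K)) := by
        rw [← h3]; trivial
      rw [LinearMap.mem_ker] at h4
      simp [lf] at h4
    · obtain ⟨i, hi, hit⟩ := Finset.mem_image.1 h3
      apply h i hi
      constructor
      · funext j
        have h4 : ((Pi.single j 1 : ι → K), (0 : K)) ∈ LinearMap.ker (lf (b i) (d i)) := by
          rw [hit]; trivial
        rw [LinearMap.mem_ker] at h4
        simpa [lf] using h4
      · have h4 : ((0 : ι → K), (1 : K)) ∈ LinearMap.ker (lf (b i) (d i)) := by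
          rw [hit]; trivial
        rw [LinearMap.mem_ker] at h4
        simpa [lf] using h4
  obtain ⟨x, hx⟩ := (Set.ne_univ_iff_exists_notMem _).1 h1
  simp only [Set.mem_iUnion, not_exists, SetLike.mem_coe] at hx
  have hx2 : x.2 ≠ 0 := by
    intro h0
    refine hx _ (Finset.mem_insert_self _ _) ?_
    rw [LinearMap.mem_ker]
    simp [lf, h0]
  refine ⟨x.2⁻¹ • x.1, fun i hi h0 => ?_⟩
  refine hx _ (Finset.mem_insert_of_mem (Finset.mem_image_of_mem _ hi)) ?_
  rw [LinearMap.mem_ker]
  change x.1 ⬝ᵥ b i + x.2 * d i = 0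
  rw [smul_dotProduct, smul_eq_mul] at h0
  field_simp at h0
  linear_combination h0

theorem bl_entry (y : ι → K) (M : Matrix (ι ⊕ Unit) (ι ⊕ Unit) K) :
    (bl 1 0 y 1 * M) (Sum.inr ()) (Sum.inr ()) =
      y ⬝ᵥ (fun j => M (Sum.inl j) (Sum.inr ())) + M (Sum.inr ()) (Sum.inr ()) := by
  simp [bl, Matrix.mul_apply, dotProduct]

theorem hG_prop {B C : GL ι K} (h : B.1.det • B.1 = C.1.det • C.1) :
    ∃ z : K, (hG B).1 = z • (hG C).1 := by
  refine ⟨B.1.det⁻¹ * C.1.det, ?_⟩
  have hB := GL_det_ne B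
  have hC := GL_det_ne C
  rw [hG_val, hG_val, bl_smul]
  congr 1
  · rw [mul_smul, ← h, smul_smul, inv_mul_cancel₀ hB, one_smul]
  · simp
  · simp
  · field_simp

end Pos

section Start

variable {ι K P A : Type*} [Fintype ι] [DecidableEq ι] [Field K] [Field P] [Ring A] [Algebra P A]
  {l : ℕ} [Fact l.Prime] [Algebra (ZMod l) K] {ε : AddChar (ZMod l) P}

theorem start [Infinite K] (hε : ∀ a : ZMod l, ε a = 1 → a = 0)
    (π : SpecialLinearGroup (ι ⊕ Unit) K →* A)
    (hz : ∀ g g' : SpecialLinearGroup (ι ⊕ Unit) K, (∃ z : K, g'.1 = z • g.1) → π g = π g')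
    {κ : Type*} (s : Finset κ) (g : κ → SpecialLinearGroup (ι ⊕ Unit) K) (c : κ → P)
    (hg : ∀ i ∈ s, ∀ j ∈ s, i ≠ j → ∀ z : K, (g j).1 ≠ z • (g i).1) (i0 : κ) (hi0 : i0 ∈ s)
    (hc : c i0 ≠ 0) (hrel : ∑ i ∈ s, c i • π (g i) = 0) :
    ∃ (C : MonoidAlgebra P (GL ι K)) (t0 : GL ι K), Good (relN π hz) ε (hA P (relN π hz) C) ∧
      cls t0 C ≠ 0 := by
  classical
  obtain ⟨y, hy⟩ := exists_y s (fun i j => (g i).1 (Sum.inl j) (Sum.inr ()))
    (fun i => (g i).1 (Sum.inr ()) (Sum.inr ())) (by
      rintro i - ⟨h1, h2⟩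
      have h3 := (g i).2
      rw [det_eq_zero_of_column_eq_zero (Sum.inr ()) (by
        rintro (j | j)
        · exact congrFun h1 j
        · exact h2)] at h3
      exact zero_ne_one h3)
  have hcell : ∀ i, ∃ (x z : ι → K) (B : GL ι K), i ∈ s → vG y * g i = uG x * hG B * vG z := by
    intro i
    by_cases hi : i ∈ s
    · obtain ⟨x, z, B, h⟩ := cell (vG y * g i) (by
        rw [mul_val, vG_val, bl_entry]
        exact hy i hi)
      exact ⟨x, z, B, fun _ => h⟩
    · exact ⟨0, 0, 1, fun h => absurd h hi⟩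
  choose x z B hB using hcell
  set R := relN π hz with hR
  have hrel' : ∑ i ∈ s, c i • (R.u.f (x i) * R.h (B i) * R.v.f (z i)) = 0 := by
    have h2 : π (vG y) * (∑ i ∈ s, c i • π (g i)) = 0 := by rw [hrel, mul_zero]
    rw [← h2, Finset.mul_sum]
    refine Finset.sum_congr rfl fun i hi => ?_
    rw [mul_smul_comm, ← map_mul, hB i hi, map_mul, map_mul]
    rfl
  have hdist : ∀ i ∈ s, i ≠ i0 → (B i).1.det • (B i).1 = (B i0).1.det • (B i0).1 →
      ¬ (x i = x i0 ∧ z i = z i0) := by
    rintro i hi hne hBB ⟨hx, hzz⟩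
    obtain ⟨r, hr⟩ := hG_prop hBB
    apply hg i0 hi0 i hi hne.symm r
    have h1 : (vG y * g i).1 = r • (vG y * g i0).1 := by
      rw [hB i hi, hB i0 hi0, hx, hzz, mul_val, mul_val, hr, mul_val, mul_val]
      simp
    rw [mul_val, mul_val] at h1
    have h2 : (vG y)⁻¹.1 * (vG y).1 = 1 := by
      rw [← mul_val, inv_mul_cancel]
      rfl
    have h3 := congrArg (fun M => (vG y)⁻¹.1 * M) h1
    simp only [Matrix.mul_smul, ← Matrix.mul_assoc, h2, Matrix.one_mul] at h3
    exact h3
  have hεu : ∀ a, ε a ≠ 0 := by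
    intro a h
    have h1 : ε (a + -a) = 0 := by rw [AddChar.map_add_eq_mul, h, zero_mul]
    rw [add_neg_cancel, AddChar.map_zero_eq_one] at h1
    exact one_ne_zero h1
  have hεinj : ∀ a c : ZMod l, ε a = ε c → a = c := by
    intro a c h
    have h2 : ε (a - c) = 1 := by
      rw [AddChar.map_sub_eq_div, h, div_self (hεu _)]
    exact sub_eq_zero.1 (hε _ h2)
  -- choice of the functionals
  have hex : ∃ p q : (ι → K) →ₗ[ZMod l] ZMod l,
      ∑ i ∈ s with (B i).1.det • (B i).1 = (B i0).1.det • (B i0).1,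
        c i * (ε (p (x i)) * ε (q (z i))) ≠ 0 := by
    by_contra hno
    push Not at hno
    have hd := ded (s.filter (fun i => (B i).1.det • (B i).1 = (B i0).1.det • (B i0).1)) c
      (fun i => ch ε (∅ : Finset (ι → K)) (x i) (z i)) (by
        intro q
        exact hno q.toAdd.1.1 q.toAdd.1.2) (ch ε ∅ (x i0) (z i0))
    have hcl : (s.filter (fun i => (B i).1.det • (B i).1 = (B i0).1.det • (B i0).1)).filter
        (fun i => ch ε (∅ : Finset (ι → K)) (x i) (z i) = ch ε ∅ (x i0) (z i0)) = {i0} := by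
      ext i
      simp only [Finset.mem_filter, Finset.mem_singleton]
      constructor
      · rintro ⟨⟨hi, hBB⟩, hch⟩
        by_contra hii
        apply hdist i hi hii hBB
        constructor
        · by_contra hne
          have hne' : x i - x i0 ∉ (⊥ : Submodule (ZMod l) (ι → K)) := by
            rw [Submodule.mem_bot]
            exact sub_ne_zero.2 hne
          obtain ⟨ν, -, hν⟩ := sep _ hne'
          apply hν
          have hgg : (ν, (0 : (ι → K) →ₗ[ZMod l] ZMod l)) ∈ GG l (∅ : Finset (ι → K)) :=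
            fun x hx => absurd hx (Finset.notMem_empty _)
          have := DFunLike.congr_fun hch
            (Multiplicative.ofAdd (⟨_, hgg⟩ : GG l (∅ : Finset (ι → K))))
          simp only [ch, MonoidHom.coe_mk, OneHom.coe_mk, toAdd_ofAdd, LinearMap.zero_apply,
            AddChar.map_zero_eq_one, mul_one] at this
          rw [map_sub, hεinj _ _ this, sub_self]
        · by_contra hne
          have hne' : z i - z i0 ∉ (⊥ : Submodule (ZMod l) (ι → K)) := by
            rw [Submodule.mem_bot]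
            exact sub_ne_zero.2 hne
          obtain ⟨ν, -, hν⟩ := sep _ hne'
          apply hν
          have hgg : ((0 : (ι → K) →ₗ[ZMod l] ZMod l), ν) ∈ GG l (∅ : Finset (ι → K)) :=
            fun x hx => absurd hx (Finset.notMem_empty _)
          have := DFunLike.congr_fun hch
            (Multiplicative.ofAdd (⟨_, hgg⟩ : GG l (∅ : Finset (ι → K))))
          simp only [ch, MonoidHom.coe_mk, OneHom.coe_mk, toAdd_ofAdd, LinearMap.zero_apply,
            AddChar.map_zero_eq_one, one_mul] at this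
          rw [map_sub, hεinj _ _ this, sub_self]
      · rintro rfl
        exact ⟨⟨hi0, rfl⟩, rfl⟩
    rw [hcl, Finset.sum_singleton] at hd
    exact hc hd
  obtain ⟨p, q, hpq⟩ := hex
  refine ⟨∑ i ∈ s, MonoidAlgebra.single (B i) (c i * (ε (p (x i)) * ε (q (z i)))), B i0,
    ⟨s.image x, s.image z, p, q, ?_⟩, ?_⟩
  · have h2 : N R.u ε (s.image x) p *
        (∑ i ∈ s, c i • (R.u.f (x i) * R.h (B i) * R.v.f (z i))) *
          N R.v ε (s.image z) q = 0 := by rw [hrel']; simp
    rw [← h2, map_sum, Finset.mul_sum, Finset.mul_sum, Finset.sum_mul, Finset.sum_mul]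
    refine Finset.sum_congr rfl fun i hi => ?_
    have hxi : x i ∈ V l (s.image x) := subset_V _ (Finset.mem_image_of_mem _ hi)
    have hyi : z i ∈ V l (s.image z) := subset_V _ (Finset.mem_image_of_mem _ hi)
    have e1 : N R.u ε (s.image x) p * R.u.f (x i) = ε (p (x i)) • N R.u ε (s.image x) p := N_mul p hxi
    have e2 : R.v.f (z i) * N R.v ε (s.image z) q = ε (q (z i)) • N R.v ε (s.image z) q := mul_N q hyi
    rw [hA_single]
    calc N R.u ε (s.image x) p * ((c i * (ε (p (x i)) * ε (q (z i)))) • R.h (B i)) *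
          N R.v ε (s.image z) q
        = c i • ((ε (p (x i)) • N R.u ε (s.image x) p) * R.h (B i) *
            (ε (q (z i)) • N R.v ε (s.image z) q)) := by
          simp only [mul_smul_comm, smul_mul_assoc, smul_smul]
          congr 1
          ring
      _ = _ := by
          rw [← e1, ← e2]
          simp only [mul_smul_comm, smul_mul_assoc, mul_assoc]
  · rw [cls_sum]
    simp only [cls_single]
    rw [← Finset.sum_filter]
    exact hpq

/-- the unipotent radical acts trivially -/
theorem uG_one [Infinite K] [Nontrivial ι] (hP : (l : P) ≠ 0) (hε : ∀ a : ZMod l, ε a = 1 → a = 0)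
    (π : SpecialLinearGroup (ι ⊕ Unit) K →* A)
    (hz : ∀ g g' : SpecialLinearGroup (ι ⊕ Unit) K, (∃ z : K, g'.1 = z • g.1) → π g = π g')
    {κ : Type*} (s : Finset κ) (g : κ → SpecialLinearGroup (ι ⊕ Unit) K) (c : κ → P)
    (hg : ∀ i ∈ s, ∀ j ∈ s, i ≠ j → ∀ z : K, (g j).1 ≠ z • (g i).1) (i0 : κ) (hi0 : i0 ∈ s)
    (hc : c i0 ≠ 0) (hrel : ∑ i ∈ s, c i • π (g i) = 0) (x : ι → K) : π (uG x) = 1 := by
  obtain ⟨C, t0, h1, h2⟩ := start (ε := ε) hε π hz s g c hg i0 hi0 hc hrel
  exact u_one hP hε (dich hP hε h1 t0 h2) x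

end Start

end M

end H36Aug
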