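import Pool.Agent.Helper36.Aug.Start
import Pool.Agent.Helper36.Aug.Kill
import Pool.Agent.Helper36.Aug.Square

/-!
A homomorphism from `PSL₂(K)` to an algebra over a field with a primitive `l`-th root of unity is
trivial if its values satisfy a nontrivial linear relation.
-/

set_option autoImplicit false

namespace H36Aug

open Matrix

section Prime

variable {P B : Type*} [Field P] [CommRing B] [Algebra P B] {l : ℕ}

/-- an element `u - 1` with `u ^ l = 1` is a multiple of its square if `l` is invertible -/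
theorem sub_one_eq (hP : (l : P) ≠ 0) {u : B} (hu : u ^ l = 1) :
    ∃ y : B, u - 1 = y * (u - 1) * (u - 1) := by
  have h1 : (∑ i ∈ Finset.range l, u ^ i) * (u - 1) = 0 := by
    rw [geom_sum_mul, hu, sub_self]
  have h2 : ∀ i : ℕ, ∃ z : B, u ^ i - 1 = z * (u - 1) := fun i => by
    refine ⟨∑ j ∈ Finset.range i, u ^ j, ?_⟩
    rw [geom_sum_mul]
  choose z hz using h2
  have h3 : ∑ i ∈ Finset.range l, u ^ i = (l : B) + (∑ i ∈ Finset.range l, z i) * (u - 1) := by
    rw [Finset.sum_mul]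
    have : ∀ i ∈ Finset.range l, u ^ i = 1 + z i * (u - 1) := fun i _ => by rw [← hz]; ring
    rw [Finset.sum_congr rfl this, Finset.sum_add_distrib]
    simp
  have h4 : algebraMap P B (l : P)⁻¹ * (l : B) = 1 := by
    rw [← map_natCast (algebraMap P B) l, ← map_mul, inv_mul_cancel₀ hP, map_one]
  refine ⟨-(algebraMap P B (l : P)⁻¹ * ∑ i ∈ Finset.range l, z i), ?_⟩
  rw [h3] at h1
  linear_combination (algebraMap P B (l : P)⁻¹) * h1 - (u - 1) * h4

theorem pow_mem_imp {J : Ideal B} {v y : B} (h : v = y * v * v) {n : ℕ} (hn : v ^ n ∈ J) : v ∈ J := by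
  have h1 : ∀ n : ℕ, v = (y ^ n * v) * v ^ n := by
    intro n
    induction n with
    | zero => simp
    | succ n ih =>
      calc v = (y ^ n * v) * v ^ n := ih
        _ = (y ^ n * (y * v * v)) * v ^ n := by rw [← h]
        _ = (y ^ (n + 1) * v) * v ^ (n + 1) := by ring
  rw [h1 n]
  exact J.mul_mem_left _ hn

end Prime

variable {K P A : Type*} [Field K] [Field P] [Ring A] [Algebra P A] {l : ℕ} [Fact l.Prime]
  [Algebra (ZMod l) K] {ε : AddChar (ZMod l) P}

/-- the group algebra of the root group acts -/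
noncomputable def uA (P : Type*) [Field P] [Algebra P A] (R : Rel K A) :
    MonoidAlgebra P (Multiplicative K) →ₐ[P] A :=
  MonoidAlgebra.lift P A (Multiplicative K)
    { toFun := fun x => R.u x.toAdd
      map_one' := by simp [R.u_zero]
      map_mul' := fun x y => by rw [toAdd_mul, R.u_add] }

theorem uA_single (R : Rel K A) (x : Multiplicative K) (r : P) :
    uA P R (MonoidAlgebra.single x r) = r • R.u x.toAdd := by
  simp [uA]

/-- the functional defined by a homomorphism from the group algebra of the root group to a domain -/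
theorem exists_phi (hε : ∀ a : ZMod l, ε a = 1 → a = 0) {D : Type*} [CommRing D] [IsDomain D]
    (mk : MonoidAlgebra P (Multiplicative K) →+* D) :
    ∃ φ : K →ₗ[ZMod l] ZMod l, ∀ (a : K) (r : P),
      mk (MonoidAlgebra.single (Multiplicative.ofAdd a) r) =
        mk (algebraMap P _ (r * ε (φ a))) := by
  classical
  let al : P →+* D := mk.comp (algebraMap P (MonoidAlgebra P (Multiplicative K)))
  have hmk : ∀ (a : K) (r : P), mk (MonoidAlgebra.single (Multiplicative.ofAdd a) r) =
      al r * mk (MonoidAlgebra.single (Multiplicative.ofAdd a) 1) := by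
    intro a r
    have e : MonoidAlgebra.single (Multiplicative.ofAdd a) r =
        algebraMap P (MonoidAlgebra P (Multiplicative K)) r *
          MonoidAlgebra.single (Multiplicative.ofAdd a) 1 := by
      simp
    rw [e, map_mul]
    rfl
  have hprim : IsPrimitiveRoot (ε 1) l := by
    have hp : ∀ n : ℕ, ε 1 ^ n = ε (n : ZMod l) := by
      intro n
      rw [← AddChar.map_nsmul_eq_pow]
      simp
    refine ⟨by rw [hp]; simp, fun k hk => ?_⟩
    rw [hp] at hk
    exact (ZMod.natCast_eq_zero_iff _ _).1 (hε _ hk)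
  have hprim' : IsPrimitiveRoot (al (ε 1)) l := hprim.map_of_injective al.injective
  have hex : ∀ a : K, ∃ i : ZMod l, mk (MonoidAlgebra.single (Multiplicative.ofAdd a) 1) = al (ε i) := by
    intro a
    have h1 : mk (MonoidAlgebra.single (Multiplicative.ofAdd a) 1) ^ l = 1 := by
      rw [← map_pow, MonoidAlgebra.single_pow, one_pow, ← ofAdd_nsmul]
      have : l • a = 0 := by
        rw [← Nat.cast_smul_eq_nsmul (ZMod l)]
        simp
      rw [this, ofAdd_zero, ← MonoidAlgebra.one_def, map_one]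
    obtain ⟨i, -, hi⟩ := hprim'.eq_pow_of_pow_eq_one h1
    refine ⟨(i : ZMod l), ?_⟩
    rw [← hi, ← map_pow, ← AddChar.map_nsmul_eq_pow]
    simp
  choose f hf using hex
  have hinj : ∀ a b : ZMod l, al (ε a) = al (ε b) → a = b := by
    intro a b h
    have h1 := al.injective h
    have h5 : ε b ≠ 0 := by
      intro h
      have h6 : ε (b + -b) = 0 := by rw [AddChar.map_add_eq_mul, h, zero_mul]
      rw [add_neg_cancel, AddChar.map_zero_eq_one] at h6
      exact one_ne_zero h6
    have h2 : ε (a - b) = 1 := by rw [AddChar.map_sub_eq_div, h1, div_self h5]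
    exact sub_eq_zero.1 (hε _ h2)
  let f' : K →+ ZMod l := AddMonoidHom.mk' f (by
    intro a b
    apply hinj
    rw [← hf, AddChar.map_add_eq_mul, map_mul, ← hf, ← hf, ← map_mul, MonoidAlgebra.single_mul_single,
      ofAdd_add, one_mul])
  refine ⟨f'.toZModLinearMap l, fun a r => ?_⟩
  rw [hmk, hf]
  change al r * al (ε (f a)) = al (r * ε (f a))
  rw [map_mul]

theorem u_trivial [Infinite K] (hP : (l : P) ≠ 0) (hε : ∀ a : ZMod l, ε a = 1 → a = 0)
    (π : SpecialLinearGroup (Fin 2) K →* A) (h1 : π (-1) = 1) {ι : Type*}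
    (s : Finset ι) (g : ι → SpecialLinearGroup (Fin 2) K) (c : ι → P)
    (hg : ∀ i ∈ s, ∀ j ∈ s, i ≠ j → g j ≠ g i ∧ g j ≠ -g i) (i0 : ι) (hi0 : i0 ∈ s) (hc : c i0 ≠ 0)
    (hrel : ∑ i ∈ s, c i • π (g i) = 0) (x : K) : π (U x) = 1 := by
  classical
  set R := relOf π h1 with hR
  by_contra hx
  have hx' : R.u x ≠ 1 := hx
  let v : MonoidAlgebra P (Multiplicative K) := MonoidAlgebra.single (Multiplicative.ofAdd x) 1 - 1
  have hv : v ∉ RingHom.ker (uA P R) := by
    intro h
    rw [RingHom.mem_ker, map_sub, uA_single, map_one, one_smul, sub_eq_zero] at h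
    exact hx' h
  have hv1 : v ∉ (RingHom.ker (uA P R)).radical := by
    rintro ⟨n, hn⟩
    have hpow : (MonoidAlgebra.single (Multiplicative.ofAdd x) (1 : P)) ^ l = 1 := by
      rw [MonoidAlgebra.single_pow, one_pow, ← ofAdd_nsmul]
      have : l • x = 0 := by
        rw [← Nat.cast_smul_eq_nsmul (ZMod l)]
        simp
      rw [this, ofAdd_zero, ← MonoidAlgebra.one_def]
    obtain ⟨y, hy⟩ := sub_one_eq (P := P) hP hpow
    exact hv (pow_mem_imp hy hn)
  rw [Ideal.radical_eq_sInf, Submodule.mem_sInf] at hv1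
  push Not at hv1
  obtain ⟨n, ⟨hn, hnp⟩, hvn⟩ := hv1
  have hd : IsDomain (MonoidAlgebra P (Multiplicative K) ⧸ n) := Ideal.Quotient.isDomain n
  obtain ⟨φ, hφ⟩ := exists_phi (D := MonoidAlgebra P (Multiplicative K) ⧸ n) hε (Ideal.Quotient.mk n)
  have hφx : φ x ≠ 0 := by
    intro h
    apply hvn
    have h2 := hφ x 1
    rw [h, AddChar.map_zero_eq_one, mul_one, map_one, map_one] at h2
    rw [← Ideal.Quotient.eq_zero_iff_mem]
    change Ideal.Quotient.mk n (MonoidAlgebra.single (Multiplicative.ofAdd x) 1 - 1) = 0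
    rw [map_sub, h2, map_one, sub_self]
  have hW := WW_sq φ
  have hWt := WW_ne hφx
  obtain ⟨C, t0, hC, ht0⟩ := start (W := WW φ) hW hWt hε π h1 s g c hg i0 hi0 hc hrel
  have htop : CI hP hW R ε = ⊤ := by
    by_contra hne
    exact ht0 (dich hP hW hWt hε hne (mem_CI.2 hC) t0)
  obtain ⟨y0, hy0⟩ : ∃ y0, y0 ∉ WW φ := by
    by_contra h
    push Not at h
    exact hWt (Submodule.eq_top_iff'.2 h)
  obtain ⟨ψ0, hψ0, hψ0'⟩ := sep (WW φ) hy0
  obtain ⟨T, ψ, hT, hψe, hψ, hN⟩ := kill hP hW htop {y0} ψ0 hψ0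
  obtain ⟨r, hr⟩ := square hφx T ψ hψ
  have hy0T : y0 ∈ T := hT (Finset.mem_singleton_self y0)
  have hr0 : r ≠ 0 := by
    intro h
    have h2 := hr y0 hy0T
    rw [h, hψe y0 (Finset.mem_singleton_self y0)] at h2
    apply hψ0'
    rw [← h2]
    simp
  have hrV : ∀ y ∈ V l T, φ (r ^ 2 * y) = ψ y := fun y hy => V_eq hr hy
  have h3 : R.h (Units.mk0 r hr0) * N R ε T ψ * R.h (Units.mk0 r hr0)⁻¹ = 0 := by
    rw [hN]; simp
  have h4 : (∑ y ∈ V l T, MonoidAlgebra.single (Multiplicative.ofAdd (r ^ 2 * y)) (ε (-ψ y))) ∈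
      RingHom.ker (uA P R) := by
    rw [RingHom.mem_ker, ← h3, map_sum, N.eq_def, Finset.mul_sum, Finset.sum_mul]
    refine Finset.sum_congr rfl fun y _ => ?_
    rw [uA_single, mul_smul_comm, smul_mul_assoc, R.hu, mul_assoc, ← R.h_mul, mul_inv_cancel,
      R.h_one, mul_one]
    rfl
  have h5 := Ideal.Quotient.eq_zero_iff_mem.2 (hn h4)
  rw [map_sum] at h5
  have h6 : ∀ y ∈ V l T, Ideal.Quotient.mk n
      (MonoidAlgebra.single (Multiplicative.ofAdd (r ^ 2 * y)) (ε (-ψ y))) = 1 := by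
    intro y hy
    rw [hφ, hrV y hy, ← AddChar.map_add_eq_mul, neg_add_cancel, AddChar.map_zero_eq_one, map_one,
      map_one]
  rw [Finset.sum_congr rfl h6, Finset.sum_const, nsmul_eq_mul, mul_one] at h5
  have h7 : (Ideal.Quotient.mk n).comp (algebraMap P (MonoidAlgebra P (Multiplicative K)))
      ((V l T).card : P) = 0 := by
    rw [map_natCast, h5]
  rw [map_eq_zero] at h7
  exact card_V_ne hP T h7

theorem rep_trivial [Infinite K] (hP : (l : P) ≠ 0) (hε : ∀ a : ZMod l, ε a = 1 → a = 0)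
    (π : SpecialLinearGroup (Fin 2) K →* A) (h1 : π (-1) = 1) {ι : Type*}
    (s : Finset ι) (g : ι → SpecialLinearGroup (Fin 2) K) (c : ι → P)
    (hg : ∀ i ∈ s, ∀ j ∈ s, i ≠ j → g j ≠ g i ∧ g j ≠ -g i) (i0 : ι) (hi0 : i0 ∈ s) (hc : c i0 ≠ 0)
    (hrel : ∑ i ∈ s, c i • π (g i) = 0) (M : SpecialLinearGroup (Fin 2) K) : π M = 1 := by
  have hu : ∀ x, π (U x) = 1 := u_trivial hP hε π h1 s g c hg i0 hi0 hc hrel
  have hwh : ∀ t : Kˣ, π Wm * π (H t) = 1 := by
    intro t
    have h2 := (relOf π h1).wuw t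
    have h3 := (relOf π h1).w_mul
    change π Wm * π (U t) * π Wm = π (U _) * π Wm * π (H t) * π (U _) at h2
    change π Wm * π Wm = 1 at h3
    rw [hu, hu, mul_one, one_mul, mul_one, h3] at h2
    exact h2.symm
  have hw : π Wm = 1 := by
    have := hwh 1
    rwa [H_one, map_one, mul_one] at this
  have hbig : ∀ M : SpecialLinearGroup (Fin 2) K, M.1 1 0 ≠ 0 → π M = 1 := by
    intro M hM
    rw [bruhat M (Units.mk0 _ hM) rfl, map_mul, map_mul, map_mul, hu, hu, hwh, one_mul, one_mul]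
  by_cases hM : M.1 1 0 = 0
  · have hd := M.2
    rw [Matrix.det_fin_two, hM, mul_zero, sub_zero] at hd
    have h00 : M.1 0 0 ≠ 0 := left_ne_zero_of_mul (by rw [hd]; exact one_ne_zero)
    have h2 : (Wm * M).1 1 0 = M.1 0 0 := by
      have e : (Wm * M).1 = !![0, -1; 1, 0] * M.1 := rfl
      rw [e, Matrix.eta_fin_two M.1]
      simp
    have h3 := hbig (Wm * M) (by rw [h2]; exact h00)
    rwa [map_mul, hw, one_mul] at h3
  · exact hbig M hM

end H36Aug
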