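import Pool.Agent.Helper36.Aug.SharpN
import Pool.Agent.Helper36.Aug.Density2
import Pool.Agent.Helper36.Aug.Trivial

/-!
If the unit element is killed between two character sums then the unipotent radical acts trivially.
-/

set_option autoImplicit false

namespace H36Aug

namespace M

open Matrix

section Act

variable {E P A : Type*} [AddCommGroup E] [Field P] [Ring A] [Algebra P A] {l : ℕ} [Fact l.Prime]
  [Module (ZMod l) E] {ε : AddChar (ZMod l) P}

/-- the group algebra acts -/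
noncomputable def Act.alg (P : Type*) [Field P] [Algebra P A] (u : Act E A) :
    MonoidAlgebra P (Multiplicative E) →ₐ[P] A :=
  MonoidAlgebra.lift P A (Multiplicative E)
    { toFun := fun x => u.f x.toAdd
      map_one' := by simp [u.zero]
      map_mul' := fun x y => by rw [toAdd_mul, u.add] }

theorem Act.alg_single (u : Act E A) (x : Multiplicative E) (r : P) :
    u.alg P (MonoidAlgebra.single x r) = r • u.f x.toAdd := by
  simp [Act.alg]

/-- the character sum in the group algebra -/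
noncomputable def NN (ε : AddChar (ZMod l) P) (S : Finset E) (χ : E →ₗ[ZMod l] ZMod l) :
    MonoidAlgebra P (Multiplicative E) :=
  ∑ x ∈ V l S, MonoidAlgebra.single (Multiplicative.ofAdd x) (ε (-χ x))

theorem Act.alg_NN (u : Act E A) (S : Finset E) (χ : E →ₗ[ZMod l] ZMod l) :
    u.alg P (NN ε S χ) = N u ε S χ := by
  rw [NN, N, map_sum]
  refine Finset.sum_congr rfl fun x _ => ?_
  rw [Act.alg_single]
  rfl

/-- the functional defined by a homomorphism from the group algebra to a domain -/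
theorem exists_phi (hε : ∀ a : ZMod l, ε a = 1 → a = 0) {D : Type*} [CommRing D] [IsDomain D]
    (mk : MonoidAlgebra P (Multiplicative E) →+* D) :
    ∃ φ : E →ₗ[ZMod l] ZMod l, ∀ (a : E) (r : P),
      mk (MonoidAlgebra.single (Multiplicative.ofAdd a) r) =
        mk (algebraMap P _ (r * ε (φ a))) := by
  classical
  let al : P →+* D := mk.comp (algebraMap P (MonoidAlgebra P (Multiplicative E)))
  have hmk : ∀ (a : E) (r : P), mk (MonoidAlgebra.single (Multiplicative.ofAdd a) r) =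
      al r * mk (MonoidAlgebra.single (Multiplicative.ofAdd a) 1) := by
    intro a r
    have e : MonoidAlgebra.single (Multiplicative.ofAdd a) r =
        algebraMap P (MonoidAlgebra P (Multiplicative E)) r *
          MonoidAlgebra.single (Multiplicative.ofAdd a) 1 := by
      simp
    rw [e, map_mul]
    rfl
  have hprim : IsPrimitiveRoot (ε 1) l := by
    have hp : ∀ n : ℕ, ε 1 ^ n = ε (n : ZMod l) := by
      intro n
      rw [← AddChar.map_nsmul_eq_pow]
      simp
    refine ⟨by rw [hp]; simp, fun k hk => ?_⟩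
    rw [hp] at hk
    exact (ZMod.natCast_eq_zero_iff _ _).1 (hε _ hk)
  have hprim' : IsPrimitiveRoot (al (ε 1)) l := hprim.map_of_injective al.injective
  have hex : ∀ a : E, ∃ i : ZMod l, mk (MonoidAlgebra.single (Multiplicative.ofAdd a) 1) = al (ε i) := by
    intro a
    have h1 : mk (MonoidAlgebra.single (Multiplicative.ofAdd a) 1) ^ l = 1 := by
      rw [← map_pow, MonoidAlgebra.single_pow, one_pow, ← ofAdd_nsmul]
      have : l • a = 0 := by
        rw [← Nat.cast_smul_eq_nsmul (ZMod l)]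
        simp
      rw [this, ofAdd_zero, ← MonoidAlgebra.one_def, map_one]
    obtain ⟨i, -, hi⟩ := hprim'.eq_pow_of_pow_eq_one h1
    refine ⟨(i : ZMod l), ?_⟩
    rw [← hi, ← map_pow, ← AddChar.map_nsmul_eq_pow]
    simp
  choose f hf using hex
  have hinj : ∀ a b : ZMod l, al (ε a) = al (ε b) → a = b := by
    intro a b h
    have h1 := al.injective h
    have h5 : ε b ≠ 0 := by
      intro h
      have h6 : ε (b + -b) = 0 := by rw [AddChar.map_add_eq_mul, h, zero_mul]
      rw [add_neg_cancel, AddChar.map_zero_eq_one] at h6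
      exact one_ne_zero h6
    have h2 : ε (a - b) = 1 := by rw [AddChar.map_sub_eq_div, h1, div_self h5]
    exact sub_eq_zero.1 (hε _ h2)
  let f' : E →+ ZMod l := AddMonoidHom.mk' f (by
    intro a b
    apply hinj
    rw [← hf, AddChar.map_add_eq_mul, map_mul, ← hf, ← hf, ← map_mul, MonoidAlgebra.single_mul_single,
      ofAdd_add, one_mul])
  refine ⟨f'.toZModLinearMap l, fun a r => ?_⟩
  rw [hmk, hf]
  change al r * al (ε (f a)) = al (r * ε (f a))
  rw [map_mul]

/-- an ideal of the group algebra that contains a character sum for every character that does not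
vanish at `x` contains `x - 1` -/
theorem mem_of_sums (hP : (l : P) ≠ 0) (hε : ∀ a : ZMod l, ε a = 1 → a = 0)
    (J : Ideal (MonoidAlgebra P (Multiplicative E))) (x : E)
    (h : ∀ φ : E →ₗ[ZMod l] ZMod l, φ x ≠ 0 → ∃ S, NN ε S φ ∈ J) :
    MonoidAlgebra.single (Multiplicative.ofAdd x) 1 - 1 ∈ J := by
  by_contra hv
  have hv1 : MonoidAlgebra.single (Multiplicative.ofAdd x) (1 : P) - 1 ∉ J.radical := by
    rintro ⟨n, hn⟩
    have hpow : (MonoidAlgebra.single (Multiplicative.ofAdd x) (1 : P)) ^ l = 1 := by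
      rw [MonoidAlgebra.single_pow, one_pow, ← ofAdd_nsmul]
      have : l • x = 0 := by
        rw [← Nat.cast_smul_eq_nsmul (ZMod l)]
        simp
      rw [this, ofAdd_zero, ← MonoidAlgebra.one_def]
    obtain ⟨y, hy⟩ := sub_one_eq (P := P) hP hpow
    exact hv (pow_mem_imp hy hn)
  rw [Ideal.radical_eq_sInf, Submodule.mem_sInf] at hv1
  push Not at hv1
  obtain ⟨n, ⟨hn, hnp⟩, hvn⟩ := hv1
  have hd : IsDomain (MonoidAlgebra P (Multiplicative E) ⧸ n) := Ideal.Quotient.isDomain n
  obtain ⟨φ, hφ⟩ := exists_phi (D := MonoidAlgebra P (Multiplicative E) ⧸ n) hε (Ideal.Quotient.mk n)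
  have hφx : φ x ≠ 0 := by
    intro h
    apply hvn
    have h2 := hφ x 1
    rw [h, AddChar.map_zero_eq_one, mul_one, map_one, map_one] at h2
    rw [← Ideal.Quotient.eq_zero_iff_mem, map_sub, h2, map_one, sub_self]
  obtain ⟨S, hS⟩ := h φ hφx
  have h5 := Ideal.Quotient.eq_zero_iff_mem.2 (hn hS)
  rw [NN, map_sum] at h5
  have h6 : ∀ y ∈ V l S, Ideal.Quotient.mk n
      (MonoidAlgebra.single (Multiplicative.ofAdd y) (ε (-φ y))) = 1 := by
    intro y _
    rw [hφ, ← AddChar.map_add_eq_mul, neg_add_cancel, AddChar.map_zero_eq_one, map_one, map_one]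
  rw [Finset.sum_congr rfl h6, Finset.sum_const, nsmul_eq_mul, mul_one] at h5
  have h7 : (Ideal.Quotient.mk n).comp (algebraMap P (MonoidAlgebra P (Multiplicative E)))
      ((V l S).card : P) = 0 := by
    rw [map_natCast, h5]
  rw [map_eq_zero] at h7
  exact card_V_ne hP S h7

end Act

variable {ι K P A : Type*} [Fintype ι] [DecidableEq ι] [Field K] [Field P] [Ring A] [Algebra P A]
  {l : ℕ} [Fact l.Prime] [Algebra (ZMod l) K] {R : RelN ι K A} {ε : AddChar (ZMod l) P}

theorem star [Infinite K] [Nontrivial ι] (hP : (l : P) ≠ 0) (hg : Good R ε 1)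
    {χ χ' : (ι → K) →ₗ[ZMod l] ZMod l} (hχ : χ ≠ 0) (hχ' : χ' ≠ 0) :
    ∃ S S', N R.u ε S χ * N R.v ε S' χ' = 0 := by
  classical
  obtain ⟨S, S', χ0, χ0', h0⟩ := hg
  obtain ⟨B, hB1, hB2⟩ := density S S' χ0 χ0' hχ hχ'
  refine ⟨S.image (au l B), S'.image (av l B⁻¹), ?_⟩
  have := transfer hP h0 (a := R.h B) (b := R.h B⁻¹) (g := au l B) (g' := av l B⁻¹)
    (T := S.image (au l B)) (T' := S'.image (av l B⁻¹)) (ψ := χ) (ψ' := χ') (R.hu B) (R.hv' B⁻¹)
    (fun x hx => subset_V _ (Finset.mem_image_of_mem _ hx)) hB1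
    (fun x hx => subset_V _ (Finset.mem_image_of_mem _ hx)) hB2
  rwa [mul_one, ← map_mul, mul_inv_cancel, map_one, mul_one] at this

/-- the ideal of all elements killed by a character sum from the left -/
noncomputable def JJ (hP : (l : P) ≠ 0) (R : RelN ι K A) (ε : AddChar (ZMod l) P)
    (χ : (ι → K) →ₗ[ZMod l] ZMod l) : Ideal (MonoidAlgebra P (Multiplicative (ι → K))) where
  carrier := {β | ∃ F, N R.u ε F χ * R.v.alg P β = 0}
  add_mem' := by
    classical
    rintro a b ⟨F, hF⟩ ⟨F', hF'⟩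
    refine ⟨F ∪ F', ?_⟩
    have h1 := extend_one hP hF (T := F ∪ F') (ψ := χ)
      (fun x hx => subset_V _ (Finset.mem_union_left _ hx)) (fun _ _ => rfl)
    have h2 := extend_one hP hF' (T := F ∪ F') (ψ := χ)
      (fun x hx => subset_V _ (Finset.mem_union_right _ hx)) (fun _ _ => rfl)
    rw [map_add, mul_add, h1, h2, add_zero]
  zero_mem' := ⟨∅, by simp⟩
  smul_mem' := by
    rintro c x ⟨F, hF⟩
    refine ⟨F, ?_⟩
    rw [smul_eq_mul, mul_comm, map_mul, ← mul_assoc, hF, zero_mul]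

theorem mem_JJ {hP : (l : P) ≠ 0} {χ : (ι → K) →ₗ[ZMod l] ZMod l}
    {β : MonoidAlgebra P (Multiplicative (ι → K))} :
    β ∈ JJ hP R ε χ ↔ ∃ F, N R.u ε F χ * R.v.alg P β = 0 := Iff.rfl

theorem step2 [Infinite K] [Nontrivial ι] (hP : (l : P) ≠ 0) (hε : ∀ a : ZMod l, ε a = 1 → a = 0)
    (hg : Good R ε 1) {χ : (ι → K) →ₗ[ZMod l] ZMod l} (hχ : χ ≠ 0) (y : ι → K) :
    ∃ F, N R.u ε F χ * R.v.f y = N R.u ε F χ := by
  have h1 := mem_of_sums (E := ι → K) hP hε (JJ hP R ε χ) y (by
    intro φ hφ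
    obtain ⟨S, S', hS⟩ := star hP hg hχ (χ' := φ) (by
      rintro rfl
      exact hφ rfl)
    refine ⟨S', mem_JJ.2 ⟨S, ?_⟩⟩
    rw [Act.alg_NN]
    exact hS)
  obtain ⟨F, hF⟩ := mem_JJ.1 h1
  refine ⟨F, ?_⟩
  rw [map_sub, Act.alg_single, map_one, one_smul, mul_sub, mul_one, sub_eq_zero] at hF
  exact hF

theorem step3 [Infinite K] [Nontrivial ι] (hP : (l : P) ≠ 0) (hε : ∀ a : ZMod l, ε a = 1 → a = 0)
    (hg : Good R ε 1) {χ : (ι → K) →ₗ[ZMod l] ZMod l} (hχ : χ ≠ 0) :
    ∃ F, N R.u ε F χ = 0 := by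
  classical
  obtain ⟨κ, rfl⟩ := exists_FF χ
  obtain ⟨j, hj⟩ : ∃ j, κ j ≠ 0 := by
    by_contra hno
    push Not at hno
    apply hχ
    rw [show κ = 0 from funext hno]
    ext x
    simp [FF_apply]
  obtain ⟨z, hz⟩ : ∃ z, κ j z ≠ 0 := by
    by_contra hno
    push Not at hno
    exact hj (LinearMap.ext hno)
  obtain ⟨k, hk⟩ := exists_ne j
  let x : ι → K := Pi.single j z
  let y : ι → K := Pi.single k 1
  have hyx : y ⬝ᵥ x = 0 := by
    simp only [x, y]
    rw [single_dotProduct, Pi.single_eq_of_ne hk, mul_zero]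
  have hd : 1 + y ⬝ᵥ x ≠ 0 := by
    rw [hyx, add_zero]
    exact one_ne_zero
  have hvu := R.vu x y hd
  rw [hyx, add_zero, inv_one, one_smul, one_smul] at hvu
  have hB : (Tm x y hd).1 = transvection j k (-z) := by
    rw [Tm_val, hyx, add_zero, inv_one, one_smul, transvection]
    ext a b
    rw [Matrix.sub_apply, Matrix.add_apply, vecMulVec_apply, Matrix.single_apply]
    simp only [x, y, Pi.single_apply]
    by_cases ha : a = j
    · by_cases hb : b = k
      · simp [ha, hb, sub_eq_add_neg]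
      · simp [ha, hb, Ne.symm hb]
    · simp [ha, Ne.symm ha]
  have hau : au l (Tm x y hd) (Pi.single k 1) = Pi.single k 1 - x := by
    change (Tm x y hd).1.det • ((Tm x y hd).1 *ᵥ _) = _
    rw [hB, det_transvection_of_ne _ _ (Ne.symm hk), one_smul, tv_mulVec, Pi.single_eq_same, mul_one,
      sub_eq_add_neg]
    congr 1
    simp only [x]
    rw [Pi.single_neg]
  obtain ⟨F1, hF1⟩ := step2 hP hε hg hχ y
  let F : Finset (ι → K) := F1 ∪ {x, Pi.single k 1}
  have hx : x ∈ V l F := subset_V _ (Finset.mem_union_right _ (by simp))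
  have hv0 : (Pi.single k 1 : ι → K) ∈ V l F := subset_V _ (Finset.mem_union_right _ (by simp))
  have hFy : N R.u ε F (FF κ) * R.v.f y = N R.u ε F (FF κ) := by
    have h1 : N R.u ε F1 (FF κ) * (R.v.f y - 1) = 0 := by rw [mul_sub, hF1, mul_one, sub_self]
    have h2 := extend_one hP h1 (T := F) (ψ := FF κ)
      (fun x hx => subset_V _ (Finset.mem_union_left _ hx)) (fun _ _ => rfl)
    rw [mul_sub, mul_one, sub_eq_zero] at h2
    exact h2
  have hεu : ∀ a, ε a ≠ 0 := by
    intro a h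
    have h1 : ε (a + -a) = 0 := by rw [AddChar.map_add_eq_mul, h, zero_mul]
    rw [add_neg_cancel, AddChar.map_zero_eq_one] at h1
    exact one_ne_zero h1
  have hh : N R.u ε F (FF κ) * R.h (Tm x y hd) = N R.u ε F (FF κ) := by
    have h1 : N R.u ε F (FF κ) * (R.v.f y * R.u.f x) = ε (FF κ x) • N R.u ε F (FF κ) := by
      rw [← mul_assoc, hFy, N_mul _ hx]
    rw [hvu, ← mul_assoc, ← mul_assoc, N_mul _ hx, smul_mul_assoc, smul_mul_assoc] at h1
    have h2 := smul_right_injective A (hεu (FF κ x)) h1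
    have h3 : R.v.f y * R.v.f (-y) = 1 := by rw [← R.v.add, add_neg_cancel, R.v.zero]
    have h4 : N R.u ε F (FF κ) * R.v.f (-y) = N R.u ε F (FF κ) := by
      calc N R.u ε F (FF κ) * R.v.f (-y) = N R.u ε F (FF κ) * R.v.f y * R.v.f (-y) := by rw [hFy]
        _ = N R.u ε F (FF κ) := by rw [mul_assoc, h3, mul_one]
    calc N R.u ε F (FF κ) * R.h (Tm x y hd)
        = N R.u ε F (FF κ) * R.h (Tm x y hd) * R.v.f y * R.v.f (-y) := by
          rw [mul_assoc _ (R.v.f y), h3, mul_one]
      _ = N R.u ε F (FF κ) * R.v.f (-y) := by rw [h2]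
      _ = N R.u ε F (FF κ) := h4
  refine ⟨F, ?_⟩
  have h1 : N R.u ε F (FF κ) * R.h (Tm x y hd) * R.u.f (Pi.single k 1) =
      ε (FF κ (Pi.single k 1 - x)) • N R.u ε F (FF κ) := by
    rw [mul_assoc, R.hu, ← mul_assoc]
    change N R.u ε F (FF κ) * R.u.f (au l (Tm x y hd) (Pi.single k 1)) * R.h (Tm x y hd) = _
    rw [hau, N_mul _ (V_sub hv0 hx), smul_mul_assoc, hh]
  rw [hh, N_mul _ hv0] at h1
  rw [← sub_eq_zero, ← sub_smul, map_sub] at h1
  refine (smul_eq_zero.1 h1).resolve_left ?_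
  intro h2
  have h3 : ε (FF κ (Pi.single k 1)) = ε (FF κ (Pi.single k 1) - FF κ x) := sub_eq_zero.1 h2
  have h4 : ε (FF κ x) = 1 := by
    rw [AddChar.map_sub_eq_div] at h3
    have h5 := hεu (FF κ (Pi.single k 1))
    have h6 := hεu (FF κ x)
    field_simp at h3
    exact h3
  have h5 := hε _ h4
  simp only [x] at h5
  rw [FF_e] at h5
  exact hz h5

/-- the unipotent radical acts trivially -/
theorem u_one [Infinite K] [Nontrivial ι] (hP : (l : P) ≠ 0) (hε : ∀ a : ZMod l, ε a = 1 → a = 0)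
    (hg : Good R ε 1) (x : ι → K) : R.u.f x = 1 := by
  have h1 := mem_of_sums hP hε (RingHom.ker (R.u.alg P)) x (by
    intro φ hφ
    obtain ⟨F, hF⟩ := step3 hP hε hg (χ := φ) (by
      rintro rfl
      exact hφ rfl)
    refine ⟨F, ?_⟩
    rw [RingHom.mem_ker]
    exact (Act.alg_NN R.u F φ).trans hF)
  rw [RingHom.mem_ker, map_sub, Act.alg_single, map_one, one_smul, sub_eq_zero] at h1
  exact h1

end M

end H36Aug
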